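import Pool.Agent.H27R2.VP.Core

set_option autoImplicit false
set_option linter.unusedSectionVars false

namespace Pool.Agent.H27R2.VP

open Finset

section Stab

variable {F X : Type*} [Group F] [Fintype F] [DecidableEq F] [Fintype X] [DecidableEq X]

/-- translation of functions on the group -/
def act (h : F) (ω : F → X) : F → X := fun g => ω (h⁻¹ * g)

theorem act_one (ω : F → X) : act 1 ω = ω := by funext g; simp [act]

theorem act_mul (a b : F) (ω : F → X) : act (a * b) ω = act a (act b ω) := by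
  funext g; simp [act, mul_assoc]

theorem hd_act (h : F) (ω ω' : F → X) :
    hammingDist (act h ω) (act h ω') = hammingDist ω ω' := by
  unfold hammingDist act
  refine Finset.card_bij (fun g _ => h⁻¹ * g) ?_ ?_ ?_
  · intro g hg; simpa using hg
  · intro a _ b _ e; exact mul_left_cancel e
  · intro b hb
    refine ⟨h * b, ?_, by simp⟩
    simpa using hb

/-- the function attached to a point -/
def om (Φ : F → Equiv.Perm X) (y : X) : F → X := fun g => (Φ g).symm y

theorem hd_om_ne (Φ : F → Equiv.Perm X) {y z : X} (h : y ≠ z) :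
    hammingDist (om Φ y) (om Φ z) = Fintype.card F := by
  unfold hammingDist om
  rw [filter_true_of_mem, card_univ]
  intro g _ e
  exact h ((Φ g).symm.injective e)

/-- the functions which are close to many translates of the points -/
def good (Φ : F → Equiv.Perm X) (ω : F → X) : Prop :=
  Fintype.card F < 2 * (univ.filter (fun h : F => ∃ y : X,
    8 * hammingDist ω (act h (om Φ y)) < Fintype.card F)).card

theorem good_act (Φ : F → Equiv.Perm X) {ω : F → X} (k : F) (h : good Φ ω) :
    good Φ (act k ω) := by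
  unfold good at h ⊢
  refine h.trans_le (Nat.mul_le_mul_left 2 ?_)
  refine card_le_card_of_injOn (fun h => k * h) ?_ ?_
  · intro g hg
    simp only [coe_filter, mem_univ, true_and, Set.mem_ofPred_eq] at hg ⊢
    obtain ⟨y, hy⟩ := hg
    refine ⟨y, ?_⟩
    rw [act_mul, hd_act]; exact hy
  · intro a _ b _ e; exact mul_left_cancel e

theorem gap (Φ : F → Equiv.Perm X) {ω ω' : F → X} (h : good Φ ω) (h' : good Φ ω')
    (hd : 4 * hammingDist ω ω' < 3 * Fintype.card F) :
    4 * hammingDist ω ω' < Fintype.card F := by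
  set A := univ.filter (fun h : F => ∃ y : X,
    8 * hammingDist ω (act h (om Φ y)) < Fintype.card F) with hA
  set B := univ.filter (fun h : F => ∃ y : X,
    8 * hammingDist ω' (act h (om Φ y)) < Fintype.card F) with hB
  have h1 : Fintype.card F < 2 * A.card := h
  have h2 : Fintype.card F < 2 * B.card := h'
  have h3 : (A ∩ B).Nonempty := by
    rw [nonempty_iff_ne_empty]
    intro h4
    have h5 := card_union_add_card_inter A B
    rw [h4, card_empty] at h5
    have h6 : (A ∪ B).card ≤ Fintype.card F := card_le_univ _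
    omega
  obtain ⟨g, hg⟩ := h3
  rw [mem_inter] at hg
  obtain ⟨y, hy⟩ := (mem_filter.1 hg.1).2
  obtain ⟨z, hz⟩ := (mem_filter.1 hg.2).2
  have t1 : hammingDist (act g (om Φ y)) (act g (om Φ z)) ≤
      hammingDist (act g (om Φ y)) ω + hammingDist ω (act g (om Φ z)) := hammingDist_triangle _ _ _
  have t2 : hammingDist ω (act g (om Φ z)) ≤
      hammingDist ω ω' + hammingDist ω' (act g (om Φ z)) := hammingDist_triangle _ _ _
  rw [hd_act, hammingDist_comm _ ω] at t1
  have hyz : y = z := by
    by_contra hne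
    rw [hd_om_ne Φ hne] at t1
    omega
  subst hyz
  have t3 : hammingDist ω ω' ≤
      hammingDist ω (act g (om Φ y)) + hammingDist (act g (om Φ y)) ω' := hammingDist_triangle _ _ _
  rw [hammingDist_comm (act g (om Φ y)) ω'] at t3
  omega

theorem card_pos' : 0 < Fintype.card F := Fintype.card_pos_iff.2 ⟨1⟩

/-- the equivalence relation on the good functions -/
def st (Φ : F → Equiv.Perm X) : Setoid {ω : F → X // good Φ ω} where
  r a b := 4 * hammingDist a.1 b.1 < 3 * Fintype.card F
  iseqv := by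
    refine ⟨fun a => ?_, fun {a b} h => ?_, fun {a b c} h1 h2 => ?_⟩
    · rw [hammingDist_self]; have := card_pos' (F := F); omega
    · rw [hammingDist_comm]; exact h
    · have e1 := gap Φ a.2 b.2 h1
      have e2 := gap Φ b.2 c.2 h2
      have := hammingDist_triangle a.1 b.1 c.1
      omega

/-- the finite `F`-set of clusters -/
abbrev Cl (Φ : F → Equiv.Perm X) := Quotient (st Φ)

theorem st_iff (Φ : F → Equiv.Perm X) (a b : {ω : F → X // good Φ ω}) :
    (Quotient.mk (st Φ) a = Quotient.mk (st Φ) b) ↔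
      4 * hammingDist a.1 b.1 < 3 * Fintype.card F := by
  rw [Quotient.eq]; rfl

noncomputable instance (Φ : F → Equiv.Perm X) : MulAction F (Cl Φ) where
  smul g := Quotient.map (fun a => ⟨act g a.1, good_act Φ g a.2⟩) (by
    intro a b h
    change 4 * hammingDist (act g a.1) (act g b.1) < 3 * Fintype.card F
    rw [hd_act]; exact h)
  one_smul := by
    intro a
    induction a using Quotient.inductionOn with
    | h a =>
      change Quotient.mk (st Φ) _ = Quotient.mk (st Φ) _
      congr 1
      exact Subtype.ext (act_one _)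
  mul_smul := by
    intro g h a
    induction a using Quotient.inductionOn with
    | h a =>
      change Quotient.mk (st Φ) _ = Quotient.mk (st Φ) _
      congr 1
      exact Subtype.ext (act_mul _ _ _)

theorem smul_mk (Φ : F → Equiv.Perm X) (g : F) (a : {ω : F → X // good Φ ω}) :
    g • (Quotient.mk (st Φ) a : Cl Φ) = Quotient.mk (st Φ) ⟨act g a.1, good_act Φ g a.2⟩ := rfl

noncomputable instance (Φ : F → Equiv.Perm X) : Fintype {ω : F → X // good Φ ω} := by
  classical
  exact Subtype.fintype _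

noncomputable instance (Φ : F → Equiv.Perm X) : Fintype (Cl Φ) := by
  classical
  exact Quotient.fintype _

noncomputable instance (Φ : F → Equiv.Perm X) : DecidableEq (Cl Φ) := Classical.decEq _

theorem card_Cl (Φ : F → Equiv.Perm X) : Fintype.card (Cl Φ) ≤ 2 * Fintype.card X := by
  classical
  let H : Cl Φ → Finset (F × X) := fun c =>
    univ.filter (fun p : F × X => 8 * hammingDist (Quotient.out c).1 (act p.1 (om Φ p.2))
      < Fintype.card F)
  have h1 : ∀ c, Fintype.card F ≤ 2 * (H c).card := by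
    intro c
    have hg := (Quotient.out c).2
    unfold good at hg
    refine hg.le.trans (Nat.mul_le_mul_left 2 ?_)
    have : (univ.filter (fun h : F => ∃ y : X,
        8 * hammingDist (Quotient.out c).1 (act h (om Φ y)) < Fintype.card F)) ⊆
        (H c).image Prod.fst := by
      intro h hh
      obtain ⟨y, hy⟩ := (mem_filter.1 hh).2
      exact mem_image.2 ⟨(h, y), by simp [H, hy], rfl⟩
    exact (card_le_card this).trans card_image_le
  have h2 : ∀ c ∈ (univ : Finset (Cl Φ)), ∀ d ∈ (univ : Finset (Cl Φ)), c ≠ d →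
      Disjoint (H c) (H d) := by
    intro c _ d _ hcd
    rw [disjoint_left]
    intro p hp hp'
    apply hcd
    rw [← Quotient.out_eq c, ← Quotient.out_eq d, st_iff]
    have e1 := (mem_filter.1 hp).2
    have e2 := (mem_filter.1 hp').2
    have t := hammingDist_triangle (Quotient.out c).1 (act p.1 (om Φ p.2)) (Quotient.out d).1
    rw [hammingDist_comm (act p.1 (om Φ p.2)) (Quotient.out d).1] at t
    omega
  have h3 : ∑ c : Cl Φ, (H c).card ≤ Fintype.card F * Fintype.card X := by
    rw [← card_biUnion h2]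
    refine (card_le_univ _).trans ?_
    rw [Fintype.card_prod]
  have h4 : Fintype.card (Cl Φ) * Fintype.card F ≤ 2 * ∑ c : Cl Φ, (H c).card := by
    rw [mul_sum]
    calc Fintype.card (Cl Φ) * Fintype.card F = ∑ _c : Cl Φ, Fintype.card F := by simp
      _ ≤ _ := sum_le_sum (fun c _ => h1 c)
  have h5 : Fintype.card (Cl Φ) * Fintype.card F ≤ (2 * Fintype.card X) * Fintype.card F := by
    calc _ ≤ _ := h4
      _ ≤ 2 * (Fintype.card F * Fintype.card X) := Nat.mul_le_mul_left 2 h3
      _ = _ := by ring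
  exact Nat.le_of_mul_le_mul_right h5 card_pos'

variable (Φ : F → Equiv.Perm X) (δ : ℝ)

open Classical in
/-- few points give a bad function -/
theorem card_bad
    (hδ : ∀ f g : F, ((univ.filter (fun x => Φ f (Φ g x) ≠ Φ (f * g) x)).card : ℝ) ≤ δ) :
    ((univ.filter (fun y : X => ¬ good Φ (om Φ y))).card : ℝ) ≤ 16 * δ := by
  classical
  set q := Fintype.card F with hq
  have hqpos : 0 < q := card_pos'
  -- pairwise counts
  have hpair : ∀ h g : F, ((univ.filter (fun y : X =>
      (Φ g).symm y ≠ (Φ (h⁻¹ * g)).symm ((Φ h).symm y))).card : ℝ) ≤ δ := by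
    intro h g
    refine le_trans ?_ (hδ h (h⁻¹ * g))
    rw [mul_inv_cancel_left]
    norm_cast
    refine card_le_card_of_injOn (fun y => (Φ (h⁻¹ * g)).symm ((Φ h).symm y)) ?_ ?_
    · intro y hy
      simp only [coe_filter, mem_univ, true_and, Set.mem_ofPred_eq] at hy ⊢
      simp only [Equiv.apply_symm_apply]
      intro e
      apply hy
      rw [Equiv.symm_apply_eq]; exact e
    · intro a _ b _ e
      exact (Φ h).symm.injective ((Φ (h⁻¹ * g)).symm.injective e)
  -- distance as a count
  have hdist : ∀ (y : X) (h : F), hammingDist (om Φ y) (act h (om Φ ((Φ h).symm y))) =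
      (univ.filter (fun g : F => (Φ g).symm y ≠ (Φ (h⁻¹ * g)).symm ((Φ h).symm y))).card := by
    intro y h; rfl
  have hsum : ∑ y : X, ∑ h : F, ((univ.filter (fun g : F =>
      (Φ g).symm y ≠ (Φ (h⁻¹ * g)).symm ((Φ h).symm y))).card : ℝ) ≤ q * (q * δ) := by
    have e1 : ∀ (y : X) (h : F), ((univ.filter (fun g : F =>
      (Φ g).symm y ≠ (Φ (h⁻¹ * g)).symm ((Φ h).symm y))).card : ℝ) =
      ∑ g : F, if (Φ g).symm y ≠ (Φ (h⁻¹ * g)).symm ((Φ h).symm y) then (1 : ℝ) else 0 := by
      intro y h; rw [card_filter]; push_cast; rfl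
    simp_rw [e1]
    rw [sum_comm]
    have e2 : ∀ h : F, ∑ y : X, ∑ g : F,
        (if (Φ g).symm y ≠ (Φ (h⁻¹ * g)).symm ((Φ h).symm y) then (1 : ℝ) else 0) ≤ q * δ := by
      intro h
      rw [sum_comm]
      have : ∀ g ∈ (univ : Finset F), ∑ y : X,
          (if (Φ g).symm y ≠ (Φ (h⁻¹ * g)).symm ((Φ h).symm y) then (1 : ℝ) else 0) ≤ δ := by
        intro g _
        have := hpair h g
        rw [card_filter] at this; push_cast at this; exact this
      refine (sum_le_sum this).trans ?_
      simp [hq]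
    refine (sum_le_sum (fun h _ => e2 h)).trans ?_
    simp [hq]
  have hbad : ∀ y ∈ univ.filter (fun y : X => ¬ good Φ (om Φ y)),
      (q : ℝ) * q ≤ 16 * ∑ h : F, ((univ.filter (fun g : F =>
      (Φ g).symm y ≠ (Φ (h⁻¹ * g)).symm ((Φ h).symm y))).card : ℝ) := by
    intro y hy
    have hb := (mem_filter.1 hy).2
    unfold good at hb
    push Not at hb
    set A := univ.filter (fun h : F => ∃ z : X,
      8 * hammingDist (om Φ y) (act h (om Φ z)) < Fintype.card F) with hA
    have hAc : 2 * A.card ≤ q := hb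
    have hcomp : Aᶜ.card + A.card = q := by
      rw [hq, add_comm]; exact card_add_card_compl A
    have h1 : ∀ h ∈ Aᶜ, (q : ℝ) ≤ 8 * ((univ.filter (fun g : F =>
      (Φ g).symm y ≠ (Φ (h⁻¹ * g)).symm ((Φ h).symm y))).card : ℝ) := by
      intro h hh
      rw [mem_compl, hA, mem_filter] at hh
      push Not at hh
      have := hh (mem_univ _) ((Φ h).symm y)
      rw [hdist] at this
      exact_mod_cast this
    have h2 : (Aᶜ.card : ℝ) * q ≤ 8 * ∑ h ∈ Aᶜ, ((univ.filter (fun g : F =>
      (Φ g).symm y ≠ (Φ (h⁻¹ * g)).symm ((Φ h).symm y))).card : ℝ) := by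
      have := sum_le_sum h1
      rw [sum_const, nsmul_eq_mul, ← mul_sum] at this
      exact this
    have h3 : ∑ h ∈ Aᶜ, ((univ.filter (fun g : F =>
      (Φ g).symm y ≠ (Φ (h⁻¹ * g)).symm ((Φ h).symm y))).card : ℝ) ≤
      ∑ h : F, ((univ.filter (fun g : F =>
      (Φ g).symm y ≠ (Φ (h⁻¹ * g)).symm ((Φ h).symm y))).card : ℝ) :=
      sum_le_sum_of_subset_of_nonneg (subset_univ _) (fun _ _ _ => Nat.cast_nonneg _)
    have h4 : (q : ℝ) ≤ 2 * Aᶜ.card := by
      have : q ≤ 2 * Aᶜ.card := by omega
      exact_mod_cast this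
    have h5 : (q : ℝ) * q ≤ 2 * Aᶜ.card * q := by
      have : (0 : ℝ) ≤ q := Nat.cast_nonneg _
      nlinarith
    linarith
  have h6 : ((univ.filter (fun y : X => ¬ good Φ (om Φ y))).card : ℝ) * (q * q) ≤
      16 * (q * (q * δ)) := by
    have e1 := sum_le_sum hbad
    rw [sum_const, nsmul_eq_mul, ← mul_sum] at e1
    refine e1.trans ?_
    have e2 : ∑ y ∈ univ.filter (fun y : X => ¬ good Φ (om Φ y)), ∑ h : F,
        ((univ.filter (fun g : F =>
        (Φ g).symm y ≠ (Φ (h⁻¹ * g)).symm ((Φ h).symm y))).card : ℝ) ≤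
        ∑ y : X, ∑ h : F, ((univ.filter (fun g : F =>
        (Φ g).symm y ≠ (Φ (h⁻¹ * g)).symm ((Φ h).symm y))).card : ℝ) :=
      sum_le_sum_of_subset_of_nonneg (subset_univ _)
        (fun _ _ _ => sum_nonneg (fun _ _ => Nat.cast_nonneg _))
    linarith
  have hq2 : (0 : ℝ) < (q : ℝ) * q := by positivity
  by_contra hcon
  push Not at hcon
  have : 16 * δ * ((q : ℝ) * q) <
      ((univ.filter (fun y : X => ¬ good Φ (om Φ y))).card : ℝ) * (q * q) :=
    mul_lt_mul_of_pos_right hcon hq2
  linarith

/-- for each group element the cluster action follows the approximate action -/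
theorem card_follow
    (hδ : ∀ f g : F, ((univ.filter (fun x => Φ f (Φ g x) ≠ Φ (f * g) x)).card : ℝ) ≤ δ) (f : F) :
    3 * ((univ.filter (fun y : X => 3 * Fintype.card F ≤
      8 * hammingDist (act f (om Φ y)) (om Φ (Φ f y)))).card : ℝ) ≤ 8 * δ := by
  classical
  set q := Fintype.card F with hq
  have hqpos : 0 < q := card_pos'
  have hpair : ∀ g : F, ((univ.filter (fun y : X =>
      (Φ (f⁻¹ * g)).symm y ≠ (Φ g).symm (Φ f y))).card : ℝ) ≤ δ := by
    intro g
    refine le_trans ?_ (hδ f (f⁻¹ * g))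
    rw [mul_inv_cancel_left]
    norm_cast
    refine card_le_card_of_injOn (fun y => (Φ (f⁻¹ * g)).symm y) ?_ ?_
    · intro y hy
      simp only [coe_filter, mem_univ, true_and, Set.mem_ofPred_eq] at hy ⊢
      simp only [Equiv.apply_symm_apply]
      intro e
      apply hy
      rw [Equiv.eq_symm_apply]; exact e.symm
    · intro a _ b _ e
      exact (Φ (f⁻¹ * g)).symm.injective e
  have hdist : ∀ (y : X), hammingDist (act f (om Φ y)) (om Φ (Φ f y)) =
      (univ.filter (fun g : F => (Φ (f⁻¹ * g)).symm y ≠ (Φ g).symm (Φ f y))).card := by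
    intro y; rfl
  have hsum : ∑ y : X, ((univ.filter (fun g : F =>
      (Φ (f⁻¹ * g)).symm y ≠ (Φ g).symm (Φ f y))).card : ℝ) ≤ q * δ := by
    have e1 : ∀ (y : X), ((univ.filter (fun g : F =>
      (Φ (f⁻¹ * g)).symm y ≠ (Φ g).symm (Φ f y))).card : ℝ) =
      ∑ g : F, if (Φ (f⁻¹ * g)).symm y ≠ (Φ g).symm (Φ f y) then (1 : ℝ) else 0 := by
      intro y; rw [card_filter]; push_cast; rfl
    simp_rw [e1]
    rw [sum_comm]
    have : ∀ g ∈ (univ : Finset F), ∑ y : X,
        (if (Φ (f⁻¹ * g)).symm y ≠ (Φ g).symm (Φ f y) then (1 : ℝ) else 0) ≤ δ := by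
      intro g _
      have := hpair g
      rw [card_filter] at this; push_cast at this; exact this
    refine (sum_le_sum this).trans ?_
    simp [hq]
  set E := univ.filter (fun y : X => 3 * Fintype.card F ≤
      8 * hammingDist (act f (om Φ y)) (om Φ (Φ f y))) with hE
  have h1 : ∀ y ∈ E, 3 * (q : ℝ) ≤ 8 * ((univ.filter (fun g : F =>
      (Φ (f⁻¹ * g)).symm y ≠ (Φ g).symm (Φ f y))).card : ℝ) := by
    intro y hy
    have := (mem_filter.1 hy).2
    rw [hdist] at this
    exact_mod_cast this
  have h2 := sum_le_sum h1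
  rw [sum_const, nsmul_eq_mul, ← mul_sum] at h2
  have h3 : ∑ y ∈ E, ((univ.filter (fun g : F =>
      (Φ (f⁻¹ * g)).symm y ≠ (Φ g).symm (Φ f y))).card : ℝ) ≤ ∑ y : X, ((univ.filter (fun g : F =>
      (Φ (f⁻¹ * g)).symm y ≠ (Φ g).symm (Φ f y))).card : ℝ) :=
    sum_le_sum_of_subset_of_nonneg (subset_univ _) (fun _ _ _ => Nat.cast_nonneg _)
  have h4 : (q : ℝ) * (3 * (E.card : ℝ)) ≤ q * (8 * δ) := by nlinarith
  exact le_of_mul_le_mul_left h4 (by exact_mod_cast hqpos)

end Stab

section Main

variable {I S X : Type*} [Fintype I] [DecidableEq I] [Group S] [Fintype S] [DecidableEq S]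
  [Fintype X] [DecidableEq X]

/-- **Core estimate**: a uniformly almost multiplicative map from `S^I` to `Sym(X)` in which
every coordinate sees that `s` and `t` do not commute on at least `m` points forces `X` to be
exponentially large in `|I|`. -/
theorem core (Φ : (I → S) → Equiv.Perm X) (δ : ℝ)
    (hδ : ∀ f g : I → S, ((univ.filter (fun x => Φ f (Φ g x) ≠ Φ (f * g) x)).card : ℝ) ≤ δ)
    (s t : S) (m : ℝ)
    (hm : ∀ i : I, m ≤ ((univ.filter (fun x => Φ (Pi.mulSingle i (s * t)) x ≠
      Φ (Pi.mulSingle i (t * s)) x)).card : ℝ)) :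
    (Fintype.card I : ℝ) * m ≤ 22 * Fintype.card I * δ +
      2 * Fintype.card X * Nat.log 2 (2 * Fintype.card X) := by
  classical
  let E : (I → S) → Finset X := fun f => univ.filter (fun y : X => 3 * Fintype.card (I → S) ≤
      8 * hammingDist (act f (om Φ y)) (om Φ (Φ f y)))
  let Bd : Finset X := univ.filter (fun y : X => ¬ good Φ (om Φ y))
  let a : I → (I → S) := fun i => Pi.mulSingle i (s * t)
  let b : I → (I → S) := fun i => Pi.mulSingle i (t * s)
  let R : I → Finset X := fun i => univ.filter (fun y : X => ∃ h : good Φ (om Φ y),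
    a i • (Quotient.mk (st Φ) ⟨om Φ y, h⟩ : Cl Φ) ≠ b i • (Quotient.mk (st Φ) ⟨om Φ y, h⟩ : Cl Φ))
  have hBd : (Bd.card : ℝ) ≤ 16 * δ := card_bad Φ δ hδ
  have hE : ∀ f, 3 * ((E f).card : ℝ) ≤ 8 * δ := fun f => card_follow Φ δ hδ f
  have hsub : ∀ i, univ.filter (fun x => Φ (a i) x ≠ Φ (b i) x) ⊆
      ((Bd ∪ E (a i)) ∪ E (b i)) ∪ R i := by
    intro i y hy
    have hy1 := (mem_filter.1 hy).2
    by_contra hcon
    simp only [mem_union, not_or] at hcon
    obtain ⟨⟨⟨c1, c2⟩, c3⟩, c4⟩ := hcon
    simp only [Bd, E, R, mem_filter, mem_univ, true_and, not_not, not_exists, not_le] at c1 c2 c3 c4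
    have c5 := c4 c1
    rw [smul_mk, smul_mk, st_iff] at c5
    have g1 := gap Φ (good_act Φ (a i) c1) (good_act Φ (b i) c1) c5
    have t1 := hammingDist_triangle (om Φ (Φ (a i) y)) (act (a i) (om Φ y)) (om Φ (Φ (b i) y))
    have t2 := hammingDist_triangle (act (a i) (om Φ y)) (act (b i) (om Φ y)) (om Φ (Φ (b i) y))
    rw [hammingDist_comm (om Φ (Φ (a i) y)) (act (a i) (om Φ y))] at t1
    have hne : hammingDist (om Φ (Φ (a i) y)) (om Φ (Φ (b i) y)) = Fintype.card (I → S) :=
      hd_om_ne Φ hy1
    omega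
  have hcard : ∀ i, m ≤ 16 * δ + 16 / 3 * δ + (R i).card := by
    intro i
    refine (hm i).trans ?_
    have h1 : (univ.filter (fun x => Φ (a i) x ≠ Φ (b i) x)).card ≤
        Bd.card + (E (a i)).card + (E (b i)).card + (R i).card := by
      refine (card_le_card (hsub i)).trans ?_
      refine (card_union_le _ _).trans ?_
      have := card_union_le (Bd ∪ E (a i)) (E (b i))
      have := card_union_le Bd (E (a i))
      omega
    have h2 : ((univ.filter (fun x => Φ (a i) x ≠ Φ (b i) x)).card : ℝ) ≤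
        Bd.card + (E (a i)).card + (E (b i)).card + (R i).card := by exact_mod_cast h1
    have h3 := hE (a i)
    have h4 := hE (b i)
    linarith
  have hsum : (∑ i : I, (R i).card : ℝ) ≤ 2 * Fintype.card X * Nat.log 2 (2 * Fintype.card X) := by
    have e1 : ∑ i : I, (R i).card = ∑ y : X, (univ.filter (fun i : I => y ∈ R i)).card := by
      simp_rw [card_filter]
      rw [sum_comm]
      refine sum_congr rfl (fun i _ => ?_)
      rw [← card_filter]
      congr 1
      ext y
      simp
    have e2 : ∀ y ∈ (univ : Finset X), (univ.filter (fun i : I => y ∈ R i)).card ≤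
        2 * Nat.log 2 (2 * Fintype.card X) := by
      intro y _
      by_cases hg : good Φ (om Φ y)
      · have h1 := count_noncomm (I := I) (Quotient.mk (st Φ) ⟨om Φ y, hg⟩ : Cl Φ) s t
        have h2 : Nat.log 2 (Fintype.card (Cl Φ)) ≤ Nat.log 2 (2 * Fintype.card X) :=
          Nat.log_mono_right (card_Cl Φ)
        refine le_trans (card_le_card ?_) (h1.trans (Nat.mul_le_mul_left 2 h2))
        intro i hi
        have h3 := (mem_filter.1 hi).2
        simp only [R, mem_filter, mem_univ, true_and] at h3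
        obtain ⟨_, h4⟩ := h3
        exact mem_filter.2 ⟨mem_univ _, h4⟩
      · rw [filter_false_of_mem]
        · simp
        · intro i _ hi
          simp only [R, mem_filter, mem_univ, true_and] at hi
          exact hg hi.1
    have e3 : ∑ i : I, (R i).card ≤ Fintype.card X * (2 * Nat.log 2 (2 * Fintype.card X)) := by
      rw [e1]
      refine (sum_le_sum e2).trans ?_
      simp
    have e4 : ((∑ i : I, (R i).card : ℕ) : ℝ) ≤
        ((Fintype.card X * (2 * Nat.log 2 (2 * Fintype.card X)) : ℕ) : ℝ) := by exact_mod_cast e3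
    push_cast at e4
    linarith
  have hfin := sum_le_sum (fun i (_ : i ∈ (univ : Finset I)) => hcard i)
  rw [sum_const, nsmul_eq_mul, card_univ, sum_add_distrib, sum_const, nsmul_eq_mul, card_univ]
    at hfin
  have hd0 : 0 ≤ δ := le_trans (Nat.cast_nonneg _) (hδ 1 1)
  have hI : (0 : ℝ) ≤ Fintype.card I := Nat.cast_nonneg _
  have : (Fintype.card I : ℝ) * (16 * δ + 16 / 3 * δ) ≤ 22 * Fintype.card I * δ := by
    nlinarith [mul_nonneg hI hd0]
  linarith

end Main

end Pool.Agent.H27R2.VP
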