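import Pool.Agent.H27R2.VP.Tree
import Pool.Agent.H27R2.VP.Stab

set_option autoImplicit false
set_option linter.unusedSectionVars false

namespace Pool.Agent.H27R2.VP

/-- `φ` is multiplicative on `E` up to `ε` for the length `ℓ`. -/
def Near {G P : Type*} [Group G] [Group P] (ℓ : P → ℝ) (φ : G → P) (E : Finset G) (ε : ℝ) : Prop :=
  ∀ g ∈ E, ∀ h ∈ E, dd ℓ (φ g * φ h) (φ (g * h)) ≤ ε

theorem Near.mono {G P : Type*} [Group G] [Group P] {ℓ : P → ℝ} {φ : G → P} {E E' : Finset G}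
    {ε : ℝ} (h : Near ℓ φ E ε) (hs : E' ⊆ E) : Near ℓ φ E' ε :=
  fun g hg k hk => h g (hs hg) k (hs hk)

section Words

variable {G : Type*} [Group G] [DecidableEq G] {Z : Type*}

theorem near_word (ev : Z → G) (W : FreeGroup Z) : ∃ E : Finset G, ∃ C : ℝ, 0 ≤ C ∧
    ∀ (P : Type) [Group P] (ℓ : P → ℝ) (φ : G → P) (ε : ℝ), InvLen ℓ → 0 ≤ ε →
      Near ℓ φ E ε →
      dd ℓ (FreeGroup.lift (fun z => φ (ev z)) W) (φ (FreeGroup.lift ev W)) ≤ C * ε := by
  induction W using FreeGroup.induction_on with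
  | C1 =>
    refine ⟨{1}, 1, zero_le_one, ?_⟩
    intro P _ ℓ φ ε H hε hN
    have h := hN 1 (by simp) 1 (by simp)
    rw [map_one, map_one, one_mul]
    rw [mul_one] at h
    have h2 := H.dd_mul_right (φ 1) (φ 1) 1
    rw [one_mul] at h2
    rw [h2] at h
    rw [H.dd_comm]; exact h
  | of z =>
    refine ⟨∅, 0, le_rfl, ?_⟩
    intro P _ ℓ φ ε H hε hN
    rw [FreeGroup.lift_apply_of, FreeGroup.lift_apply_of, H.dd_self, zero_mul]
  | inv_of z _ =>
    refine ⟨{ev z, (ev z)⁻¹, 1}, 2, by norm_num, ?_⟩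
    intro P _ ℓ φ ε H hε hN
    rw [map_inv, map_inv, FreeGroup.lift_apply_of, FreeGroup.lift_apply_of]
    have h1 := hN 1 (by simp) 1 (by simp)
    rw [mul_one] at h1
    have h2 := H.dd_mul_right (φ 1) (φ 1) 1
    rw [one_mul] at h2
    rw [h2] at h1
    have h3 := hN (ev z) (by simp) (ev z)⁻¹ (by simp)
    rw [mul_inv_cancel] at h3
    have h4 := H.dd_tri (φ (ev z) * φ (ev z)⁻¹) (φ 1) 1
    have h5 := H.dd_mul_left (φ (ev z)) (φ (ev z))⁻¹ (φ (ev z)⁻¹)
    rw [mul_inv_cancel] at h5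
    rw [← h5, H.dd_comm]
    linarith
  | mul x y hx hy =>
    obtain ⟨E1, C1, hC1, H1⟩ := hx
    obtain ⟨E2, C2, hC2, H2⟩ := hy
    refine ⟨E1 ∪ E2 ∪ {FreeGroup.lift ev x, FreeGroup.lift ev y}, C1 + C2 + 1, by linarith, ?_⟩
    intro P _ ℓ φ ε H hε hN
    have a1 := H1 P ℓ φ ε H hε (hN.mono (by intro g hg; simp [hg]))
    have a2 := H2 P ℓ φ ε H hε (hN.mono (by intro g hg; simp [hg]))
    have a3 := hN (FreeGroup.lift ev x) (by simp) (FreeGroup.lift ev y) (by simp)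
    rw [map_mul, map_mul]
    have a4 := H.dd_mul (FreeGroup.lift (fun z => φ (ev z)) x)
      (FreeGroup.lift (fun z => φ (ev z)) y) (φ (FreeGroup.lift ev x)) (φ (FreeGroup.lift ev y))
    have a5 := H.dd_tri (FreeGroup.lift (fun z => φ (ev z)) x *
      FreeGroup.lift (fun z => φ (ev z)) y) (φ (FreeGroup.lift ev x) * φ (FreeGroup.lift ev y))
      (φ (FreeGroup.lift ev x * FreeGroup.lift ev y))
    linarith

theorem near_words [DecidableEq Z] (ev : Z → G) (Ws : Finset (FreeGroup Z)) :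
    ∃ E : Finset G, ∃ C : ℝ, 0 ≤ C ∧
    ∀ (P : Type) [Group P] (ℓ : P → ℝ) (φ : G → P) (ε : ℝ), InvLen ℓ → 0 ≤ ε →
      Near ℓ φ E ε → ∀ W ∈ Ws,
      dd ℓ (FreeGroup.lift (fun z => φ (ev z)) W) (φ (FreeGroup.lift ev W)) ≤ C * ε := by
  induction Ws using Finset.induction_on with
  | empty => exact ⟨∅, 0, le_rfl, fun P _ ℓ φ ε _ _ _ W hW => by simp at hW⟩
  | insert W Ws _ ih =>
    obtain ⟨E1, C1, hC1, H1⟩ := ih
    obtain ⟨E2, C2, hC2, H2⟩ := near_word ev W
    refine ⟨E1 ∪ E2, C1 + C2, by linarith, ?_⟩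
    intro P _ ℓ φ ε H hε hN W' hW'
    have hN1 := hN.mono (Finset.subset_union_left (s₁ := E1) (s₂ := E2))
    have hN2 := hN.mono (Finset.subset_union_right (s₁ := E1) (s₂ := E2))
    rcases Finset.mem_insert.1 hW' with rfl | h
    · have := H2 P ℓ φ ε H hε hN2
      nlinarith [mul_nonneg hC1 hε]
    · have := H1 P ℓ φ ε H hε hN1 W' h
      nlinarith [mul_nonneg hC2 hε]

end Words

/-- a group `G` with two commuting self-embeddings which are locally inner, and a hom from `S` -/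
structure Data (G S : Type*) [Group G] [Group S] where
  ι : Bool → (G →* G)
  lam : Bool → Bool → G
  θ : G
  jS : S →* G
  comm : ∀ u v, ι false u * ι true v = ι true v * ι false u
  conj : ∀ i j v, ι i (ι j v) = lam i j * ι j v * (lam i j)⁻¹
  th : ∀ v, ι true v = θ * ι false v * θ⁻¹

namespace Data

variable {G S : Type*} [Group G] [Group S] [DecidableEq G] [DecidableEq S] [Fintype S]

/-- the generators -/
abbrev Z (S : Type*) := Option Bool × ((Bool × Bool) ⊕ S)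

def ev0 (D : Data G S) : (Bool × Bool) ⊕ S → G
  | .inl p => D.lam p.1 p.2
  | .inr s => D.jS s

def ev (D : Data G S) : Z S → G
  | (none, z) => D.ev0 z
  | (some b, z) => D.ι b (D.ev0 z)

def lamW (S : Type*) (i j : Bool) : FreeGroup (Z S) := FreeGroup.of (none, .inl (i, j))

def τ0 (S : Type*) (j : Bool) : Z S → FreeGroup (Z S)
  | (none, z) => FreeGroup.of (some j, z)
  | (some b, z) => lamW S j b * FreeGroup.of (some b, z) * (lamW S j b)⁻¹

def τ (S : Type*) (j : Bool) : FreeGroup (Z S) →* FreeGroup (Z S) := FreeGroup.lift (τ0 S j)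

def wS (s : S) : FreeGroup (Z S) := if s = 1 then 1 else FreeGroup.of (none, .inr s)

theorem ev_wS (D : Data G S) (s : S) : FreeGroup.lift D.ev (wS s) = D.jS s := by
  unfold wS
  split_ifs with h
  · rw [h, map_one, map_one]
  · rw [FreeGroup.lift_apply_of]; rfl

theorem ev_τ (D : Data G S) (j : Bool) (u : FreeGroup (Z S)) :
    FreeGroup.lift D.ev (τ S j u) = D.ι j (FreeGroup.lift D.ev u) := by
  have : (FreeGroup.lift D.ev).comp (τ S j) = (D.ι j).comp (FreeGroup.lift D.ev) := by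
    apply FreeGroup.ext_hom
    rintro ⟨b, z⟩
    cases b with
    | none =>
      simp only [MonoidHom.comp_apply, τ, FreeGroup.lift_apply_of, τ0]
      rfl
    | some b =>
      simp only [MonoidHom.comp_apply, τ, FreeGroup.lift_apply_of, τ0, lamW, map_mul, map_inv]
      exact (D.conj j b (D.ev0 z)).symm
  exact DFunLike.congr_fun this u

/-- the distinguished element -/
def w0 (D : Data G S) (s t : S) : G := D.ι false (D.jS (s * t * (t * s)⁻¹))

theorem exists_model (D : Data G S) (s t : S) : ∃ E : Finset G, ∃ C : ℝ, 0 < C ∧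
    ∀ (P : Type) [Group P] (ℓ : P → ℝ) (φ : G → P) (ε : ℝ), InvLen ℓ → 0 ≤ ε →
      Near ℓ φ E ε →
      Model ℓ (τ S) (lamW S) (wS (S := S)) (FreeGroup.lift (fun z => φ (D.ev z))) (C * ε) ∧
      ∀ j, ℓ (φ (D.w0 s t)) - C * ε ≤
        dd ℓ (FreeGroup.lift (fun z => φ (D.ev z)) (τ S j (wS (s * t))))
          (FreeGroup.lift (fun z => φ (D.ev z)) (τ S j (wS (t * s)))) := by
  classical
  let U1 : Finset (FreeGroup (Z S)) :=
    (Finset.univ : Finset (Bool × Bool × Z S)).image (fun p =>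
      τ S p.1 (τ S p.2.1 (FreeGroup.of p.2.2)))
  let U2 : Finset (FreeGroup (Z S)) :=
    (Finset.univ : Finset (Bool × Bool × Z S)).image (fun p =>
      lamW S p.1 p.2.1 * τ S p.2.1 (FreeGroup.of p.2.2) * (lamW S p.1 p.2.1)⁻¹)
  let U3 : Finset (FreeGroup (Z S)) :=
    (Finset.univ : Finset (Bool × Z S × Z S)).image (fun p =>
      τ S p.1 (τ S false (FreeGroup.of p.2.1)) * τ S p.1 (τ S true (FreeGroup.of p.2.2)))
  let U4 : Finset (FreeGroup (Z S)) :=
    (Finset.univ : Finset (Bool × Z S × Z S)).image (fun p =>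
      τ S p.1 (τ S true (FreeGroup.of p.2.2)) * τ S p.1 (τ S false (FreeGroup.of p.2.1)))
  let U5 : Finset (FreeGroup (Z S)) :=
    (Finset.univ : Finset (Bool × S × S)).image (fun p =>
      τ S p.1 (wS p.2.1) * τ S p.1 (wS p.2.2))
  let U6 : Finset (FreeGroup (Z S)) :=
    (Finset.univ : Finset (Bool × S)).image (fun p => τ S p.1 (wS p.2))
  obtain ⟨E0, C0, hC0, H0⟩ := near_words D.ev (U1 ∪ U2 ∪ U3 ∪ U4 ∪ U5 ∪ U6)
  refine ⟨E0 ∪ {D.w0 s t, D.ι true (D.jS (s * t * (t * s)⁻¹)), D.ι false (D.jS (t * s)),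
    D.ι true (D.jS (t * s)), D.θ}, 2 * C0 + 3, by linarith, ?_⟩
  intro P _ ℓ φ ε H hε hN
  set π := FreeGroup.lift (fun z => φ (D.ev z)) with hπ
  have hN0 : Near ℓ φ E0 ε := hN.mono Finset.subset_union_left
  have K := H0 P ℓ φ ε H hε hN0
  have pair : ∀ A B : FreeGroup (Z S), A ∈ U1 ∪ U2 ∪ U3 ∪ U4 ∪ U5 ∪ U6 →
      B ∈ U1 ∪ U2 ∪ U3 ∪ U4 ∪ U5 ∪ U6 → FreeGroup.lift D.ev A = FreeGroup.lift D.ev B →
      dd ℓ (π A) (π B) ≤ (2 * C0 + 3) * ε := by
    intro A B hA hB hAB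
    have a1 := K A hA
    have a2 := K B hB
    rw [← hAB] at a2
    have a3 := H.dd_tri (π A) (φ (FreeGroup.lift D.ev A)) (π B)
    rw [H.dd_comm (π B)] at a2
    nlinarith
  have memb : ∀ {A : FreeGroup (Z S)}, (A ∈ U1 ∨ A ∈ U2 ∨ A ∈ U3 ∨ A ∈ U4 ∨ A ∈ U5 ∨ A ∈ U6) →
      A ∈ U1 ∪ U2 ∪ U3 ∪ U4 ∪ U5 ∪ U6 := by
    intro A h
    simp only [Finset.mem_union]
    tauto
  refine ⟨⟨H, by positivity, ?_, ?_, ?_, ?_, ?_, ?_⟩, ?_⟩
  · intro s
    unfold wS
    split_ifs
    · simp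
    · simp
  · simp [wS]
  · rintro j ⟨b, z⟩
    cases b with
    | none => simp [τ, τ0]
    | some b =>
      simp only [τ, FreeGroup.lift_apply_of, τ0, lamW]
      refine (FreeGroup.norm_mul_le _ _).trans ?_
      have := FreeGroup.norm_mul_le (FreeGroup.of ((none, Sum.inl (j, b)) : Z S))
        (FreeGroup.of ((some b, z) : Z S))
      rw [FreeGroup.norm_inv_eq]
      simp only [FreeGroup.norm_of] at this ⊢
      omega
  · intro i j z
    refine pair _ _ (memb (Or.inl ?_)) (memb (Or.inr (Or.inl ?_))) ?_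
    · exact Finset.mem_image.2 ⟨(i, j, z), Finset.mem_univ _, rfl⟩
    · exact Finset.mem_image.2 ⟨(i, j, z), Finset.mem_univ _, rfl⟩
    · simp only [map_mul, map_inv, ev_τ, lamW, FreeGroup.lift_apply_of]
      exact D.conj i j _
  · intro i z z'
    have q := pair
      (τ S i (τ S false (FreeGroup.of z)) * τ S i (τ S true (FreeGroup.of z')))
      (τ S i (τ S true (FreeGroup.of z')) * τ S i (τ S false (FreeGroup.of z)))
      (memb (Or.inr (Or.inr (Or.inl (Finset.mem_image.2 ⟨(i, z, z'), Finset.mem_univ _, rfl⟩)))))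
      (memb (Or.inr (Or.inr (Or.inr (Or.inl
        (Finset.mem_image.2 ⟨(i, z, z'), Finset.mem_univ _, rfl⟩)))))) (by
        simp only [map_mul, ev_τ]
        rw [← map_mul, ← map_mul, D.comm])
    rw [map_mul, map_mul] at q
    exact q
  · intro j a b
    rw [← map_mul]
    refine pair _ _ (memb (Or.inr (Or.inr (Or.inr (Or.inr (Or.inl ?_))))))
      (memb (Or.inr (Or.inr (Or.inr (Or.inr (Or.inr ?_)))))) ?_
    · exact Finset.mem_image.2 ⟨(j, a, b), Finset.mem_univ _, rfl⟩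
    · exact Finset.mem_image.2 ⟨(j, a * b), Finset.mem_univ _, rfl⟩
    · simp only [map_mul, ev_τ, ev_wS]
  · -- the moved part
    set c : S := s * t * (t * s)⁻¹ with hc
    have hct : c * (t * s) = s * t := by rw [hc]; group
    have hw0 : D.w0 s t = D.ι false (D.jS c) := rfl
    rw [hw0] at hN ⊢
    -- length of the two copies
    have hθ : ℓ (φ (D.ι false (D.jS c))) - 2 * ε ≤ ℓ (φ (D.ι true (D.jS c))) := by
      have b1 := hN D.θ (by simp) (D.ι false (D.jS c)) (by simp)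
      have b2 := hN (D.ι true (D.jS c)) (by simp) D.θ (by simp)
      have b3 : D.ι true (D.jS c) * D.θ = D.θ * D.ι false (D.jS c) := by
        rw [D.th]; group
      rw [b3, H.dd_comm] at b2
      have b4 := H.dd_tri (φ D.θ * φ (D.ι false (D.jS c))) (φ (D.θ * D.ι false (D.jS c)))
        (φ (D.ι true (D.jS c)) * φ D.θ)
      have b5 : dd ℓ (φ D.θ * φ (D.ι false (D.jS c))) (φ (D.ι true (D.jS c)) * φ D.θ) =
          dd ℓ (φ D.θ * φ (D.ι false (D.jS c)) * (φ D.θ)⁻¹) (φ (D.ι true (D.jS c))) := by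
        rw [← H.dd_mul_right (φ D.θ) (φ D.θ * φ (D.ι false (D.jS c)) * (φ D.θ)⁻¹)]
        congr 1
        group
      have b6 := H.mul_le (φ D.θ * φ (D.ι false (D.jS c)) * (φ D.θ)⁻¹ * (φ (D.ι true (D.jS c)))⁻¹)
        (φ (D.ι true (D.jS c)))
      have b7 : φ D.θ * φ (D.ι false (D.jS c)) * (φ D.θ)⁻¹ * (φ (D.ι true (D.jS c)))⁻¹ *
        (φ (D.ι true (D.jS c))) = φ D.θ * φ (D.ι false (D.jS c)) * (φ D.θ)⁻¹ := by group
      rw [b7, H.conj] at b6
      have b8 : ℓ (φ D.θ * φ (D.ι false (D.jS c)) * (φ D.θ)⁻¹ * (φ (D.ι true (D.jS c)))⁻¹) =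
        dd ℓ (φ D.θ * φ (D.ι false (D.jS c)) * (φ D.θ)⁻¹) (φ (D.ι true (D.jS c))) := rfl
      linarith
    have hlen : ∀ j, ℓ (φ (D.ι false (D.jS c))) - 2 * ε ≤ ℓ (φ (D.ι j (D.jS c))) := by
      intro j
      cases j with
      | false =>
        linarith
      | true => exact hθ
    intro j
    have a1 := K (τ S j (wS (s * t))) (memb (by
      right; right; right; right; right
      exact Finset.mem_image.2 ⟨(j, s * t), Finset.mem_univ _, rfl⟩))
    have a2 := K (τ S j (wS (t * s))) (memb (by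
      right; right; right; right; right
      exact Finset.mem_image.2 ⟨(j, t * s), Finset.mem_univ _, rfl⟩))
    rw [ev_τ, ev_wS] at a1 a2
    have a3 : dd ℓ (φ (D.ι j (D.jS c)) * φ (D.ι j (D.jS (t * s)))) (φ (D.ι j (D.jS (s * t)))) ≤ ε := by
      have := hN (D.ι j (D.jS c)) (by cases j <;> simp) (D.ι j (D.jS (t * s)))
        (by cases j <;> simp)
      rwa [← map_mul, ← map_mul, hct] at this
    have a4 : dd ℓ (φ (D.ι j (D.jS c)) * φ (D.ι j (D.jS (t * s)))) (φ (D.ι j (D.jS (t * s)))) =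
        ℓ (φ (D.ι j (D.jS c))) := by
      unfold dd; congr 1; group
    have a5 := H.dd_tri (φ (D.ι j (D.jS c)) * φ (D.ι j (D.jS (t * s)))) (φ (D.ι j (D.jS (s * t))))
      (φ (D.ι j (D.jS (t * s))))
    have a6 := H.dd_tri (φ (D.ι j (D.jS (s * t)))) (π (τ S j (wS (s * t))))
      (φ (D.ι j (D.jS (t * s))))
    have a7 := H.dd_tri (π (τ S j (wS (s * t)))) (π (τ S j (wS (t * s))))
      (φ (D.ι j (D.jS (t * s))))
    have a8 := H.dd_comm (φ (D.ι j (D.jS (s * t)))) (π (τ S j (wS (s * t))))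
    have a9 := hlen j
    linarith

end Data

end Pool.Agent.H27R2.VP
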