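import Mathlib

set_option autoImplicit false

namespace Pool.Agent.H27R2.VP

/-- `ℓ` is a conjugation invariant (pseudo) length function on the group `P`. -/
structure InvLen {P : Type*} [Group P] (ℓ : P → ℝ) : Prop where
  one : ℓ 1 = 0
  inv : ∀ g, ℓ g⁻¹ = ℓ g
  mul_le : ∀ g h, ℓ (g * h) ≤ ℓ g + ℓ h
  conj : ∀ g h, ℓ (h * g * h⁻¹) = ℓ g

/-- the associated bi-invariant (pseudo) distance -/
def dd {P : Type*} [Group P] (ℓ : P → ℝ) (a b : P) : ℝ := ℓ (a * b⁻¹)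

namespace InvLen

variable {P : Type*} [Group P] {ℓ : P → ℝ}

theorem nonneg (H : InvLen ℓ) (g : P) : 0 ≤ ℓ g := by
  have h := H.mul_le g g⁻¹
  rw [mul_inv_cancel, H.one, H.inv] at h
  linarith

theorem dd_nonneg (H : InvLen ℓ) (a b : P) : 0 ≤ dd ℓ a b := H.nonneg _

theorem dd_self (H : InvLen ℓ) (a : P) : dd ℓ a a = 0 := by
  unfold dd; rw [mul_inv_cancel, H.one]

theorem dd_comm (H : InvLen ℓ) (a b : P) : dd ℓ a b = dd ℓ b a := by
  unfold dd; rw [← H.inv]; congr 1; group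

theorem dd_tri (H : InvLen ℓ) (a b c : P) : dd ℓ a c ≤ dd ℓ a b + dd ℓ b c := by
  unfold dd
  have h := H.mul_le (a * b⁻¹) (b * c⁻¹)
  have e : a * b⁻¹ * (b * c⁻¹) = a * c⁻¹ := by group
  rwa [e] at h

theorem dd_mul (H : InvLen ℓ) (a a' b b' : P) :
    dd ℓ (a * a') (b * b') ≤ dd ℓ a b + dd ℓ a' b' := by
  unfold dd
  have h := H.mul_le (a * (a' * b'⁻¹) * a⁻¹) (a * b⁻¹)
  rw [H.conj] at h
  have e : a * (a' * b'⁻¹) * a⁻¹ * (a * b⁻¹) = a * a' * (b * b')⁻¹ := by group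
  rw [e] at h
  linarith

theorem dd_mul_left (H : InvLen ℓ) (c a b : P) : dd ℓ (c * a) (c * b) = dd ℓ a b := by
  unfold dd
  have e : c * a * (c * b)⁻¹ = c * (a * b⁻¹) * c⁻¹ := by group
  rw [e, H.conj]

theorem dd_mul_right (_H : InvLen ℓ) (c a b : P) : dd ℓ (a * c) (b * c) = dd ℓ a b := by
  unfold dd
  have e : a * c * (b * c)⁻¹ = a * b⁻¹ := by group
  rw [e]

theorem dd_inv (H : InvLen ℓ) (a b : P) : dd ℓ a⁻¹ b⁻¹ = dd ℓ a b := by
  have h1 : dd ℓ a⁻¹ b⁻¹ = dd ℓ (a * a⁻¹) (a * b⁻¹) := (H.dd_mul_left a _ _).symm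
  have h2 : dd ℓ (a * a⁻¹) (a * b⁻¹) = dd ℓ (a * a⁻¹ * b) (a * b⁻¹ * b) :=
    (H.dd_mul_right b _ _).symm
  rw [h1, h2]
  have e1 : a * a⁻¹ * b = b := by group
  have e2 : a * b⁻¹ * b = a := by group
  rw [e1, e2, H.dd_comm]

theorem dd_conj (H : InvLen ℓ) (c a b : P) :
    dd ℓ (c * a * c⁻¹) (c * b * c⁻¹) = dd ℓ a b := by
  rw [H.dd_mul_right, H.dd_mul_left]

end InvLen

section Free

variable {Z : Type*} [DecidableEq Z] {P : Type*} [Group P] {ℓ : P → ℝ}

theorem dd_list (H : InvLen ℓ) (f g : FreeGroup Z →* P) (e : ℝ)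
    (h : ∀ z, dd ℓ (f (FreeGroup.of z)) (g (FreeGroup.of z)) ≤ e) (L : List (Z × Bool)) :
    dd ℓ (f (FreeGroup.mk L)) (g (FreeGroup.mk L)) ≤ L.length * e := by
  induction L with
  | nil =>
    have : (FreeGroup.mk ([] : List (Z × Bool))) = 1 := rfl
    rw [this, map_one, map_one, H.dd_self]; simp
  | cons x L ih =>
    obtain ⟨z, b⟩ := x
    have e1 : (FreeGroup.mk ((z, b) :: L)) = FreeGroup.mk [(z, b)] * FreeGroup.mk L := by
      rw [FreeGroup.mul_mk]; rfl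
    rw [e1, map_mul, map_mul]
    have h2 : dd ℓ (f (FreeGroup.mk [(z, b)])) (g (FreeGroup.mk [(z, b)])) ≤ e := by
      cases b with
      | true => exact h z
      | false =>
        have : (FreeGroup.mk [(z, false)]) = (FreeGroup.of z)⁻¹ := rfl
        rw [this, map_inv, map_inv, H.dd_inv]; exact h z
    have h3 := H.dd_mul (f (FreeGroup.mk [(z, b)])) (f (FreeGroup.mk L))
      (g (FreeGroup.mk [(z, b)])) (g (FreeGroup.mk L))
    have h4 : (((z, b) :: L).length : ℝ) = (L.length : ℝ) + 1 := by simp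
    rw [h4]
    linarith

theorem dd_free (H : InvLen ℓ) (f g : FreeGroup Z →* P) (e : ℝ)
    (h : ∀ z, dd ℓ (f (FreeGroup.of z)) (g (FreeGroup.of z)) ≤ e) (w : FreeGroup Z) :
    dd ℓ (f w) (g w) ≤ w.norm * e := by
  have := dd_list H f g e h w.toWord
  rwa [FreeGroup.mk_toWord] at this

theorem dd_comm1 (H : InvLen ℓ) (f : FreeGroup Z →* P) (p : P) (e : ℝ)
    (h : ∀ z, dd ℓ (f (FreeGroup.of z) * p) (p * f (FreeGroup.of z)) ≤ e) (w : FreeGroup Z) :
    dd ℓ (f w * p) (p * f w) ≤ w.norm * e := by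
  have key : ∀ a : P, dd ℓ a (p * a * p⁻¹) = dd ℓ (a * p) (p * a) := by
    intro a
    rw [← H.dd_mul_right p]
    congr 1
    group
  have h2 := dd_free H f ((MulAut.conj p).toMonoidHom.comp f) e (fun z => by
    simp only [MonoidHom.comp_apply, MulEquiv.coe_toMonoidHom, MulAut.conj_apply]
    rw [key]; exact h z) w
  simp only [MonoidHom.comp_apply, MulEquiv.coe_toMonoidHom, MulAut.conj_apply] at h2
  rwa [key] at h2

theorem dd_comm2 (H : InvLen ℓ) (f g : FreeGroup Z →* P) (e : ℝ)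
    (h : ∀ z z', dd ℓ (f (FreeGroup.of z) * g (FreeGroup.of z'))
      (g (FreeGroup.of z') * f (FreeGroup.of z)) ≤ e) (u v : FreeGroup Z) :
    dd ℓ (f u * g v) (g v * f u) ≤ u.norm * (v.norm * e) := by
  apply dd_comm1 H f (g v)
  intro z
  rw [H.dd_comm]
  apply dd_comm1 H g (f (FreeGroup.of z))
  intro z'
  rw [H.dd_comm]
  exact h z z'

theorem norm_list (τ : FreeGroup Z →* FreeGroup Z) (c : ℕ)
    (h : ∀ z, (τ (FreeGroup.of z)).norm ≤ c) (L : List (Z × Bool)) :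
    (τ (FreeGroup.mk L)).norm ≤ c * L.length := by
  induction L with
  | nil =>
    have : (FreeGroup.mk ([] : List (Z × Bool))) = 1 := rfl
    rw [this, map_one]; simp
  | cons x L ih =>
    obtain ⟨z, b⟩ := x
    have e1 : (FreeGroup.mk ((z, b) :: L)) = FreeGroup.mk [(z, b)] * FreeGroup.mk L := by
      rw [FreeGroup.mul_mk]; rfl
    rw [e1, map_mul]
    have h2 : (τ (FreeGroup.mk [(z, b)])).norm ≤ c := by
      cases b with
      | true => exact h z
      | false =>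
        have : (FreeGroup.mk [(z, false)]) = (FreeGroup.of z)⁻¹ := rfl
        rw [this, map_inv, FreeGroup.norm_inv_eq]; exact h z
    have h3 := FreeGroup.norm_mul_le (τ (FreeGroup.mk [(z, b)])) (τ (FreeGroup.mk L))
    have h4 : ((z, b) :: L).length = L.length + 1 := by simp
    rw [h4]
    nlinarith

theorem norm_hom (τ : FreeGroup Z →* FreeGroup Z) (c : ℕ)
    (h : ∀ z, (τ (FreeGroup.of z)).norm ≤ c) (w : FreeGroup Z) :
    (τ w).norm ≤ c * w.norm := by
  have := norm_list τ c h w.toWord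
  rwa [FreeGroup.mk_toWord] at this

end Free

end Pool.Agent.H27R2.VP
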