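import Mathlib

set_option autoImplicit false
set_option linter.unusedSectionVars false

namespace Pool.Agent.H27R2.VP

open Finset

section Count

variable {I S Y : Type*} [Fintype I] [DecidableEq I] [Group S] [Fintype Y] [DecidableEq Y]
  [MulAction (I → S) Y]

open Classical in
/-- the orbit of `y` under the elements supported in `J` -/
noncomputable def Orb (S : Type*) [Group S] [MulAction (I → S) Y] (y : Y) (J : Finset I) :
    Finset Y :=
  univ.filter (fun z => ∃ f : I → S, (∀ i, i ∉ J → f i = 1) ∧ f • y = z)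

theorem mem_Orb {y z : Y} {J : Finset I} :
    z ∈ Orb S y J ↔ ∃ f : I → S, (∀ i, i ∉ J → f i = 1) ∧ f • y = z := by
  simp [Orb]

theorem Orb_mono {y : Y} {J K : Finset I} (h : J ⊆ K) : Orb S y J ⊆ Orb S y K := by
  intro z hz
  rw [mem_Orb] at hz ⊢
  obtain ⟨f, hf, e⟩ := hz
  exact ⟨f, fun i hi => hf i (fun hj => hi (h hj)), e⟩

theorem single_comm {J : Finset I} {i : I} (hi : i ∉ J) (a : S) (f : I → S)
    (hf : ∀ i, i ∉ J → f i = 1) : Pi.mulSingle i a * f = f * Pi.mulSingle i a := by
  funext j
  by_cases h : j = i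
  · subst h
    simp [hf j hi]
  · simp [Pi.mulSingle_eq_of_ne h]

theorem decomp {J : Finset I} {i : I} (f : I → S)
    (hf : ∀ j, j ∉ insert i J → f j = 1) :
    ∃ f' : I → S, (∀ j, j ∉ J → f' j = 1) ∧ f = Pi.mulSingle i (f i * (f' i)⁻¹) * f' := by
  by_cases hi : i ∈ J
  · refine ⟨f, fun j hj => hf j (by rw [insert_eq_of_mem hi]; exact hj), ?_⟩
    simp
  · refine ⟨Function.update f i 1, ?_, ?_⟩
    · intro j hj
      by_cases h : j = i
      · subst h; simp
      · rw [Function.update_of_ne h]; exact hf j (by simp [h, hj])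
    · funext j
      by_cases h : j = i
      · subst h; simp
      · simp [Pi.mulSingle_eq_of_ne h, Function.update_of_ne h]

theorem exists_small (y : Y) (J : Finset I) :
    ∃ N, N ⊆ J ∧ Orb S y N = Orb S y J ∧ 2 ^ N.card ≤ (Orb S y J).card := by
  classical
  induction J using Finset.induction_on with
  | empty =>
    refine ⟨∅, subset_rfl, rfl, ?_⟩
    simp only [card_empty, pow_zero]
    exact card_pos.2 ⟨y, mem_Orb.2 ⟨1, fun _ _ => rfl, one_smul _ _⟩⟩
  | insert i J hi ih =>
    obtain ⟨N, hN, hO, hc⟩ := ih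
    by_cases hcase : Orb S y (insert i J) = Orb S y J
    · exact ⟨N, hN.trans (subset_insert _ _), by rw [hcase, hO], by rw [hcase]; exact hc⟩
    · have hiN : i ∉ N := fun h => hi (hN h)
      refine ⟨insert i N, insert_subset_insert _ hN, ?_, ?_⟩
      · apply Subset.antisymm (Orb_mono (insert_subset_insert _ hN))
        intro z hz
        obtain ⟨f, hf, e⟩ := mem_Orb.1 hz
        obtain ⟨f', hf', e'⟩ := decomp f hf
        have h1 : f' • y ∈ Orb S y N := by
          rw [hO]; exact mem_Orb.2 ⟨f', hf', rfl⟩
        obtain ⟨g, hg, eg⟩ := mem_Orb.1 h1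
        refine mem_Orb.2 ⟨Pi.mulSingle i (f i * (f' i)⁻¹) * g, ?_, ?_⟩
        · intro j hj
          have hj1 : j ≠ i := fun h => hj (by simp [h])
          have hj2 : j ∉ N := fun h => hj (by simp [h])
          simp [Pi.mulSingle_eq_of_ne hj1, hg j hj2]
        · rw [mul_smul, eg, ← mul_smul, ← e', e]
      · rw [card_insert_of_notMem hiN, pow_succ]
        have hsub : Orb S y J ⊆ Orb S y (insert i J) := Orb_mono (subset_insert _ _)
        obtain ⟨z, hz, hzJ⟩ : ∃ z, z ∈ Orb S y (insert i J) ∧ z ∉ Orb S y J := by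
          by_contra hcon
          push Not at hcon
          exact hcase (Subset.antisymm hcon hsub)
        obtain ⟨f, hf, e⟩ := mem_Orb.1 hz
        obtain ⟨f', hf', e'⟩ := decomp f hf
        set a := f i * (f' i)⁻¹ with ha
        set s : I → S := Pi.mulSingle i a with hs
        have hsup : ∀ j, j ≠ i → s j = 1 := fun j hj => Pi.mulSingle_eq_of_ne hj _
        let O' := (Orb S y J).image (fun u => s • u)
        have hO'card : O'.card = (Orb S y J).card :=
          card_image_of_injective _ (MulAction.injective s)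
        have hO'sub : O' ⊆ Orb S y (insert i J) := by
          intro u hu
          obtain ⟨v, hv, rfl⟩ := mem_image.1 hu
          obtain ⟨g, hg, rfl⟩ := mem_Orb.1 hv
          refine mem_Orb.2 ⟨s * g, ?_, mul_smul _ _ _⟩
          intro j hj
          have hj1 : j ≠ i := fun h => hj (by simp [h])
          have hj2 : j ∉ J := fun h => hj (by simp [h])
          simp [hsup j hj1, hg j hj2]
        have hdisj : Disjoint O' (Orb S y J) := by
          rw [disjoint_left]
          intro u hu hu2
          obtain ⟨v, hv, rfl⟩ := mem_image.1 hu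
          obtain ⟨g, hg, rfl⟩ := mem_Orb.1 hv
          obtain ⟨h, hh, eh⟩ := mem_Orb.1 hu2
          apply hzJ
          refine mem_Orb.2 ⟨f' * g⁻¹ * h, ?_, ?_⟩
          · intro j hj
            simp [hf' j hj, hg j hj, hh j hj]
          · have c1 : s * (f' * g⁻¹) = f' * g⁻¹ * s := single_comm hi a (f' * g⁻¹) (by
              intro j hj; simp [hf' j hj, hg j hj])
            rw [mul_smul, eh, ← e, e']
            change (f' * g⁻¹) • (s • g • y) = (s * f') • y
            rw [← mul_smul, ← c1, ← mul_smul]
            congr 1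
            group
        have hun : (O' ∪ Orb S y J).card ≤ (Orb S y (insert i J)).card :=
          card_le_card (union_subset hO'sub hsub)
        rw [card_union_of_disjoint hdisj, hO'card] at hun
        omega

/-- a point of a finite `S^I`-set sees noncommutativity in few coordinates only -/
theorem count_noncomm (y : Y) (s t : S) [DecidableEq S] :
    (univ.filter (fun i : I => (Pi.mulSingle i (s * t) : I → S) • y ≠
      (Pi.mulSingle i (t * s) : I → S) • y)).card ≤ 2 * Nat.log 2 (Fintype.card Y) := by
  classical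
  obtain ⟨N, -, hO, hc⟩ := exists_small (S := S) y (univ : Finset I)
  obtain ⟨N', hN', hO', hc'⟩ := exists_small (S := S) y (univ \ N)
  have hl : N.card ≤ Nat.log 2 (Fintype.card Y) := by
    apply Nat.le_log_of_pow_le (by norm_num)
    exact hc.trans (card_le_univ _)
  have hl' : N'.card ≤ Nat.log 2 (Fintype.card Y) := by
    apply Nat.le_log_of_pow_le (by norm_num)
    exact hc'.trans (card_le_univ _)
  have hsub : univ.filter (fun i : I => (Pi.mulSingle i (s * t) : I → S) • y ≠
      (Pi.mulSingle i (t * s) : I → S) • y) ⊆ N ∪ N' := by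
    intro i hi
    rw [mem_filter] at hi
    by_contra hcon
    rw [mem_union, not_or] at hcon
    obtain ⟨hiN, hiN'⟩ := hcon
    apply hi.2
    have h1 : (Pi.mulSingle i s : I → S) • y ∈ Orb S y N := by
      rw [hO]; exact mem_Orb.2 ⟨_, fun j hj => absurd (mem_univ j) hj, rfl⟩
    have h2 : (Pi.mulSingle i t : I → S) • y ∈ Orb S y N' := by
      rw [hO']
      refine mem_Orb.2 ⟨_, fun j hj => ?_, rfl⟩
      have : j ∈ N := by simpa using hj
      have hji : j ≠ i := fun h => hiN (h ▸ this)
      exact Pi.mulSingle_eq_of_ne hji _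
    obtain ⟨f, hf, ef⟩ := mem_Orb.1 h1
    obtain ⟨g, hg, eg⟩ := mem_Orb.1 h2
    have c0 : f * g = g * f := by
      funext j
      by_cases hj : j ∈ N
      · have : j ∉ N' := fun h => (mem_sdiff.1 (hN' h)).2 hj
        simp [hg j this]
      · simp [hf j hj]
    have c1 := single_comm hiN' s g hg
    have c2 := single_comm hiN t f hf
    rw [Pi.mulSingle_mul, Pi.mulSingle_mul, mul_smul, mul_smul, ← eg, ← mul_smul, c1, mul_smul,
      ← ef, ← mul_smul, ← c0, mul_smul, eg, ← mul_smul, ← c2, mul_smul, ef]
  calc _ ≤ (N ∪ N').card := card_le_card hsub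
    _ ≤ N.card + N'.card := card_union_le _ _
    _ ≤ _ := by omega

end Count

end Pool.Agent.H27R2.VP
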