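import Pool.Agent.Helper283.ThV.CommV

set_option autoImplicit false
set_option linter.unusedSectionVars false

namespace Pool.Agent.H27R2.VP

open Pool.Agent.Helper283.ThV

/-- support of an element of `V` inside `A` -/
def Su (h : V) (A : Set C) : Prop := ∀ z, z ∉ A → h.1 z = z

theorem Su.mem {h : V} {A : Set C} (hs : Su h A) {z : C} (hz : z ∈ A) : h.1 z ∈ A := by
  by_contra hn
  have h1 := hs _ hn
  have h2 := h.1.injective h1
  rw [h2] at hn
  exact hn hz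

theorem Su.inv {h : V} {A : Set C} (hs : Su h A) : Su h⁻¹ A := by
  intro z hz
  have h1 := hs z hz
  change h.1.symm z = z
  rw [Equiv.symm_apply_eq]; exact h1.symm

theorem Su.mul {h k : V} {A : Set C} (hs : Su h A) (hk : Su k A) : Su (h * k) A := by
  intro z hz
  change h.1 (k.1 z) = z
  rw [hk z hz, hs z hz]

theorem comm_of_fix {c d : V} {A : Set C} (hc : ∀ z ∈ A, c.1 z = z) (hd : Su d A) :
    c * d = d * c := by
  apply Subtype.ext; apply Equiv.ext; intro z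
  change c.1 (d.1 z) = d.1 (c.1 z)
  by_cases hz : z ∈ A
  · rw [hc z hz, hc _ (hd.mem hz)]
  · have h1 : c.1 z ∉ A := by
      intro h
      have h2 := hc _ h
      have h3 := c.1.injective h2
      rw [h3] at h
      exact hz h
    rw [hd z hz, hd _ h1]

variable {N : Subgroup V} (hN : N.Normal)

include hN in
theorem double_comm {g : V} (hg : g ∈ N) {A : Set C} (hA : ∀ y ∈ A, g.1 y ∉ A) {a b : V}
    (ha : Su a A) (hb : Su b A) : a⁻¹ * b⁻¹ * a * b ∈ N := by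
  set c : V := g * a * g⁻¹ with hc
  have hcfix : ∀ z ∈ A, c.1 z = z := by
    intro z hz
    have h1 : g.1.symm z ∉ A := by
      intro h
      have := hA _ h
      rw [Equiv.apply_symm_apply] at this
      exact this hz
    change g.1 (a.1 (g.1.symm z)) = z
    rw [ha _ h1, Equiv.apply_symm_apply]
  have hd : Su (a⁻¹ * b⁻¹ * a) A := (ha.inv.mul hb.inv).mul ha
  have hcd := comm_of_fix hcfix hd
  have k1 : c * a⁻¹ ∈ N := by
    have : c * a⁻¹ = g * (a * g⁻¹ * a⁻¹) := by rw [hc]; group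
    rw [this]
    exact N.mul_mem hg (hN.conj_mem _ (N.inv_mem hg) a)
  have k2 : (c * a⁻¹) * (b⁻¹ * (c * a⁻¹)⁻¹ * b⁻¹⁻¹) ∈ N :=
    N.mul_mem k1 (hN.conj_mem _ (N.inv_mem k1) b⁻¹)
  have k3 : (c * a⁻¹) * (b⁻¹ * (c * a⁻¹)⁻¹ * b⁻¹⁻¹) = a⁻¹ * b⁻¹ * a * b := by
    calc (c * a⁻¹) * (b⁻¹ * (c * a⁻¹)⁻¹ * b⁻¹⁻¹)
        = (c * (a⁻¹ * b⁻¹ * a)) * c⁻¹ * b := by group
      _ = ((a⁻¹ * b⁻¹ * a) * c) * c⁻¹ * b := by rw [hcd]
      _ = _ := by group
  rw [k3] at k2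
  exact k2

include hN in
theorem in_cyl {g : V} (hg : g ∈ N) {A : Set C} (hA : ∀ y ∈ A, g.1 y ∉ A) {w : List Bool}
    (hw : cy w ⊆ A) {h : V} (hh : Su h (cy w)) : h ∈ N := by
  obtain ⟨Φ, f1, f2, f3, f4⟩ := exists_embed w
  obtain ⟨e, he, heh⟩ := f4 h.1 h.2 hh
  obtain ⟨a, ha, b, hb, hab⟩ := comm_V he
  have sa : Su (⟨Φ a, f3 a ha⟩ : V) A := fun z hz => f2 a z (fun h => hz (hw h))
  have sb : Su (⟨Φ b, f3 b hb⟩ : V) A := fun z hz => f2 b z (fun h => hz (hw h))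
  have := double_comm hN hg hA sa sb
  have e1 : h = (⟨Φ a, f3 a ha⟩ : V)⁻¹ * (⟨Φ b, f3 b hb⟩ : V)⁻¹ * ⟨Φ a, f3 a ha⟩ *
      ⟨Φ b, f3 b hb⟩ := by
    apply Subtype.ext
    change h.1 = (Φ a)⁻¹ * (Φ b)⁻¹ * Φ a * Φ b
    rw [← map_inv, ← map_inv, ← map_mul, ← map_mul, ← map_mul, ← hab, heh]
  rw [e1]; exact this

include hN in
theorem in_proper {g : V} (hg : g ∈ N) {A : Set C} (hA : ∀ y ∈ A, g.1 y ∉ A) {w : List Bool}
    (hw : cy w ⊆ A) {D : Set C} (hD : LC D) (hD' : Dᶜ.Nonempty) {h : V} (hh : Su h D) : h ∈ N := by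
  by_cases hne : D.Nonempty
  · have hwne : (cy w).Nonempty := ⟨app w (fun _ => false), _, rfl⟩
    have hwc : (cy w)ᶜ.Nonempty := by
      obtain ⟨z, hz⟩ := hwne
      refine ⟨g.1 z, fun hc => hA z (hw hz) (hw hc)⟩
    obtain ⟨e, he, heD⟩ := exists_map hD (LC_cy w) hne hwne hD' hwc
    let E : V := ⟨e, he⟩
    have hs : Su (E * h * E⁻¹) (cy w) := by
      intro z hz
      change e (h.1 (e.symm z)) = z
      have : e.symm z ∉ D := by
        intro hc
        apply hz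
        rw [← heD]
        exact ⟨e.symm z, hc, by simp⟩
      rw [hh _ this, Equiv.apply_symm_apply]
    have h1 := in_cyl hN hg hA hw hs
    have h2 := hN.conj_mem _ h1 E⁻¹
    have h3 : E⁻¹ * (E * h * E⁻¹) * E⁻¹⁻¹ = h := by group
    rw [h3] at h2
    exact h2
  · rw [Set.not_nonempty_iff_eq_empty] at hne
    subst hne
    have : h = 1 := by
      apply Subtype.ext; apply Equiv.ext; intro z
      exact hh z (by simp)
    rw [this]; exact N.one_mem

include hN in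
/-- `V` is simple -/
theorem eq_top_of_mem {g : V} (hg : g ∈ N) (h1 : g ≠ 1) : N = ⊤ := by
  obtain ⟨x, hx⟩ : ∃ x, g.1 x ≠ x := by
    by_contra hcon
    push Not at hcon
    apply h1
    apply Subtype.ext; apply Equiv.ext; intro z
    exact hcon z
  obtain ⟨A, lA, nA, nA', hA⟩ := exists_clopen7366 g.2 hx
  obtain ⟨x0, hx0⟩ := nA
  obtain ⟨n0, hn0⟩ := lA x0
  have hw : cy (tk n0 x0) ⊆ A := by
    rintro y ⟨z, rfl⟩
    exact (hn0 _ (mem_Cyl_iff.2 ⟨z, rfl⟩)).2 hx0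
  rw [eq_top_iff]
  intro h _
  -- decompose h
  let p : C := fun _ => false
  obtain ⟨n1, hn1⟩ := (h.2 p).cont 2
  let D2 : Set C := Cyl p (max n1 2)
  have lD2 : LC D2 := LC_Cyl _ _
  have lE : LC (h.1 '' D2) := lD2.image h.2
  have hE2 : ∀ y ∈ h.1 '' D2, y ∈ Cyl (h.1 p) 2 := by
    rintro y ⟨z, hz, rfl⟩
    exact hn1 z (Cyl_mono (le_max_left _ _) hz)
  have hD22 : ∀ y ∈ D2, y ∈ Cyl p 2 := fun y hy => Cyl_mono (le_max_right _ _) hy
  have hne : (D2 ∪ h.1 '' D2)ᶜ.Nonempty := by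
    refine ⟨fun i => if i = 0 then !(p 0) else !((h.1 p) 1), ?_⟩
    rintro (hc | hc)
    · have := hD22 _ hc 0 (by norm_num)
      simp at this
    · have := hE2 _ hc 1 (by norm_num)
      simp at this
  obtain ⟨D1, D1', l1, l1', ne1, ne1', dis, hun⟩ := exists_split (lD2.union lE).compl hne
  have hD1 : D1 ⊆ (D2 ∪ h.1 '' D2)ᶜ := by rw [← hun]; exact Set.subset_union_left
  have hD1' : D1' ⊆ (D2 ∪ h.1 '' D2)ᶜ := by rw [← hun]; exact Set.subset_union_right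
  -- identity on D1, h on D2, anything else elsewhere
  have P1 : Pc (fun x => x) D1 D1 := Pc_self l1
  have P2 : Pc h.1 D2 (h.1 '' D2) := Pc.ofV h.2 lD2
  have d12 : Disjoint D1 D2 := by
    rw [Set.disjoint_left]; intro z hz hz2
    exact hD1 hz (Or.inl hz2)
  have d12' : Disjoint D1 (h.1 '' D2) := by
    rw [Set.disjoint_left]; intro z hz hz2
    exact hD1 hz (Or.inr hz2)
  obtain ⟨F, hF, F1, F2⟩ := P1.union P2 d12 d12'
  have r1 : (D1 ∪ D2)ᶜ.Nonempty := by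
    obtain ⟨z, hz⟩ := ne1'
    refine ⟨z, ?_⟩
    rintro (hc | hc)
    · exact Set.disjoint_left.1 dis hc hz
    · exact hD1' hz (Or.inl hc)
  have r2 : (D1 ∪ h.1 '' D2)ᶜ.Nonempty := by
    obtain ⟨z, hz⟩ := ne1'
    refine ⟨z, ?_⟩
    rintro (hc | hc)
    · exact Set.disjoint_left.1 dis hc hz
    · exact hD1' hz (Or.inr hc)
  obtain ⟨F', hF'⟩ := exists_Pc (l1.union lD2).compl (l1.union lE).compl r1 r2
  obtain ⟨K, hK, K1, K2⟩ := hF.union hF' disjoint_compl_right disjoint_compl_right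
  rw [Set.union_compl_self, Set.union_compl_self] at hK
  obtain ⟨k, hk, hkK⟩ := hK.toV
  let κ : V := ⟨k, hk⟩
  have s1 : Su κ D1ᶜ := by
    intro z hz
    have hz' : z ∈ D1 := by simpa using hz
    change k z = z
    rw [hkK, K1 z (Or.inl hz'), F1 z hz']
  have s2 : Su (κ⁻¹ * h) D2ᶜ := by
    intro z hz
    have hz' : z ∈ D2 := by simpa using hz
    change k.symm (h.1 z) = z
    rw [Equiv.symm_apply_eq, hkK, K1 z (Or.inr hz'), F2 z hz']
  have m1 := in_proper hN hg hA hw l1.compl (by rw [compl_compl]; exact ne1) s1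
  have m2 := in_proper hN hg hA hw lD2.compl (by
    rw [compl_compl]; exact ⟨p, mem_Cyl_self _ _⟩) s2
  have : h = κ * (κ⁻¹ * h) := by group
  rw [this]
  exact N.mul_mem m1 m2

end Pool.Agent.H27R2.VP
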