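import Pool.Agent.H27R2.VP.Abstract

set_option autoImplicit false
set_option linter.unusedSectionVars false

namespace Pool.Agent.H27R2.VP

theorem InvLen.le_add {P : Type*} [Group P] {ℓ : P → ℝ} (H : InvLen ℓ) (a b : P) :
    ℓ b ≤ ℓ a + dd ℓ a b := by
  unfold dd
  have h := H.mul_le (a * b⁻¹)⁻¹ a
  rw [H.inv] at h
  have e : (a * b⁻¹)⁻¹ * a = b := by group
  rw [e] at h
  linarith

variable {G : Type*} [Group G] [DecidableEq G]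

/-- the length of `φ w` is controlled by the length of `φ g0` -/
def Q (g0 w : G) : Prop := ∃ E : Finset G, ∃ R C : ℝ, 0 ≤ R ∧ 0 ≤ C ∧
  ∀ (P : Type) [Group P] (ℓ : P → ℝ) (φ : G → P) (ε : ℝ), InvLen ℓ → 0 ≤ ε →
    Near ℓ φ E ε → ℓ (φ w) ≤ R * ℓ (φ g0) + C * ε

theorem Q_one (g0 : G) : Q g0 1 := by
  refine ⟨{1}, 0, 1, le_rfl, zero_le_one, ?_⟩
  intro P _ ℓ φ ε H hε hN
  have h := hN 1 (by simp) 1 (by simp)
  rw [mul_one] at h
  have h2 := H.dd_mul_right (φ 1) (φ 1) 1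
  rw [one_mul] at h2
  rw [h2] at h
  have h3 := H.le_add 1 (φ 1)
  rw [H.one, H.dd_comm] at h3
  linarith

theorem Q_self (g0 : G) : Q g0 g0 := by
  refine ⟨∅, 1, 0, zero_le_one, le_rfl, ?_⟩
  intro P _ ℓ φ ε H hε hN
  linarith

theorem Q_mul {g0 w v : G} (hw : Q g0 w) (hv : Q g0 v) : Q g0 (w * v) := by
  obtain ⟨E1, R1, C1, hR1, hC1, H1⟩ := hw
  obtain ⟨E2, R2, C2, hR2, hC2, H2⟩ := hv
  refine ⟨E1 ∪ E2 ∪ {w, v}, R1 + R2, C1 + C2 + 1, by linarith, by linarith, ?_⟩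
  intro P _ ℓ φ ε H hε hN
  have a1 := H1 P ℓ φ ε H hε (hN.mono (by intro g hg; simp [hg]))
  have a2 := H2 P ℓ φ ε H hε (hN.mono (by intro g hg; simp [hg]))
  have a3 := hN w (by simp) v (by simp)
  have a4 := H.le_add (φ w * φ v) (φ (w * v))
  have a5 := H.mul_le (φ w) (φ v)
  linarith

theorem Q_inv {g0 w : G} (hw : Q g0 w) : Q g0 w⁻¹ := by
  obtain ⟨E1, R1, C1, hR1, hC1, H1⟩ := hw
  refine ⟨E1 ∪ {w, w⁻¹, 1}, R1, C1 + 2, hR1, by linarith, ?_⟩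
  intro P _ ℓ φ ε H hε hN
  have a1 := H1 P ℓ φ ε H hε (hN.mono (by intro g hg; simp [hg]))
  have a2 := hN w (by simp) w⁻¹ (by simp)
  rw [mul_inv_cancel] at a2
  have h := hN 1 (by simp) 1 (by simp)
  rw [mul_one] at h
  have h2 := H.dd_mul_right (φ 1) (φ 1) 1
  rw [one_mul] at h2
  rw [h2] at h
  have a3 := H.dd_tri (φ w * φ w⁻¹) (φ 1) 1
  have a4 : dd ℓ (φ w * φ w⁻¹) 1 = dd ℓ (φ w⁻¹) (φ w)⁻¹ := by
    rw [← H.dd_mul_left (φ w) (φ w⁻¹) (φ w)⁻¹, mul_inv_cancel]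
  have a5 := H.le_add (φ w)⁻¹ (φ w⁻¹)
  rw [H.inv, H.dd_comm] at a5
  linarith

theorem Q_conj {g0 w : G} (hw : Q g0 w) (g : G) : Q g0 (g * w * g⁻¹) := by
  obtain ⟨E1, R1, C1, hR1, hC1, H1⟩ := hw
  refine ⟨E1 ∪ {g, w, g * w * g⁻¹}, R1, C1 + 2, hR1, by linarith, ?_⟩
  intro P _ ℓ φ ε H hε hN
  have a1 := H1 P ℓ φ ε H hε (hN.mono (by intro g hg; simp [hg]))
  have a2 := hN g (by simp) w (by simp)
  have a3 := hN (g * w * g⁻¹) (by simp) g (by simp)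
  have e1 : g * w * g⁻¹ * g = g * w := by group
  rw [e1, H.dd_comm] at a3
  have a4 := H.dd_tri (φ g * φ w) (φ (g * w)) (φ (g * w * g⁻¹) * φ g)
  have a5 : dd ℓ (φ g * φ w) (φ (g * w * g⁻¹) * φ g) =
      dd ℓ (φ g * φ w * (φ g)⁻¹) (φ (g * w * g⁻¹)) := by
    rw [← H.dd_mul_right (φ g) (φ g * φ w * (φ g)⁻¹)]
    congr 1
    group
  have a6 := H.le_add (φ g * φ w * (φ g)⁻¹) (φ (g * w * g⁻¹))
  rw [H.conj] at a6
  linarith

/-- the elements controlled by `g0` form a normal subgroup -/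
def QS (g0 : G) : Subgroup G where
  carrier := {w | Q g0 w}
  mul_mem' := fun ha hb => Q_mul ha hb
  one_mem' := Q_one g0
  inv_mem' := fun ha => Q_inv ha

theorem QS_normal (g0 : G) : (QS g0).Normal := ⟨fun _ h g => Q_conj h g⟩

theorem mem_QS (g0 : G) : g0 ∈ QS g0 := Q_self g0

end Pool.Agent.H27R2.VP
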