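import Pool.Agent.H27R2.VP.Abstract
import Pool.Agent.Helper283.ThV.Base

set_option autoImplicit false
set_option linter.unusedSectionVars false

namespace Pool.Agent.H27R2.VP

open Pool.Agent.Helper283.ThV

/-- put a letter in front -/
def cn (b : Bool) (y : C) : C := fun i => Nat.casesOn i b y

@[simp] theorem cn_zero (b : Bool) (y : C) : cn b y 0 = b := rfl
@[simp] theorem cn_succ (b : Bool) (y : C) (i : ℕ) : cn b y (i + 1) = y i := rfl
@[simp] theorem cn_one (b : Bool) (y : C) : cn b y 1 = y 0 := rfl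

@[simp] theorem sh_one_cn (b : Bool) (y : C) : sh 1 (cn b y) = y := by
  funext i; simp [sh]

@[simp] theorem sh_two_cn (b : Bool) (y : C) : sh 2 (cn b y) = sh 1 y := by
  funext i; simp only [sh]; rfl

theorem cn_sh (x : C) : cn (x 0) (sh 1 x) = x := by
  funext i; cases i <;> simp [sh]

theorem cn_sh' (x : C) {b : Bool} (h : x 0 = b) : cn b (sh 1 x) = x := by
  rw [← h, cn_sh]

theorem cn_cn_sh (x : C) {a b : Bool} (h : x 0 = a) (h' : x 1 = b) :
    cn a (cn b (sh 2 x)) = x := by
  funext i
  match i with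
  | 0 => simp [h]
  | 1 => simp [h']
  | i + 2 => simp [sh]

theorem cn_eq_app (b : Bool) (y : C) : cn b y = app [b] y := by
  funext i
  cases i with
  | zero => rfl
  | succ i => rw [app_ge (by simp)]; simp

theorem LocAt_cn (b : Bool) (x : C) : LocAt (cn b) x :=
  (LocAt_app [b] x).congr 0 (fun y _ => (cn_eq_app b y).symm)

/-- a function given by a formula depending on the first two letters only -/
theorem Loc_two {f : C → C} (g : Bool → Bool → C → C) (hg : ∀ a b, Loc (g a b))
    (hf : ∀ x, f x = g (x 0) (x 1) x) : Loc f := by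
  intro x
  refine (hg (x 0) (x 1) x).congr 2 (fun y hy => ?_)
  rw [hf y, hy 0 (by norm_num), hy 1 (by norm_num)]

/-! ### acting on one half -/

/-- `e` acting on the half `b` -/
def iF (b : Bool) (e : C → C) (x : C) : C := if x 0 = b then cn b (e (sh 1 x)) else x

theorem iF_cn (b : Bool) (e : C → C) (y : C) : iF b e (cn b y) = cn b (e y) := by
  simp [iF]

theorem iF_of_ne {b : Bool} (e : C → C) {x : C} (h : x 0 ≠ b) : iF b e x = x := by
  simp [iF, h]

theorem iF_comp (b : Bool) (e f : C → C) (x : C) : iF b e (iF b f x) = iF b (e ∘ f) x := by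
  by_cases h : x 0 = b
  · rw [← cn_sh' x h, iF_cn, iF_cn, iF_cn]; rfl
  · rw [iF_of_ne f h, iF_of_ne e h, iF_of_ne _ h]

theorem iF_id (b : Bool) (x : C) : iF b id x = x := by
  by_cases h : x 0 = b
  · conv_lhs => rw [← cn_sh' x h]
    rw [iF_cn]; exact cn_sh' x h
  · exact iF_of_ne _ h

def iP (b : Bool) (e : Equiv.Perm C) : Equiv.Perm C where
  toFun := iF b e
  invFun := iF b e.symm
  left_inv x := by
    rw [iF_comp]
    have : (e.symm ∘ e : C → C) = id := by funext y; simp
    rw [this, iF_id]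
  right_inv x := by
    rw [iF_comp]
    have : (e ∘ e.symm : C → C) = id := by funext y; simp
    rw [this, iF_id]

@[simp] theorem iP_apply (b : Bool) (e : Equiv.Perm C) (x : C) : iP b e x = iF b e x := rfl

theorem iP_mem {b : Bool} {e : Equiv.Perm C} (he : e ∈ V) : iP b e ∈ V := by
  intro x
  by_cases h : x 0 = b
  · have h1 : LocAt (fun y => cn b (e (sh 1 y))) x :=
      ((LocAt_sh 1 x).comp (h := e) (he _)).comp (LocAt_cn b _)
    refine h1.congr 1 (fun y hy => ?_)
    have : y 0 = b := by rw [hy 0 (by norm_num), h]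
    simp [iF, this]
  · refine (LocAt_id x).congr 1 (fun y hy => ?_)
    have : y 0 ≠ b := by rw [hy 0 (by norm_num)]; exact h
    simp [iF, this]

def iV (b : Bool) : V →* V where
  toFun e := ⟨iP b e.1, iP_mem e.2⟩
  map_one' := by
    apply Subtype.ext; apply Equiv.ext; intro x
    exact iF_id b x
  map_mul' e f := by
    apply Subtype.ext; apply Equiv.ext; intro x
    exact (iF_comp b e.1 f.1 x).symm

theorem iV_apply (b : Bool) (e : V) (x : C) : (iV b e).1 x = iF b e.1 x := rfl

theorem iV_comm (u v : V) : iV false u * iV true v = iV true v * iV false u := by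
  apply Subtype.ext; apply Equiv.ext; intro x
  change iF false u.1 (iF true v.1 x) = iF true v.1 (iF false u.1 x)
  rcases hx : x 0 with _ | _
  · rw [← cn_sh' x hx, iF_cn, iF_of_ne v.1 (by simp), iF_cn, iF_of_ne v.1 (by simp)]
  · rw [← cn_sh' x hx, iF_cn, iF_of_ne u.1 (by simp), iF_of_ne u.1 (by simp), iF_cn]

theorem iV_injective (b : Bool) : Function.Injective (iV b) := by
  intro e f h
  apply Subtype.ext; apply Equiv.ext; intro x
  have h1 : (iV b e).1 (cn b x) = (iV b f).1 (cn b x) := by rw [h]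
  rw [iV_apply, iV_apply, iF_cn, iF_cn] at h1
  have := congrArg (sh 1) h1
  simpa using this

/-! ### the conjugators -/

def lF (i j : Bool) (x : C) : C :=
  if x 0 = j then cn i x else if x 1 = false then cn (!i) (sh 2 x) else cn i (cn (!j) (sh 2 x))

def lG (i j : Bool) (z : C) : C :=
  if z 0 = i then (if z 1 = j then sh 1 z else cn (!j) (cn true (sh 2 z)))
  else cn (!j) (cn false (sh 1 z))

theorem not_of_ne {a b : Bool} (h : a ≠ b) : a = !b := by cases a <;> cases b <;> simp_all

theorem lG_lF (i j : Bool) (x : C) : lG i j (lF i j x) = x := by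
  unfold lF
  split_ifs with h1 h2
  · simp [lG, h1]
  · have : (!i) ≠ i := by cases i <;> simp
    simp only [lG, cn_zero, this, if_false, sh_one_cn]
    exact cn_cn_sh x (not_of_ne h1) h2
  · have h3 : (!j) ≠ j := by cases j <;> simp
    simp only [lG, cn_zero, cn_one, h3, if_true, if_false, sh_two_cn, sh_one_cn]
    exact cn_cn_sh x (not_of_ne h1) (by simpa using h2)

theorem lF_lG (i j : Bool) (z : C) : lF i j (lG i j z) = z := by
  unfold lG
  split_ifs with h1 h2
  · have : (sh 1 z) 0 = j := h2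
    simp only [lF, this, if_true]
    exact cn_sh' z h1
  · have h3 : (!j) ≠ j := by cases j <;> simp
    simp only [lF, cn_zero, cn_one, h3, if_false, sh_two_cn, sh_one_cn]
    simp only [Bool.true_eq_false, if_false]
    exact cn_cn_sh z h1 (not_of_ne h2)
  · have h3 : (!j) ≠ j := by cases j <;> simp
    simp only [lF, cn_zero, cn_one, h3, if_false, if_true, sh_two_cn, sh_one_cn]
    exact cn_sh' z (not_of_ne h1)

def lP (i j : Bool) : Equiv.Perm C := ⟨lF i j, lG i j, lG_lF i j, lF_lG i j⟩

theorem lP_mem (i j : Bool) : lP i j ∈ V := by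
  refine Loc_two (fun a b x => if a = j then cn i x else if b = false then cn (!i) (sh 2 x)
    else cn i (cn (!j) (sh 2 x))) (fun a b => ?_) (fun x => rfl)
  intro x
  by_cases h1 : a = j
  · simp only [h1, if_true]; exact LocAt_cn i x
  · by_cases h2 : b = false
    · simp only [h1, h2, if_true, if_false]
      exact (LocAt_sh 2 x).comp (LocAt_cn _ _)
    · simp only [h1, h2, if_false]
      exact ((LocAt_sh 2 x).comp (LocAt_cn _ _)).comp (LocAt_cn _ _)

def lV (i j : Bool) : V := ⟨lP i j, lP_mem i j⟩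

theorem lV_conj (i j : Bool) (v : V) :
    iV i (iV j v) = lV i j * iV j v * (lV i j)⁻¹ := by
  rw [eq_mul_inv_iff_mul_eq]
  apply Subtype.ext; apply Equiv.ext; intro x
  change iF i (iF j v.1) (lF i j x) = lF i j (iF j v.1 x)
  by_cases h1 : x 0 = j
  · have e1 : lF i j x = cn i x := by simp [lF, h1]
    have e2 : iF j v.1 x = cn j (v.1 (sh 1 x)) := by simp [iF, h1]
    have e3 : lF i j (cn j (v.1 (sh 1 x))) = cn i (cn j (v.1 (sh 1 x))) := by simp [lF]
    rw [e1, iF_cn, e2, e3]
  · rw [iF_of_ne v.1 h1]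
    by_cases h2 : x 1 = false
    · have e1 : lF i j x = cn (!i) (sh 2 x) := by simp [lF, h1, h2]
      rw [e1, iF_of_ne]
      cases i <;> simp
    · have e1 : lF i j x = cn i (cn (!j) (sh 2 x)) := by simp [lF, h1, h2]
      rw [e1, iF_cn, iF_of_ne]
      cases j <;> simp

/-! ### the flip -/

def tF (x : C) : C := cn (!(x 0)) (sh 1 x)

theorem tF_tF (x : C) : tF (tF x) = x := by
  simp [tF, cn_sh]

def tP : Equiv.Perm C := ⟨tF, tF, tF_tF, tF_tF⟩

theorem tP_mem : tP ∈ V := by
  refine Loc_two (fun a _ x => cn (!a) (sh 1 x)) (fun a b x => ?_) (fun x => rfl)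
  exact (LocAt_sh 1 x).comp (LocAt_cn _ _)

def tV : V := ⟨tP, tP_mem⟩

theorem tV_conj (v : V) : iV true v = tV * iV false v * tV⁻¹ := by
  rw [eq_mul_inv_iff_mul_eq]
  apply Subtype.ext; apply Equiv.ext; intro x
  change iF true v.1 (tF x) = tF (iF false v.1 x)
  rcases hx : x 0 with _ | _
  · have e1 : tF x = cn true (sh 1 x) := by simp [tF, hx]
    have e2 : iF false v.1 x = cn false (v.1 (sh 1 x)) := by simp [iF, hx]
    rw [e1, iF_cn, e2]; simp [tF]
  · have e1 : tF x = cn false (sh 1 x) := by simp [tF, hx]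
    rw [e1, iF_of_ne v.1 (by simp), iF_of_ne v.1 (by simp [hx]), e1]

/-! ### the symmetric group on the four quarters -/

/-- the permutations of the four words of length two -/
abbrev S4 := Equiv.Perm (Bool × Bool)

def sF (σ : S4) (x : C) : C := cn (σ (x 0, x 1)).1 (cn (σ (x 0, x 1)).2 (sh 2 x))

theorem sF_mul (σ τ : S4) (x : C) : sF (σ * τ) x = sF σ (sF τ x) := by
  simp [sF]

theorem sF_one (x : C) : sF 1 x = x := by
  simp only [sF, Equiv.Perm.one_apply]
  exact cn_cn_sh x rfl rfl

def sP (σ : S4) : Equiv.Perm C where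
  toFun := sF σ
  invFun := sF σ⁻¹
  left_inv x := by rw [← sF_mul, inv_mul_cancel, sF_one]
  right_inv x := by rw [← sF_mul, mul_inv_cancel, sF_one]

theorem sP_mem (σ : S4) : sP σ ∈ V := by
  refine Loc_two (fun a b x => cn (σ (a, b)).1 (cn (σ (a, b)).2 (sh 2 x))) (fun a b x => ?_)
    (fun x => rfl)
  exact ((LocAt_sh 2 x).comp (LocAt_cn _ _)).comp (LocAt_cn _ _)

def sV : S4 →* V where
  toFun σ := ⟨sP σ, sP_mem σ⟩
  map_one' := by
    apply Subtype.ext; apply Equiv.ext; intro x
    exact sF_one x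
  map_mul' σ τ := by
    apply Subtype.ext; apply Equiv.ext; intro x
    exact sF_mul σ τ x

theorem sV_injective : Function.Injective sV := by
  intro σ τ h
  apply Equiv.ext
  rintro ⟨a, b⟩
  have h1 : (sV σ).1 (cn a (cn b (fun _ => false))) = (sV τ).1 (cn a (cn b (fun _ => false))) := by
    rw [h]
  change sF σ _ = sF τ _ at h1
  have h2 := congrFun h1 0
  have h3 := congrFun h1 1
  simp only [sF, cn_zero, cn_one] at h2 h3
  exact Prod.ext h2 h3

/-- the data for Thompson's group `V` -/
def dataV : Data V S4 where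
  ι := iV
  lam := lV
  θ := tV
  jS := sV
  comm := iV_comm
  conj := lV_conj
  th := tV_conj

def s1 : S4 := Equiv.swap (false, false) (false, true)
def s2 : S4 := Equiv.swap (false, true) (true, false)

theorem s1s2 : s1 * s2 ≠ s2 * s1 := by decide

theorem w0_ne : dataV.w0 s1 s2 ≠ 1 := by
  intro h
  have h1 : iV false (sV (s1 * s2 * (s2 * s1)⁻¹)) = iV false (sV 1) := by
    rw [map_one, map_one]; exact h
  have h2 := sV_injective (iV_injective false h1)
  exact s1s2 (mul_inv_eq_one.1 h2)

end Pool.Agent.H27R2.VP
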