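import Pool.Agent.H27R2.VP.Sofic
import Pool.Agent.H27R2.VP.Spread
import Pool.Agent.H27R2.VP.TV
import Pool.Agent.H27R2.VP.Simple

set_option autoImplicit false
set_option linter.unusedSectionVars false

namespace Pool.Agent.H27R2.VP

open Finset Pool.Agent.Helper283.ThV

open Classical in
theorem Q_all (w : V) : Q (dataV.w0 s1 s2) w := by
  have h := eq_top_of_mem (QS_normal (dataV.w0 s1 s2)) (mem_QS _) w0_ne
  have h2 : w ∈ QS (dataV.w0 s1 s2) := by rw [h]; trivial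
  exact h2

theorem two_le_of_moved {n : ℕ} {σ : Equiv.Perm (Fin n)} {ρ : ℝ} (hρ : 0 < ρ) (hn : 0 < n)
    (h : ρ * n ≤ ((univ.filter (fun x => σ x ≠ x)).card : ℝ)) : 2 ≤ n := by
  by_contra hcon
  have h1 : n = 1 := by omega
  subst h1
  have : (univ.filter (fun x => σ x ≠ x)) = ∅ := by
    rw [filter_eq_empty_iff]
    intro x _ hx
    exact hx (Subsingleton.elim _ _)
  rw [this] at h
  simp at h
  linarith

open Classical in
theorem finalV (w : V) : ∃ E : Finset V, ∀ ρ : ℝ, 0 < ρ → ∃ c : ℝ, 0 < c ∧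
    ∀ (n : ℕ) (ε : ℝ) (φ : V → Equiv.Perm (Fin n)), 0 < n → 0 < ε →
      (∀ g ∈ E, ∀ h ∈ E,
        ((univ.filter (fun x => φ g (φ h x) ≠ φ (g * h) x)).card : ℝ) ≤ ε * n) →
      ρ * n ≤ ((univ.filter (fun x => φ w x ≠ x)).card : ℝ) →
      Real.exp (c * ε ^ (-(1 / 6) : ℝ)) ≤ n := by
  obtain ⟨E1, H1⟩ := sofic_bound dataV s1 s2
  obtain ⟨E2, R, C, hR, hC, H2⟩ := Q_all w
  refine ⟨E1 ∪ E2, fun ρ hρ => ?_⟩
  obtain ⟨c1, hc1, H3⟩ := H1 (ρ / (2 * (R + 1))) (by positivity)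
  -- threshold for ε
  set B : ℝ := 2 * (C + 1) / ρ with hB
  have hBpos : 0 < B := by positivity
  have hlog2 : 0 < Real.log 2 := Real.log_pos (by norm_num)
  set c2 : ℝ := Real.log 2 * B ^ (-(1 / 6) : ℝ) with hc2
  have hc2p : 0 < c2 := by
    have := Real.rpow_pos_of_pos hBpos (-(1 / 6) : ℝ)
    positivity
  refine ⟨min c1 c2, lt_min hc1 hc2p, ?_⟩
  intro n ε φ hn hε hE hmv
  have hn' : (0 : ℝ) < n := by exact_mod_cast hn
  have hn2 := two_le_of_moved hρ hn hmv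
  have hn2' : (2 : ℝ) ≤ n := by exact_mod_cast hn2
  have hεp : 0 < ε ^ (-(1 / 6) : ℝ) := Real.rpow_pos_of_pos hε _
  have hN : Near mv φ (E1 ∪ E2) (ε * n) := by
    intro g hg h hh
    rw [dd_mv]
    exact hE g hg h hh
  have hq := H2 _ mv φ (ε * n) invLen_mv (by positivity) (hN.mono subset_union_right)
  by_cases hcase : B * ε ≤ 1
  · have h1 : (C + 1) * ε ≤ ρ / 2 := by
      have : B * ε = (2 * ((C + 1) * ε)) / ρ := by rw [hB]; ring
      rw [this, div_le_one hρ] at hcase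
      linarith
    have h2 : ρ / (2 * (R + 1)) * n ≤ ((univ.filter (fun x => φ (dataV.w0 s1 s2) x ≠ x)).card : ℝ) := by
      have e1 : mv (φ w) = ((univ.filter (fun x => φ w x ≠ x)).card : ℝ) := rfl
      have e2 : mv (φ (dataV.w0 s1 s2)) =
        ((univ.filter (fun x => φ (dataV.w0 s1 s2) x ≠ x)).card : ℝ) := rfl
      rw [← e1] at hmv
      rw [← e2]
      have e3 : 0 ≤ mv (φ (dataV.w0 s1 s2)) := invLen_mv.nonneg _
      have e4 : ρ / 2 * n ≤ (R + 1) * mv (φ (dataV.w0 s1 s2)) := by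
        have : C * (ε * n) ≤ ρ / 2 * n := by
          have : C * ε ≤ ρ / 2 := by nlinarith
          nlinarith
        nlinarith
      have e5 : ρ / (2 * (R + 1)) * n = (ρ / 2 * n) / (R + 1) := by field_simp
      rw [e5, div_le_iff₀ (by positivity)]
      linarith
    have h3 := H3 n ε φ hn hε (fun g hg h hh => hE g (mem_union_left _ hg) h (mem_union_left _ hh)) h2
    refine le_trans ?_ h3
    apply Real.exp_le_exp.2
    gcongr
    exact min_le_left _ _
  · push Not at hcase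
    rw [← Real.le_log_iff_exp_le hn']
    have g1 : B ^ (-(1 / 6) : ℝ) * ε ^ (-(1 / 6) : ℝ) ≤ 1 := by
      rw [← Real.mul_rpow hBpos.le hε.le]
      exact Real.rpow_le_one_of_one_le_of_nonpos hcase.le (by norm_num)
    calc min c1 c2 * ε ^ (-(1 / 6) : ℝ) ≤ c2 * ε ^ (-(1 / 6) : ℝ) := by
          gcongr; exact min_le_right _ _
      _ = Real.log 2 * (B ^ (-(1 / 6) : ℝ) * ε ^ (-(1 / 6) : ℝ)) := by rw [hc2]; ring
      _ ≤ Real.log 2 * 1 := by gcongr
      _ ≤ Real.log n := by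
        rw [mul_one]; exact Real.log_le_log (by norm_num) hn2'

end Pool.Agent.H27R2.VP
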