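import Mathlib

set_option autoImplicit false
set_option linter.unusedSectionVars false

namespace Pool.Agent.H27R2.VP.HL

open Finset

/-! ### Heisenberg groups -/

@[ext] structure Heis (R : Type*) where
  x : R
  y : R
  z : R

namespace Heis

variable {R : Type*}

def eqv (R : Type*) : Heis R ≃ R × R × R where
  toFun g := (g.x, g.y, g.z)
  invFun p := ⟨p.1, p.2.1, p.2.2⟩
  left_inv _ := rfl
  right_inv _ := rfl

instance [DecidableEq R] : DecidableEq (Heis R) := (eqv R).decidableEq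

instance [Fintype R] [DecidableEq R] : Fintype (Heis R) := Fintype.ofEquiv _ (eqv R).symm

instance [CommRing R] : Mul (Heis R) := ⟨fun g h => ⟨g.x + h.x, g.y + h.y, g.z + h.z + g.y * h.x⟩⟩
instance [CommRing R] : One (Heis R) := ⟨⟨0, 0, 0⟩⟩
instance [CommRing R] : Inv (Heis R) := ⟨fun g => ⟨-g.x, -g.y, -g.z + g.y * g.x⟩⟩

variable [CommRing R]

@[simp] theorem mul_x (g h : Heis R) : (g * h).x = g.x + h.x := rfl
@[simp] theorem mul_y (g h : Heis R) : (g * h).y = g.y + h.y := rfl
@[simp] theorem mul_z (g h : Heis R) : (g * h).z = g.z + h.z + g.y * h.x := rfl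
@[simp] theorem one_x : (1 : Heis R).x = 0 := rfl
@[simp] theorem one_y : (1 : Heis R).y = 0 := rfl
@[simp] theorem one_z : (1 : Heis R).z = 0 := rfl
@[simp] theorem inv_x (g : Heis R) : (g⁻¹).x = -g.x := rfl
@[simp] theorem inv_y (g : Heis R) : (g⁻¹).y = -g.y := rfl
@[simp] theorem inv_z (g : Heis R) : (g⁻¹).z = -g.z + g.y * g.x := rfl

instance : Group (Heis R) := Group.ofLeftAxioms
  (by intro a b c; ext <;> simp <;> ring)
  (by intro a; ext <;> simp)
  (by intro a; ext <;> simp)

/-- central elements -/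
def Z (u : R) : Heis R := ⟨0, 0, u⟩

theorem mul_Z (g : Heis R) (u : R) : g * Z u = ⟨g.x, g.y, g.z + u⟩ := by
  ext <;> simp [Z]

theorem Z_mul (g : Heis R) (u : R) : Z u * g = ⟨g.x, g.y, g.z + u⟩ := by
  ext <;> simp [Z, add_comm]

theorem Z_comm (g : Heis R) (u : R) : Z u * g = g * Z u := by rw [mul_Z, Z_mul]

theorem sum_eq [Fintype R] [DecidableEq R] {M : Type*} [AddCommMonoid M] (f : Heis R → M) :
    ∑ g, f g = ∑ x : R, ∑ y : R, ∑ z : R, f ⟨x, y, z⟩ := by
  rw [← Equiv.sum_comp (eqv R).symm f, Fintype.sum_prod_type]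
  refine sum_congr rfl (fun x _ => ?_)
  rw [Fintype.sum_prod_type]
  rfl

end Heis

/-! ### characters -/

section Char

variable {I : Type*} [Fintype I] [DecidableEq I]

/-- the sign character -/
def sg (a : ZMod 2) : ℝ := if a = 0 then 1 else -1

theorem sg_add (a b : ZMod 2) : sg (a + b) = sg a * sg b := by
  have h : ∀ a : ZMod 2, a = 0 ∨ a = 1 := by decide
  have h11 : (1 : ZMod 2) + 1 = 0 := by decide
  have h10 : (1 : ZMod 2) ≠ 0 := by decide
  rcases h a with rfl | rfl <;> rcases h b with rfl | rfl <;>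
    simp only [sg, h11, h10, add_zero, zero_add, if_true, if_false] <;> norm_num

/-- the product of the signs -/
def ch (u : I → ZMod 2) : ℝ := ∏ i, sg (u i)

theorem ch_add (u v : I → ZMod 2) : ch (u + v) = ch u * ch v := by
  simp [ch, sg_add, prod_mul_distrib]

theorem ch_zero : ch (0 : I → ZMod 2) = 1 := by simp [ch, sg]

theorem add_self' (u : I → ZMod 2) : u + u = 0 := by
  funext i
  have : ∀ a : ZMod 2, a + a = 0 := by decide
  exact this _

theorem ch_sq (u : I → ZMod 2) : ch u * ch u = 1 := by rw [← ch_add, add_self', ch_zero]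

theorem ch_abs (u : I → ZMod 2) : |ch u| = 1 := by
  have h := ch_sq u
  have h2 : |ch u| * |ch u| = 1 := by rw [← abs_mul, h, abs_one]
  nlinarith [abs_nonneg (ch u)]

theorem exists_neg {w : I → ZMod 2} (hw : w ≠ 0) : ∃ u, ch (w * u) = -1 := by
  obtain ⟨i, hi⟩ : ∃ i, w i ≠ 0 := by
    by_contra h; push Not at h; exact hw (funext h)
  refine ⟨Pi.single i 1, ?_⟩
  unfold ch
  rw [prod_eq_single i]
  · simp [sg, hi]
  · intro j _ hj
    simp [sg, hj]
  · simp

theorem sum_ch (w : I → ZMod 2) :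
    ∑ y : I → ZMod 2, ch (w * y) = if w = 0 then (Fintype.card (I → ZMod 2) : ℝ) else 0 := by
  split_ifs with h
  · subst h; simp [ch_zero]
  · obtain ⟨u, hu⟩ := exists_neg h
    have h1 : ∑ y : I → ZMod 2, ch (w * y) = ∑ y : I → ZMod 2, ch (w * (y + u)) :=
      (Equiv.sum_comp (Equiv.addRight u) (fun y => ch (w * y))).symm
    have h2 : ∑ y : I → ZMod 2, ch (w * (y + u)) = - ∑ y : I → ZMod 2, ch (w * y) := by
      rw [← sum_neg_distrib]
      refine sum_congr rfl (fun y _ => ?_)
      rw [mul_add, ch_add, hu]; ring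
    linarith

/-- weight -/
def wt (w : I → ZMod 2) : ℕ := (univ.filter (fun i => w i ≠ 0)).card

/-- the vectors supported in the support of `w` -/
def Bw (w : I → ZMod 2) : Finset (I → ZMod 2) :=
  Fintype.piFinset (fun i => if w i = 0 then {0} else univ)

theorem card_Bw (w : I → ZMod 2) : (Bw w).card = 2 ^ wt w := by
  unfold Bw wt
  rw [Fintype.card_piFinset, ← prod_filter_mul_prod_filter_not univ (fun i => w i ≠ 0)]
  have h1 : ∏ i ∈ univ.filter (fun i => w i ≠ 0), (if w i = 0 then ({0} : Finset (ZMod 2))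
      else univ).card = 2 ^ (univ.filter (fun i => w i ≠ 0)).card := by
    rw [← prod_const]
    refine prod_congr rfl (fun i hi => ?_)
    rw [if_neg (mem_filter.1 hi).2]; simp
  have h2 : ∏ i ∈ univ.filter (fun i => ¬ w i ≠ 0), (if w i = 0 then ({0} : Finset (ZMod 2))
      else univ).card = 1 := by
    refine prod_eq_one (fun i hi => ?_)
    have := (mem_filter.1 hi).2
    push Not at this
    rw [if_pos this]; simp
  rw [h1, h2, mul_one]

theorem mul_Bw {w u : I → ZMod 2} (hu : u ∈ Bw w) : w * u = u := by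
  unfold Bw at hu
  rw [Fintype.mem_piFinset] at hu
  funext i
  have := hu i
  by_cases h : w i = 0
  · rw [if_pos h] at this
    simp at this
    simp [h, this]
  · have h1 : w i = 1 := by
      have : ∀ a : ZMod 2, a ≠ 0 → a = 1 := by decide
      exact this _ h
    simp [h1]

/-- averaging over the translates by `w x` -/
theorem sum_shift_le (w η : I → ZMod 2) (β : (I → ZMod 2) → ℝ) (hβ : ∀ u, 0 ≤ β u) :
    2 ^ wt w * ∑ x : I → ZMod 2, β (η + w * x) ≤
      (Fintype.card (I → ZMod 2) : ℝ) * ∑ ζ : I → ZMod 2, β ζ := by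
  have h1 : ∀ u ∈ Bw w, ∑ x : I → ZMod 2, β (η + w * x) = ∑ x : I → ZMod 2, β (η + w * x + u) := by
    intro u hu
    rw [← Equiv.sum_comp (Equiv.addRight u) (fun x => β (η + w * x))]
    refine sum_congr rfl (fun x _ => ?_)
    simp only [Equiv.coe_addRight]
    rw [mul_add, mul_Bw hu, add_assoc]
  have h2 : 2 ^ wt w * ∑ x : I → ZMod 2, β (η + w * x) =
      ∑ u ∈ Bw w, ∑ x : I → ZMod 2, β (η + w * x + u) := by
    rw [← sum_congr rfl h1, sum_const, card_Bw, nsmul_eq_mul]
    push_cast; ring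
  rw [h2, sum_comm]
  have h3 : ∀ x ∈ (univ : Finset (I → ZMod 2)), ∑ u ∈ Bw w, β (η + w * x + u) ≤
      ∑ ζ : I → ZMod 2, β ζ := by
    intro x _
    calc ∑ u ∈ Bw w, β (η + w * x + u) ≤ ∑ u : I → ZMod 2, β (η + w * x + u) :=
          sum_le_sum_of_subset_of_nonneg (subset_univ _) (fun _ _ _ => hβ _)
      _ = _ := Equiv.sum_comp (Equiv.addLeft (η + w * x)) β
  refine (sum_le_sum h3).trans ?_
  simp

end Char

end Pool.Agent.H27R2.VP.HL
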