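import Pool.Agent.H27R2.VP.HL1

set_option autoImplicit false
set_option linter.unusedSectionVars false

namespace Pool.Agent.H27R2.VP.HL

open Finset
open scoped RealInnerProductSpace

section HLcore

variable {I : Type*} [Fintype I] [DecidableEq I]

theorem add_add_self (u v : I → ZMod 2) : u + v + v = u := by rw [add_assoc, add_self', add_zero]

theorem ne_add {u v : I → ZMod 2} (h : u ≠ v) : u + v ≠ 0 := by
  intro h1
  apply h
  have := congrArg (· + v) h1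
  simpa [add_add_self] using this

theorem eq_of_add {u v : I → ZMod 2} (h : u + v = 0) : u = v := by
  by_contra h1
  exact ne_add h1 h

/-- the Cauchy-Schwarz step -/
theorem cs_step (w : I → ZMod 2) (p : (I → ZMod 2) → (I → ZMod 2) → ℝ) :
    2 ^ wt w * (∑ x, ∑ x', ∑ ζ, p (x + x') ζ * (p x (ζ + w * x') * p x' ζ)) ^ 2 ≤
      (Fintype.card (I → ZMod 2) : ℝ) * (∑ x, ∑ ζ, (p x ζ) ^ 2) ^ 3 := by
  set σ := ∑ x, ∑ ζ, (p x ζ) ^ 2 with hσ
  set q : (I → ZMod 2) → ℝ := fun ζ => ∑ x, (p x ζ) ^ 2 with hq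
  have hσq : σ = ∑ ζ, q ζ := by rw [hσ, sum_comm]
  have hq0 : ∀ ζ, 0 ≤ q ζ := fun ζ => sum_nonneg (fun _ _ => sq_nonneg _)
  set R : (I → ZMod 2) → (I → ZMod 2) → ℝ := fun y ζ =>
    ∑ x', p (y + x') (ζ + w * x') * p x' ζ with hR
  have h1 : (∑ x, ∑ x', ∑ ζ, p (x + x') ζ * (p x (ζ + w * x') * p x' ζ)) =
      ∑ y, ∑ ζ, p y ζ * R y ζ := by
    rw [sum_comm]
    have h2 : ∀ x' : I → ZMod 2, ∑ x, ∑ ζ, p (x + x') ζ * (p x (ζ + w * x') * p x' ζ) =
        ∑ y, ∑ ζ, p y ζ * (p (y + x') (ζ + w * x') * p x' ζ) := by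
      intro x'
      rw [← Equiv.sum_comp (Equiv.addRight x')]
      refine sum_congr rfl (fun y _ => ?_)
      simp only [Equiv.coe_addRight, add_add_self]
    rw [sum_congr rfl (fun x' _ => h2 x'), sum_comm]
    refine sum_congr rfl (fun y _ => ?_)
    rw [sum_comm]
    refine sum_congr rfl (fun ζ _ => ?_)
    rw [hR, mul_sum]
  have h3 : (∑ y, ∑ ζ, p y ζ * R y ζ) ^ 2 ≤ σ * ∑ y, ∑ ζ, (R y ζ) ^ 2 := by
    have := sum_mul_sq_le_sq_mul_sq (univ : Finset ((I → ZMod 2) × (I → ZMod 2)))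
      (fun a => p a.1 a.2) (fun a => R a.1 a.2)
    simp only [Fintype.sum_prod_type] at this
    exact this
  have h4 : ∀ y ζ, (R y ζ) ^ 2 ≤ (∑ x', (p (y + x') (ζ + w * x')) ^ 2) * q ζ := by
    intro y ζ
    exact sum_mul_sq_le_sq_mul_sq _ _ _
  have h5 : ∑ y, ∑ ζ, (R y ζ) ^ 2 ≤ ∑ ζ, (∑ x', q (ζ + w * x')) * q ζ := by
    calc ∑ y, ∑ ζ, (R y ζ) ^ 2 ≤ ∑ y, ∑ ζ, (∑ x', (p (y + x') (ζ + w * x')) ^ 2) * q ζ :=
          sum_le_sum (fun y _ => sum_le_sum (fun ζ _ => h4 y ζ))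
      _ = ∑ ζ, ∑ y, (∑ x', (p (y + x') (ζ + w * x')) ^ 2) * q ζ := sum_comm
      _ = _ := by
        refine sum_congr rfl (fun ζ _ => ?_)
        rw [← sum_mul]
        congr 1
        rw [sum_comm]
        refine sum_congr rfl (fun x' _ => ?_)
        exact Equiv.sum_comp (Equiv.addRight x') (fun y => (p y (ζ + w * x')) ^ 2)
  have h6 : 2 ^ wt w * ∑ ζ, (∑ x', q (ζ + w * x')) * q ζ ≤
      (Fintype.card (I → ZMod 2) : ℝ) * σ ^ 2 := by
    calc 2 ^ wt w * ∑ ζ, (∑ x', q (ζ + w * x')) * q ζ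
        = ∑ ζ, (2 ^ wt w * ∑ x', q (ζ + w * x')) * q ζ := by
          rw [mul_sum]; refine sum_congr rfl (fun ζ _ => by ring)
      _ ≤ ∑ ζ, ((Fintype.card (I → ZMod 2) : ℝ) * ∑ ζ, q ζ) * q ζ := by
          refine sum_le_sum (fun ζ _ => ?_)
          exact mul_le_mul_of_nonneg_right (sum_shift_le w ζ q hq0) (hq0 ζ)
      _ = _ := by rw [← mul_sum, ← hσq]; ring
  have hσ0 : 0 ≤ σ := sum_nonneg (fun _ _ => sum_nonneg (fun _ _ => sq_nonneg _))
  rw [h1]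
  calc 2 ^ wt w * (∑ y, ∑ ζ, p y ζ * R y ζ) ^ 2
      ≤ 2 ^ wt w * (σ * ∑ ζ, (∑ x', q (ζ + w * x')) * q ζ) := by
        refine mul_le_mul_of_nonneg_left (h3.trans ?_) (by positivity)
        exact mul_le_mul_of_nonneg_left h5 hσ0
    _ = σ * (2 ^ wt w * ∑ ζ, (∑ x', q (ζ + w * x')) * q ζ) := by ring
    _ ≤ σ * ((Fintype.card (I → ZMod 2) : ℝ) * σ ^ 2) := mul_le_mul_of_nonneg_left h6 hσ0
    _ = _ := by ring

variable {E : Type*} [NormedAddCommGroup E] [InnerProductSpace ℝ E]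

/-- Fourier transform (not normalised) -/
def hat (a : (I → ZMod 2) → E) (ζ : I → ZMod 2) : E := ∑ y, ch (ζ * y) • a y

theorem sum_delta {F : Type*} [AddCommGroup F] [Module ℝ F] (f : (I → ZMod 2) → F)
    (v : I → ZMod 2) :
    ∑ y'', (∑ ζ : I → ZMod 2, ch (ζ * (y'' + v))) • f y'' =
      (Fintype.card (I → ZMod 2) : ℝ) • f v := by
  rw [sum_eq_single v]
  · congr 1
    have : ∀ ζ : I → ZMod 2, ch (ζ * (v + v)) = 1 := by
      intro ζ; rw [add_self', mul_zero, ch_zero]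
    simp [this]
  · intro y'' _ hy
    have : ∑ ζ : I → ZMod 2, ch (ζ * (y'' + v)) = 0 := by
      have h := sum_ch (y'' + v)
      rw [if_neg (ne_add hy)] at h
      rw [← h]
      exact sum_congr rfl (fun ζ _ => by rw [mul_comm])
    rw [this, zero_smul]
  · intro h; exact absurd (mem_univ _) h

theorem parseval (a : (I → ZMod 2) → E) :
    ∑ ζ, ‖hat a ζ‖ ^ 2 = (Fintype.card (I → ZMod 2) : ℝ) * ∑ y, ‖a y‖ ^ 2 := by
  have h1 : ∀ ζ, ‖hat a ζ‖ ^ 2 = ∑ y, ∑ y', ch (ζ * (y' + y)) * ⟪a y', a y⟫ := by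
    intro ζ
    rw [← real_inner_self_eq_norm_sq]
    unfold hat
    rw [inner_sum]
    refine sum_congr rfl (fun y _ => ?_)
    rw [sum_inner]
    refine sum_congr rfl (fun y' _ => ?_)
    rw [inner_smul_left, inner_smul_right, mul_add, ch_add]
    simp only [conj_trivial]
    ring
  rw [sum_congr rfl (fun ζ _ => h1 ζ), sum_comm, mul_sum]
  refine sum_congr rfl (fun y _ => ?_)
  rw [sum_comm]
  have h2 := sum_delta (fun y' => ⟪a y', a y⟫) y
  simp only [smul_eq_mul] at h2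
  rw [← real_inner_self_eq_norm_sq, ← h2]
  refine sum_congr rfl (fun y' _ => ?_)
  rw [sum_mul]

/-- the trilinear identity -/
theorem tri (m : E →ₗ[ℝ] E →ₗ[ℝ] E) (a'' a a' : (I → ZMod 2) → E) (v : I → ZMod 2) :
    ∑ ζ, ⟪hat a'' ζ, m (hat a (ζ + v)) (hat a' ζ)⟫ =
      (Fintype.card (I → ZMod 2) : ℝ) *
        ∑ y, ∑ y', ch (v * y) * ⟪a'' (y + y'), m (a y) (a' y')⟫ := by
  have h1 : ∀ ζ, ⟪hat a'' ζ, m (hat a (ζ + v)) (hat a' ζ)⟫ =
      ∑ y, ∑ y', ∑ y'', ch (v * y) * (ch (ζ * (y'' + (y + y'))) * ⟪a'' y'', m (a y) (a' y')⟫) := by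
    intro ζ
    unfold hat
    rw [map_sum m, LinearMap.sum_apply, inner_sum]
    refine sum_congr rfl (fun y _ => ?_)
    rw [map_sum, inner_sum]
    refine sum_congr rfl (fun y' _ => ?_)
    rw [sum_inner]
    refine sum_congr rfl (fun y'' _ => ?_)
    rw [map_smul, map_smul, LinearMap.smul_apply, inner_smul_left, inner_smul_right,
      inner_smul_right, mul_add, mul_add, add_mul, ch_add, ch_add, ch_add]
    simp only [conj_trivial]
    ring
  rw [sum_congr rfl (fun ζ _ => h1 ζ), sum_comm, mul_sum]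
  refine sum_congr rfl (fun y _ => ?_)
  rw [sum_comm, mul_sum]
  refine sum_congr rfl (fun y' _ => ?_)
  rw [sum_comm]
  have h2 := sum_delta (fun y'' => ⟪a'' y'', m (a y) (a' y')⟫) (y + y')
  simp only [smul_eq_mul] at h2
  have h3 : (Fintype.card (I → ZMod 2) : ℝ) * (ch (v * y) * ⟪a'' (y + y'), m (a y) (a' y')⟫) =
    ch (v * y) * ((Fintype.card (I → ZMod 2) : ℝ) * ⟪a'' (y + y'), m (a y) (a' y')⟫) := by ring
  rw [h3, ← h2, mul_sum]
  refine sum_congr rfl (fun y'' _ => ?_)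
  rw [sum_mul, mul_sum]

end HLcore

end Pool.Agent.H27R2.VP.HL
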