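import Pool.Agent.H27R2.VP.HL2

set_option autoImplicit false
set_option linter.unusedSectionVars false

namespace Pool.Agent.H27R2.VP.HL

open Finset
open scoped RealInnerProductSpace

section HLcore

variable {I : Type*} [Fintype I] [DecidableEq I]
variable {E : Type*} [NormedAddCommGroup E] [InnerProductSpace ℝ E]

/-- `A` transforms by the character `w` under the centre -/
def OddC (w : I → ZMod 2) (A : Heis (I → ZMod 2) → E) : Prop :=
  ∀ g u, A (g * Heis.Z u) = ch (w * u) • A g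

/-- the `w` component -/
noncomputable def Pw (w : I → ZMod 2) (A : Heis (I → ZMod 2) → E) (g : Heis (I → ZMod 2)) : E :=
  ((Fintype.card (I → ZMod 2) : ℝ))⁻¹ • ∑ z : I → ZMod 2, ch (w * z) • A (g * Heis.Z z)

theorem Z_mul_Z (u v : I → ZMod 2) : Heis.Z u * Heis.Z v = Heis.Z (u + v) := by
  rw [Heis.mul_Z]; rfl

theorem Pw_odd (w : I → ZMod 2) (A : Heis (I → ZMod 2) → E) : OddC w (Pw w A) := by
  intro g u
  unfold Pw
  rw [smul_comm]
  congr 1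
  rw [smul_sum, ← Equiv.sum_comp (Equiv.addRight u)]
  refine sum_congr rfl (fun z _ => ?_)
  simp only [Equiv.coe_addRight]
  rw [mul_assoc, Z_mul_Z, add_comm z u, ← add_assoc, add_self', zero_add, smul_smul, mul_add,
    ch_add]

theorem card_pos' : (0 : ℝ) < Fintype.card (I → ZMod 2) := by
  exact_mod_cast Fintype.card_pos

theorem sum_Pw (A : Heis (I → ZMod 2) → E) (g : Heis (I → ZMod 2)) :
    ∑ w, Pw w A g = A g := by
  unfold Pw
  rw [← smul_sum, sum_comm]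
  have h := sum_delta (fun z => A (g * Heis.Z z)) 0
  simp only [add_zero] at h
  rw [sum_congr rfl (fun z _ => (sum_smul (s := univ) (f := fun w => ch (w * z))
    (x := A (g * Heis.Z z))).symm), h, smul_smul, inv_mul_cancel₀ card_pos'.ne', one_smul]
  have h0 : Heis.Z (0 : I → ZMod 2) = 1 := rfl
  rw [h0, mul_one]

theorem exists_neg' {w w' : I → ZMod 2} (h : w ≠ w') : ∃ u, ch (w * u) * ch (w' * u) = -1 := by
  obtain ⟨u, hu⟩ := exists_neg (ne_add h)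
  refine ⟨u, ?_⟩
  rw [← ch_add, ← add_mul, hu]

theorem orth {w w' : I → ZMod 2} (h : w ≠ w') {C D : Heis (I → ZMod 2) → E}
    (hC : OddC w C) (hD : OddC w' D) : ∑ g, ⟪C g, D g⟫ = 0 := by
  obtain ⟨u, hu⟩ := exists_neg' h
  have h1 : ∑ g, ⟪C g, D g⟫ = ∑ g, ⟪C (g * Heis.Z u), D (g * Heis.Z u)⟫ :=
    (Equiv.sum_comp (Equiv.mulRight (Heis.Z u)) (fun g => ⟪C g, D g⟫)).symm
  have h2 : ∑ g, ⟪C (g * Heis.Z u), D (g * Heis.Z u)⟫ = - ∑ g, ⟪C g, D g⟫ := by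
    rw [← sum_neg_distrib]
    refine sum_congr rfl (fun g _ => ?_)
    rw [hC, hD, inner_smul_left, inner_smul_right, ← mul_assoc]
    simp only [conj_trivial]
    rw [hu]; ring
  linarith

/-- the trilinear form -/
noncomputable def TT (m : E →ₗ[ℝ] E →ₗ[ℝ] E) (C A D : Heis (I → ZMod 2) → E) : ℝ :=
  ∑ g, ∑ h, ⟪C (g * h), m (A g) (D h)⟫

theorem TT_zero1 (m : E →ₗ[ℝ] E →ₗ[ℝ] E) {w w' : I → ZMod 2} (h : w ≠ w')
    {C A : Heis (I → ZMod 2) → E} (hC : OddC w C) (hA : OddC w' A)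
    (D : Heis (I → ZMod 2) → E) : TT m C A D = 0 := by
  obtain ⟨u, hu⟩ := exists_neg' h
  have h1 : TT m C A D = ∑ g, ∑ h, ⟪C (g * Heis.Z u * h), m (A (g * Heis.Z u)) (D h)⟫ :=
    (Equiv.sum_comp (Equiv.mulRight (Heis.Z u))
      (fun g => ∑ h, ⟪C (g * h), m (A g) (D h)⟫)).symm
  have h2 : ∑ g, ∑ h, ⟪C (g * Heis.Z u * h), m (A (g * Heis.Z u)) (D h)⟫ = - TT m C A D := by
    unfold TT
    rw [← sum_neg_distrib]
    refine sum_congr rfl (fun g _ => ?_)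
    rw [← sum_neg_distrib]
    refine sum_congr rfl (fun h _ => ?_)
    rw [mul_assoc, Heis.Z_comm, ← mul_assoc, hC, hA, map_smul, LinearMap.smul_apply,
      inner_smul_left, inner_smul_right, ← mul_assoc]
    simp only [conj_trivial]
    rw [hu]; ring
  linarith

theorem TT_zero2 (m : E →ₗ[ℝ] E →ₗ[ℝ] E) {w w' : I → ZMod 2} (h : w ≠ w')
    {C D : Heis (I → ZMod 2) → E} (hC : OddC w C) (hD : OddC w' D)
    (A : Heis (I → ZMod 2) → E) : TT m C A D = 0 := by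
  obtain ⟨u, hu⟩ := exists_neg' h
  have h1 : TT m C A D = ∑ g, ∑ h, ⟪C (g * (h * Heis.Z u)), m (A g) (D (h * Heis.Z u))⟫ := by
    unfold TT
    refine sum_congr rfl (fun g _ => ?_)
    exact (Equiv.sum_comp (Equiv.mulRight (Heis.Z u))
      (fun h => ⟪C (g * h), m (A g) (D h)⟫)).symm
  have h2 : ∑ g, ∑ h, ⟪C (g * (h * Heis.Z u)), m (A g) (D (h * Heis.Z u))⟫ = - TT m C A D := by
    unfold TT
    rw [← sum_neg_distrib]
    refine sum_congr rfl (fun g _ => ?_)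
    rw [← sum_neg_distrib]
    refine sum_congr rfl (fun h _ => ?_)
    rw [← mul_assoc, hC, hD, map_smul,
      inner_smul_left, inner_smul_right, ← mul_assoc]
    simp only [conj_trivial]
    rw [hu]; ring
  linarith

theorem TT_split1 (m : E →ₗ[ℝ] E →ₗ[ℝ] E) (C A D : Heis (I → ZMod 2) → E) :
    TT m C A D = ∑ w, TT m (Pw w C) A D := by
  unfold TT
  rw [sum_comm (s := univ (α := I → ZMod 2))]
  refine sum_congr rfl (fun g _ => ?_)
  rw [sum_comm (s := univ (α := I → ZMod 2))]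
  refine sum_congr rfl (fun h _ => ?_)
  rw [← sum_inner, sum_Pw]

theorem TT_split2 (m : E →ₗ[ℝ] E →ₗ[ℝ] E) (C A D : Heis (I → ZMod 2) → E) :
    TT m C A D = ∑ w, TT m C (Pw w A) D := by
  unfold TT
  rw [sum_comm (s := univ (α := I → ZMod 2))]
  refine sum_congr rfl (fun g _ => ?_)
  rw [sum_comm (s := univ (α := I → ZMod 2))]
  refine sum_congr rfl (fun h _ => ?_)
  rw [← inner_sum, ← LinearMap.sum_apply, ← map_sum m, sum_Pw]

theorem TT_split3 (m : E →ₗ[ℝ] E →ₗ[ℝ] E) (C A D : Heis (I → ZMod 2) → E) :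
    TT m C A D = ∑ w, TT m C A (Pw w D) := by
  unfold TT
  rw [sum_comm (s := univ (α := I → ZMod 2))]
  refine sum_congr rfl (fun g _ => ?_)
  rw [sum_comm (s := univ (α := I → ZMod 2))]
  refine sum_congr rfl (fun h _ => ?_)
  rw [← inner_sum, ← map_sum, sum_Pw]

theorem TT_outer (m : E →ₗ[ℝ] E →ₗ[ℝ] E) (Φ : Heis (I → ZMod 2) → E) :
    TT m Φ Φ Φ = ∑ w, TT m (Pw w Φ) Φ (Pw w Φ) := by
  rw [TT_split1]
  refine sum_congr rfl (fun w _ => ?_)
  rw [TT_split3, sum_eq_single w]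
  · intro w' _ hw'
    exact TT_zero2 m hw'.symm (Pw_odd w Φ) (Pw_odd w' Φ) _
  · intro h; exact absurd (mem_univ _) h

theorem TT_mid (m : E →ₗ[ℝ] E →ₗ[ℝ] E) (Φ : Heis (I → ZMod 2) → E) (w : I → ZMod 2) :
    TT m (Pw w Φ) Φ (Pw w Φ) = TT m (Pw w Φ) (Pw w Φ) (Pw w Φ) := by
  rw [TT_split2, sum_eq_single w]
  · intro w' _ hw'
    exact TT_zero1 m hw'.symm (Pw_odd w Φ) (Pw_odd w' Φ) _
  · intro h; exact absurd (mem_univ _) h

theorem TT_bound1 (m : E →ₗ[ℝ] E →ₗ[ℝ] E) (Φ C : Heis (I → ZMod 2) → E)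
    (hm : ∀ g a, ‖m (Φ g) a‖ ≤ ‖a‖) :
    TT m C Φ C ≤ (Fintype.card (Heis (I → ZMod 2)) : ℝ) * ∑ g, ‖C g‖ ^ 2 := by
  have h1 : ∀ g h, ⟪C (g * h), m (Φ g) (C h)⟫ ≤ (‖C (g * h)‖ ^ 2 + ‖C h‖ ^ 2) / 2 := by
    intro g h
    have a1 := real_inner_le_norm (C (g * h)) (m (Φ g) (C h))
    have a2 := hm g (C h)
    have a3 : ‖C (g * h)‖ * ‖m (Φ g) (C h)‖ ≤ ‖C (g * h)‖ * ‖C h‖ := by gcongr
    nlinarith [sq_nonneg (‖C (g * h)‖ - ‖C h‖)]
  have h2 : ∀ g, ∑ h, ⟪C (g * h), m (Φ g) (C h)⟫ ≤ ∑ h, ‖C h‖ ^ 2 := by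
    intro g
    refine (sum_le_sum (fun h _ => h1 g h)).trans ?_
    rw [← sum_div, sum_add_distrib]
    have h3 : ∑ h, ‖C (g * h)‖ ^ 2 = ∑ h, ‖C h‖ ^ 2 :=
      Equiv.sum_comp (Equiv.mulLeft g) (fun h => ‖C h‖ ^ 2)
    rw [h3]
    linarith
  unfold TT
  refine (sum_le_sum (fun g _ => h2 g)).trans ?_
  rw [sum_const, card_univ, nsmul_eq_mul]

theorem card_Heis : (Fintype.card (Heis (I → ZMod 2)) : ℝ) =
    (Fintype.card (I → ZMod 2) : ℝ) ^ 3 := by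
  rw [Fintype.card_congr (Heis.eqv (I → ZMod 2)), Fintype.card_prod, Fintype.card_prod]
  push_cast; ring

theorem odd_apply {w : I → ZMod 2} {C : Heis (I → ZMod 2) → E} (hC : OddC w C)
    (x y z : I → ZMod 2) : C ⟨x, y, z⟩ = ch (w * z) • C ⟨x, y, 0⟩ := by
  have h := hC ⟨x, y, 0⟩ z
  rw [Heis.mul_Z] at h
  simpa using h

theorem ch_sq' (u : I → ZMod 2) : ch u ^ 2 = 1 := by rw [pow_two, ch_sq]

theorem TT_bound2 (m : E →ₗ[ℝ] E →ₗ[ℝ] E) (hm : ∀ a b, ‖m a b‖ ≤ ‖a‖ * ‖b‖)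
    {w : I → ZMod 2} {C : Heis (I → ZMod 2) → E} (hC : OddC w C) :
    2 ^ wt w * (TT m C C C) ^ 2 ≤
      (Fintype.card (Heis (I → ZMod 2)) : ℝ) * (∑ g, ‖C g‖ ^ 2) ^ 3 := by
  set N : ℝ := ((Fintype.card (I → ZMod 2) : ℕ) : ℝ) with hN
  have hN0 : 0 < N := card_pos'
  set a : (I → ZMod 2) → (I → ZMod 2) → E := fun x y => C ⟨x, y, 0⟩ with ha
  set p : (I → ZMod 2) → (I → ZMod 2) → ℝ := fun x ζ => ‖hat (a x) ζ‖ with hp
  -- the energy
  have hs : ∑ g, ‖C g‖ ^ 2 = ∑ x, ∑ ζ, (p x ζ) ^ 2 := by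
    rw [Heis.sum_eq]
    refine sum_congr rfl (fun x _ => ?_)
    rw [hp]
    simp only
    rw [parseval, mul_sum]
    refine sum_congr rfl (fun y _ => ?_)
    have : ∀ z : I → ZMod 2, ‖C ⟨x, y, z⟩‖ ^ 2 = ‖a x y‖ ^ 2 := by
      intro z
      rw [odd_apply hC, norm_smul, Real.norm_eq_abs, ch_abs, one_mul]
    rw [sum_congr rfl (fun z _ => this z), sum_const, card_univ, nsmul_eq_mul]
  -- the trilinear form
  have h1 : TT m C C C = N ^ 2 * ∑ x, ∑ x', ∑ y, ∑ y',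
      ch (w * x' * y) * ⟪a (x + x') (y + y'), m (a x y) (a x' y')⟫ := by
    unfold TT
    rw [Heis.sum_eq, mul_sum]
    refine sum_congr rfl (fun x _ => ?_)
    have e1 : ∀ y z, ∑ h, ⟪C ((⟨x, y, z⟩ : Heis (I → ZMod 2)) * h), m (C ⟨x, y, z⟩) (C h)⟫ =
        ∑ x', ∑ y', N * (ch (w * x' * y) * ⟪a (x + x') (y + y'), m (a x y) (a x' y')⟫) := by
      intro y z
      rw [Heis.sum_eq]
      refine sum_congr rfl (fun x' _ => sum_congr rfl (fun y' _ => ?_))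
      have e2 : ∀ z', ⟪C ((⟨x, y, z⟩ : Heis (I → ZMod 2)) * ⟨x', y', z'⟩),
          m (C ⟨x, y, z⟩) (C ⟨x', y', z'⟩)⟫ =
          ch (w * x' * y) * ⟪a (x + x') (y + y'), m (a x y) (a x' y')⟫ := by
        intro z'
        have e3 : ((⟨x, y, z⟩ : Heis (I → ZMod 2)) * ⟨x', y', z'⟩) =
          ⟨x + x', y + y', z + z' + y * x'⟩ := rfl
        rw [e3, odd_apply hC, odd_apply hC x y z, odd_apply hC x' y' z', map_smul, map_smul,
          LinearMap.smul_apply, inner_smul_left, inner_smul_right, inner_smul_right]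
        simp only [conj_trivial]
        have e4 : ch (w * (z + z' + y * x')) = ch (w * z) * ch (w * z') * ch (w * x' * y) := by
          rw [← ch_add, ← ch_add]; congr 1; ring
        rw [e4]
        have e5 := ch_sq' (w * z)
        have e6 := ch_sq' (w * z')
        have e7 : ch (w * z) * ch (w * z') * ch (w * x' * y) *
            (ch (w * z') * (ch (w * z) * ⟪C ⟨x + x', y + y', 0⟩,
              (m (C ⟨x, y, 0⟩)) (C ⟨x', y', 0⟩)⟫)) =
            ch (w * z) ^ 2 * ch (w * z') ^ 2 * (ch (w * x' * y) *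
              ⟪C ⟨x + x', y + y', 0⟩, (m (C ⟨x, y, 0⟩)) (C ⟨x', y', 0⟩)⟫) := by ring
        rw [e7, e5, e6, one_mul, one_mul]
      rw [sum_congr rfl (fun z' _ => e2 z'), sum_const, card_univ, nsmul_eq_mul]
    rw [sum_congr rfl (fun y _ => sum_congr rfl (fun z _ => e1 y z))]
    have e9 : ∀ y : I → ZMod 2, ∑ _z : I → ZMod 2, ∑ x', ∑ y',
        N * (ch (w * x' * y) * ⟪a (x + x') (y + y'), m (a x y) (a x' y')⟫) =
        ∑ x', ∑ y', N ^ 2 * (ch (w * x' * y) * ⟪a (x + x') (y + y'), m (a x y) (a x' y')⟫) := by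
      intro y
      rw [sum_const, card_univ, nsmul_eq_mul, ← hN, mul_sum]
      refine sum_congr rfl (fun x' _ => ?_)
      rw [mul_sum]
      refine sum_congr rfl (fun y' _ => ?_)
      ring
    rw [sum_congr rfl (fun y _ => e9 y), sum_comm, mul_sum]
    refine sum_congr rfl (fun x' _ => ?_)
    rw [mul_sum]
    refine sum_congr rfl (fun y _ => ?_)
    rw [mul_sum]
  have h2 : TT m C C C = N * ∑ x, ∑ x', ∑ ζ,
      ⟪hat (a (x + x')) ζ, m (hat (a x) (ζ + w * x')) (hat (a x') ζ)⟫ := by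
    rw [h1, mul_sum, mul_sum]
    refine sum_congr rfl (fun x _ => ?_)
    rw [mul_sum, mul_sum]
    refine sum_congr rfl (fun x' _ => ?_)
    rw [tri m (a (x + x')) (a x) (a x') (w * x')]
    ring
  have h3 : |TT m C C C| ≤ N * ∑ x, ∑ x', ∑ ζ, p (x + x') ζ * (p x (ζ + w * x') * p x' ζ) := by
    rw [h2, abs_mul, abs_of_pos hN0]
    refine mul_le_mul_of_nonneg_left ?_ hN0.le
    refine (abs_sum_le_sum_abs _ _).trans (sum_le_sum (fun x _ => ?_))
    refine (abs_sum_le_sum_abs _ _).trans (sum_le_sum (fun x' _ => ?_))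
    refine (abs_sum_le_sum_abs _ _).trans (sum_le_sum (fun ζ _ => ?_))
    refine (abs_real_inner_le_norm _ _).trans ?_
    exact mul_le_mul_of_nonneg_left (hm _ _) (norm_nonneg _)
  set X := ∑ x, ∑ x', ∑ ζ, p (x + x') ζ * (p x (ζ + w * x') * p x' ζ) with hX
  have h4 := cs_step w p
  rw [← hX] at h4
  have h5 : (TT m C C C) ^ 2 ≤ N ^ 2 * X ^ 2 := by
    rw [← sq_abs, ← mul_pow]
    exact pow_le_pow_left₀ (abs_nonneg _) h3 2
  rw [card_Heis, hs]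
  calc 2 ^ wt w * (TT m C C C) ^ 2 ≤ 2 ^ wt w * (N ^ 2 * X ^ 2) := by gcongr
    _ = N ^ 2 * (2 ^ wt w * X ^ 2) := by ring
    _ ≤ N ^ 2 * (N * (∑ x, ∑ ζ, (p x ζ) ^ 2) ^ 3) := by gcongr
    _ = _ := by ring

end HLcore

end Pool.Agent.H27R2.VP.HL
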