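import Pool.Agent.H27R2.VP.HL3

set_option autoImplicit false
set_option linter.unusedSectionVars false

namespace Pool.Agent.H27R2.VP.HL

open Finset
open scoped RealInnerProductSpace

section HLcore

variable {I : Type*} [Fintype I] [DecidableEq I]
variable {E : Type*} [NormedAddCommGroup E] [InnerProductSpace ℝ E]

/-- the energy of the `w` component -/
noncomputable def en (Φ : Heis (I → ZMod 2) → E) (w : I → ZMod 2) : ℝ := ∑ g, ‖Pw w Φ g‖ ^ 2

theorem en_nonneg (Φ : Heis (I → ZMod 2) → E) (w : I → ZMod 2) : 0 ≤ en Φ w :=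
  sum_nonneg (fun _ _ => sq_nonneg _)

theorem energy (Φ : Heis (I → ZMod 2) → E) (c : (I → ZMod 2) → ℝ) :
    ∑ g, ‖∑ w, c w • Pw w Φ g‖ ^ 2 = ∑ w, (c w) ^ 2 * en Φ w := by
  have h1 : ∀ g, ‖∑ w, c w • Pw w Φ g‖ ^ 2 =
      ∑ w, ∑ w', c w * (c w' * ⟪Pw w Φ g, Pw w' Φ g⟫) := by
    intro g
    rw [← real_inner_self_eq_norm_sq, sum_inner]
    refine sum_congr rfl (fun w _ => ?_)
    rw [inner_sum]
    refine sum_congr rfl (fun w' _ => ?_)
    rw [inner_smul_left, inner_smul_right]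
    simp only [conj_trivial]
  rw [sum_congr rfl (fun g _ => h1 g), sum_comm]
  refine sum_congr rfl (fun w _ => ?_)
  rw [sum_comm, sum_eq_single w]
  · unfold en
    rw [mul_sum]
    refine sum_congr rfl (fun g _ => ?_)
    rw [real_inner_self_eq_norm_sq]; ring
  · intro w' _ hw'
    rw [← mul_sum, ← mul_sum, orth hw'.symm (Pw_odd w Φ) (Pw_odd w' Φ)]
    ring
  · intro h; exact absurd (mem_univ _) h

theorem shift_eq (Φ : Heis (I → ZMod 2) → E) (g : Heis (I → ZMod 2)) (u : I → ZMod 2) :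
    Φ (g * Heis.Z u) - Φ g = ∑ w, (ch (w * u) - 1) • Pw w Φ g := by
  rw [← sum_Pw Φ (g * Heis.Z u), ← sum_Pw Φ g, ← sum_sub_distrib]
  refine sum_congr rfl (fun w _ => ?_)
  rw [Pw_odd w Φ g u, sub_smul, one_smul]

theorem ch_single (w : I → ZMod 2) (i : I) : ch (w * Pi.single i 1) = sg (w i) := by
  unfold ch
  rw [prod_eq_single i]
  · simp
  · intro j _ hj
    simp [sg, hj]
  · simp

theorem wt_le (w : I → ZMod 2) : wt w ≤ Fintype.card I := by
  unfold wt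
  exact card_le_univ _

/-- the core estimate -/
theorem core_heis (m : E →ₗ[ℝ] E →ₗ[ℝ] E) (hm : ∀ a b, ‖m a b‖ ≤ ‖a‖ * ‖b‖)
    (r δ ρ : ℝ) (hr : 0 < r) (hδρ : δ ≤ ρ)
    (Φ : Heis (I → ZMod 2) → E) (hΦ : ∀ g, ‖Φ g‖ = r)
    (hcon : ∀ g a, ‖m (Φ g) a‖ ≤ ‖a‖) (hpr : ∀ g h, ‖m (Φ g) (Φ h)‖ = r)
    (hmul : ∀ g h, ‖m (Φ g) (Φ h) - Φ (g * h)‖ ≤ δ * r)
    (hmv : ∀ g i, ρ * r ≤ ‖m (Φ g) (Φ (Heis.Z (Pi.single i 1))) - Φ g‖)
    (L : ℕ) (hL : 4 * r ^ 2 ≤ 2 ^ L) :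
    (Fintype.card I : ℝ) * ((ρ - δ) ^ 2 / 4 - δ ^ 2) ≤ L := by
  set N : ℝ := ((Fintype.card (Heis (I → ZMod 2)) : ℕ) : ℝ) with hN
  have hN0 : 0 < N := by
    rw [hN]; exact_mod_cast Fintype.card_pos_iff.2 ⟨1⟩
  have hr2 : 0 < r ^ 2 := by positivity
  -- total energy
  have htot : ∑ w, en Φ w = N * r ^ 2 := by
    have h := energy Φ (fun _ => 1)
    simp only [one_smul, one_pow, one_mul] at h
    rw [← h]
    have : ∀ g, ‖∑ w, Pw w Φ g‖ ^ 2 = r ^ 2 := fun g => by rw [sum_Pw, hΦ]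
    rw [sum_congr rfl (fun g _ => this g), sum_const, card_univ, nsmul_eq_mul]
  have hle : ∀ w, en Φ w ≤ N * r ^ 2 := by
    intro w
    rw [← htot]
    exact single_le_sum (fun w _ => en_nonneg Φ w) (mem_univ w)
  -- lower bound for the trilinear form
  have hlow : N * (N * (r ^ 2 * (1 - δ ^ 2 / 2))) ≤ TT m Φ Φ Φ := by
    have h1 : ∀ g h, r ^ 2 * (1 - δ ^ 2 / 2) ≤ ⟪Φ (g * h), m (Φ g) (Φ h)⟫ := by
      intro g h
      have a1 := @norm_sub_sq_real E _ _ (m (Φ g) (Φ h)) (Φ (g * h))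
      rw [hpr, hΦ, real_inner_comm] at a1
      have a2 : ‖m (Φ g) (Φ h) - Φ (g * h)‖ ^ 2 ≤ (δ * r) ^ 2 :=
        pow_le_pow_left₀ (norm_nonneg _) (hmul g h) 2
      rw [a1] at a2
      nlinarith
    have h2 : ∀ g, N * (r ^ 2 * (1 - δ ^ 2 / 2)) ≤ ∑ h, ⟪Φ (g * h), m (Φ g) (Φ h)⟫ := by
      intro g
      have := sum_le_sum (s := univ) (fun h (_ : h ∈ univ) => h1 g h)
      rwa [sum_const, card_univ, nsmul_eq_mul] at this
    have := sum_le_sum (s := univ) (fun g (_ : g ∈ univ) => h2 g)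
    rwa [sum_const, card_univ, nsmul_eq_mul] at this
  -- upper bounds
  have hb1 : ∀ w, TT m (Pw w Φ) Φ (Pw w Φ) ≤ N * en Φ w :=
    fun w => TT_bound1 m Φ (Pw w Φ) hcon
  have hb2 : ∀ w, L ≤ wt w → TT m (Pw w Φ) Φ (Pw w Φ) ≤ N * en Φ w / 2 := by
    intro w hw
    rw [TT_mid]
    have h := TT_bound2 m hm (Pw_odd w Φ)
    set t := TT m (Pw w Φ) (Pw w Φ) (Pw w Φ)
    have h' : 2 ^ wt w * t ^ 2 ≤ N * (en Φ w) ^ 3 := h
    have h2 : (2 : ℝ) ^ L ≤ 2 ^ wt w := pow_le_pow_right₀ (by norm_num) hw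
    have h3 : 4 * r ^ 2 * t ^ 2 ≤ N * (en Φ w) ^ 3 := by
      refine le_trans ?_ h'
      have : 4 * r ^ 2 ≤ 2 ^ wt w := hL.trans h2
      exact mul_le_mul_of_nonneg_right this (sq_nonneg _)
    have h4 : N * (en Φ w) ^ 3 ≤ N * ((en Φ w) ^ 2 * (N * r ^ 2)) := by
      have : (en Φ w) ^ 3 = (en Φ w) ^ 2 * en Φ w := by ring
      rw [this]
      have := hle w
      gcongr
    have h5 : r ^ 2 * (4 * t ^ 2) ≤ r ^ 2 * (N * en Φ w) ^ 2 := by nlinarith
    have h6 : 4 * t ^ 2 ≤ (N * en Φ w) ^ 2 := le_of_mul_le_mul_left h5 hr2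
    have h7 : 0 ≤ N * en Φ w := mul_nonneg hN0.le (en_nonneg Φ w)
    by_contra hcon'
    push Not at hcon'
    nlinarith
  -- the energy of the high part
  set H := univ.filter (fun w : I → ZMod 2 => L ≤ wt w) with hH
  have hhigh : ∑ w ∈ H, en Φ w ≤ N * r ^ 2 * δ ^ 2 := by
    have h1 : TT m Φ Φ Φ ≤ ∑ w, (N * en Φ w - if L ≤ wt w then N * en Φ w / 2 else 0) := by
      rw [TT_outer]
      refine sum_le_sum (fun w _ => ?_)
      split_ifs with h
      · have := hb2 w h; linarith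
      · have := hb1 w; linarith
    rw [sum_sub_distrib, ← mul_sum, htot, ← sum_filter, ← hH] at h1
    have h2 : ∑ w ∈ H, N * en Φ w / 2 = N * (∑ w ∈ H, en Φ w) / 2 := by
      rw [← sum_div, mul_sum]
    rw [h2] at h1
    have h3 := hlow.trans h1
    have h4 : N * (∑ w ∈ H, en Φ w) ≤ N * (N * r ^ 2 * δ ^ 2) := by nlinarith
    exact le_of_mul_le_mul_left h4 hN0
  -- the commutators
  have hcomm : ∀ i : I, N * ((ρ - δ) ^ 2 * r ^ 2) ≤ ∑ w, (if w i ≠ 0 then 4 * en Φ w else 0) := by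
    intro i
    have h1 : ∀ g, (ρ - δ) ^ 2 * r ^ 2 ≤ ‖Φ (g * Heis.Z (Pi.single i 1)) - Φ g‖ ^ 2 := by
      intro g
      have a1 := hmv g i
      have a2 := hmul g (Heis.Z (Pi.single i 1))
      have a3 : ‖m (Φ g) (Φ (Heis.Z (Pi.single i 1))) - Φ g‖ ≤
        ‖m (Φ g) (Φ (Heis.Z (Pi.single i 1))) - Φ (g * Heis.Z (Pi.single i 1))‖ +
          ‖Φ (g * Heis.Z (Pi.single i 1)) - Φ g‖ := by
        have := norm_add_le
          (m (Φ g) (Φ (Heis.Z (Pi.single i 1))) - Φ (g * Heis.Z (Pi.single i 1)))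
          (Φ (g * Heis.Z (Pi.single i 1)) - Φ g)
        rwa [sub_add_sub_cancel] at this
      have a4 : (ρ - δ) * r ≤ ‖Φ (g * Heis.Z (Pi.single i 1)) - Φ g‖ := by linarith
      have a5 : 0 ≤ (ρ - δ) * r := mul_nonneg (by linarith) hr.le
      have := pow_le_pow_left₀ a5 a4 2
      rwa [mul_pow] at this
    have h2 : N * ((ρ - δ) ^ 2 * r ^ 2) ≤
        ∑ g, ‖Φ (g * Heis.Z (Pi.single i 1)) - Φ g‖ ^ 2 := by
      have := sum_le_sum (s := univ) (fun g (_ : g ∈ univ) => h1 g)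
      rwa [sum_const, card_univ, nsmul_eq_mul] at this
    refine h2.trans (le_of_eq ?_)
    rw [sum_congr rfl (fun g _ => by rw [shift_eq]), energy]
    refine sum_congr rfl (fun w _ => ?_)
    rw [ch_single]
    unfold sg
    by_cases h : w i = 0
    · simp [h]
    · simp only [h, if_false, ne_eq, not_false_eq_true, if_true]
      norm_num
  have hsum : (Fintype.card I : ℝ) * (N * ((ρ - δ) ^ 2 * r ^ 2)) ≤
      4 * ∑ w, (wt w : ℝ) * en Φ w := by
    have h1 := sum_le_sum (s := univ) (fun i (_ : i ∈ univ) => hcomm i)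
    rw [sum_const, card_univ, nsmul_eq_mul, sum_comm] at h1
    refine h1.trans (le_of_eq ?_)
    rw [mul_sum]
    refine sum_congr rfl (fun w _ => ?_)
    rw [← sum_filter, sum_const, nsmul_eq_mul]
    unfold wt
    ring
  have hwt : ∑ w, (wt w : ℝ) * en Φ w ≤ L * (N * r ^ 2) +
      (Fintype.card I : ℝ) * (N * r ^ 2 * δ ^ 2) := by
    calc ∑ w, (wt w : ℝ) * en Φ w
        ≤ ∑ w, ((L : ℝ) * en Φ w + if L ≤ wt w then (Fintype.card I : ℝ) * en Φ w else 0) := by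
          refine sum_le_sum (fun w _ => ?_)
          have h0 := en_nonneg Φ w
          split_ifs with h
          · have h1 : (wt w : ℝ) ≤ Fintype.card I := by exact_mod_cast wt_le w
            have h2 : (0 : ℝ) ≤ L := Nat.cast_nonneg _
            nlinarith
          · have h1 : (wt w : ℝ) ≤ L := by exact_mod_cast (not_le.1 h).le
            nlinarith
      _ = (L : ℝ) * (N * r ^ 2) + (Fintype.card I : ℝ) * ∑ w ∈ H, en Φ w := by
          rw [sum_add_distrib, ← mul_sum, htot, ← sum_filter, ← hH, mul_sum]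
      _ ≤ _ := by
          have : (0 : ℝ) ≤ Fintype.card I := Nat.cast_nonneg _
          gcongr
  have hfin : (N * r ^ 2) * ((Fintype.card I : ℝ) * ((ρ - δ) ^ 2 / 4 - δ ^ 2)) ≤
      (N * r ^ 2) * L := by nlinarith
  exact le_of_mul_le_mul_left hfin (by positivity)

end HLcore

end Pool.Agent.H27R2.VP.HL
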