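import Pool.Agent.H27R2.VP.HL4
import Pool.Agent.H27R2.VP.Basic

set_option autoImplicit false
set_option linter.unusedSectionVars false

namespace Pool.Agent.H27R2.VP.HL

open Finset Matrix
open scoped RealInnerProductSpace

section Mat

variable {n : ℕ}

/-- the real Hilbert space of complex matrices -/
abbrev EM (n : ℕ) := EuclideanSpace ℂ (Fin n × Fin n)

/-- entries of a matrix as a vector -/
def vec' (M : Matrix (Fin n) (Fin n) ℂ) : EM n := WithLp.toLp 2 (fun p => M p.1 p.2)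

/-- the matrix of a vector -/
def mat' (a : EM n) : Matrix (Fin n) (Fin n) ℂ := fun i j => a (i, j)

@[simp] theorem mat_vec (M : Matrix (Fin n) (Fin n) ℂ) : mat' (vec' M) = M := rfl
@[simp] theorem vec_mat (a : EM n) : vec' (mat' a) = a := rfl

theorem vec_add (M N : Matrix (Fin n) (Fin n) ℂ) : vec' (M + N) = vec' M + vec' N := rfl
theorem vec_sub (M N : Matrix (Fin n) (Fin n) ℂ) : vec' (M - N) = vec' M - vec' N := rfl
theorem vec_smul (c : ℝ) (M : Matrix (Fin n) (Fin n) ℂ) : vec' (c • M) = c • vec' M := rfl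
theorem mat_add (a b : EM n) : mat' (a + b) = mat' a + mat' b := rfl
theorem mat_smul (c : ℝ) (a : EM n) : mat' (c • a) = c • mat' a := rfl

/-- Frobenius norm -/
noncomputable def fr (M : Matrix (Fin n) (Fin n) ℂ) : ℝ := ‖vec' M‖

theorem fr_sq (M : Matrix (Fin n) (Fin n) ℂ) : fr M ^ 2 = ∑ i, ∑ j, ‖M i j‖ ^ 2 := by
  unfold fr
  rw [EuclideanSpace.norm_sq_eq, Fintype.sum_prod_type]
  rfl

theorem fr_nonneg (M : Matrix (Fin n) (Fin n) ℂ) : 0 ≤ fr M := norm_nonneg _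

theorem fr_trace (M : Matrix (Fin n) (Fin n) ℂ) : ((fr M ^ 2 : ℝ) : ℂ) = (Mᴴ * M).trace := by
  rw [fr_sq, Matrix.trace, sum_comm]
  push_cast
  refine sum_congr rfl (fun j _ => ?_)
  rw [Matrix.diag_apply, Matrix.mul_apply]
  refine sum_congr rfl (fun i _ => ?_)
  rw [Matrix.conjTranspose_apply]
  have h := Complex.conj_mul' (M i j)
  rw [← h]; rfl

theorem fr_mul_le (A B : Matrix (Fin n) (Fin n) ℂ) : fr (A * B) ≤ fr A * fr B := by
  have h : fr (A * B) ^ 2 ≤ (fr A * fr B) ^ 2 := by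
    rw [mul_pow, fr_sq, fr_sq, fr_sq]
    have h1 : ∀ i j, ‖(A * B) i j‖ ^ 2 ≤ (∑ k, ‖A i k‖ ^ 2) * (∑ k, ‖B k j‖ ^ 2) := by
      intro i j
      rw [Matrix.mul_apply]
      have h2 : ‖∑ k, A i k * B k j‖ ≤ ∑ k, ‖A i k‖ * ‖B k j‖ := by
        refine (norm_sum_le _ _).trans (le_of_eq ?_)
        exact sum_congr rfl (fun k _ => norm_mul _ _)
      have h3 := pow_le_pow_left₀ (norm_nonneg _) h2 2
      exact h3.trans (sum_mul_sq_le_sq_mul_sq _ _ _)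
    calc ∑ i, ∑ j, ‖(A * B) i j‖ ^ 2
        ≤ ∑ i, ∑ j, (∑ k, ‖A i k‖ ^ 2) * (∑ k, ‖B k j‖ ^ 2) :=
          sum_le_sum (fun i _ => sum_le_sum (fun j _ => h1 i j))
      _ = (∑ i, ∑ k, ‖A i k‖ ^ 2) * (∑ j, ∑ k, ‖B k j‖ ^ 2) := by
          rw [sum_mul]
          refine sum_congr rfl (fun i _ => ?_)
          rw [mul_sum]
      _ = _ := by rw [sum_comm (f := fun j k => ‖B k j‖ ^ 2)]
  exact (pow_le_pow_iff_left₀ (fr_nonneg _) (mul_nonneg (fr_nonneg _) (fr_nonneg _))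
    (two_ne_zero)).1 h

theorem fr_eq_of_sq {A B : Matrix (Fin n) (Fin n) ℂ}
    (h : ((fr A ^ 2 : ℝ) : ℂ) = ((fr B ^ 2 : ℝ) : ℂ)) : fr A = fr B := by
  have h1 : fr A ^ 2 = fr B ^ 2 := by exact_mod_cast h
  exact (pow_left_inj₀ (fr_nonneg _) (fr_nonneg _) two_ne_zero).1 h1

theorem fr_left (U : unitaryGroup (Fin n) ℂ) (M : Matrix (Fin n) (Fin n) ℂ) :
    fr ((U : Matrix (Fin n) (Fin n) ℂ) * M) = fr M := by
  apply fr_eq_of_sq
  rw [fr_trace, fr_trace]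
  congr 1
  have h : (U : Matrix (Fin n) (Fin n) ℂ)ᴴ * (U : Matrix (Fin n) (Fin n) ℂ) = 1 :=
    (Matrix.mem_unitaryGroup_iff'.1 U.2)
  rw [conjTranspose_mul, Matrix.mul_assoc, ← Matrix.mul_assoc _ _ M, h, Matrix.one_mul]

theorem fr_right (U : unitaryGroup (Fin n) ℂ) (M : Matrix (Fin n) (Fin n) ℂ) :
    fr (M * (U : Matrix (Fin n) (Fin n) ℂ)) = fr M := by
  apply fr_eq_of_sq
  rw [fr_trace, fr_trace]
  have h : (U : Matrix (Fin n) (Fin n) ℂ) * (U : Matrix (Fin n) (Fin n) ℂ)ᴴ = 1 :=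
    (Matrix.mem_unitaryGroup_iff.1 U.2)
  rw [Matrix.trace_mul_comm, conjTranspose_mul, Matrix.mul_assoc, ← Matrix.mul_assoc _ _ Mᴴ, h,
    Matrix.one_mul, Matrix.trace_mul_comm]

theorem fr_one : fr (1 : Matrix (Fin n) (Fin n) ℂ) = Real.sqrt n := by
  rw [eq_comm, Real.sqrt_eq_iff_mul_self_eq (Nat.cast_nonneg _) (fr_nonneg _), ← pow_two, fr_sq]
  have : ∀ i : Fin n, ∑ j, ‖(1 : Matrix (Fin n) (Fin n) ℂ) i j‖ ^ 2 = 1 := by
    intro i
    rw [sum_eq_single i]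
    · simp
    · intro j _ hj
      simp [Matrix.one_apply_ne hj.symm]
    · simp
  rw [sum_congr rfl (fun i _ => this i)]
  simp

theorem fr_unitary (U : unitaryGroup (Fin n) ℂ) :
    fr (U : Matrix (Fin n) (Fin n) ℂ) = Real.sqrt n := by
  rw [← fr_one, ← fr_left U 1, Matrix.mul_one]

theorem fr_neg (M : Matrix (Fin n) (Fin n) ℂ) : fr (-M) = fr M := by
  unfold fr
  have : vec' (-M) = - vec' M := rfl
  rw [this, norm_neg]

theorem fr_add_le (M N : Matrix (Fin n) (Fin n) ℂ) : fr (M + N) ≤ fr M + fr N :=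
  norm_add_le (vec' M) (vec' N)

/-- the Frobenius length of a unitary -/
noncomputable def hl (U : unitaryGroup (Fin n) ℂ) : ℝ :=
  fr ((U : Matrix (Fin n) (Fin n) ℂ) - 1)

theorem inv_coe_mul (U : unitaryGroup (Fin n) ℂ) :
    ((U⁻¹ : unitaryGroup (Fin n) ℂ) : Matrix (Fin n) (Fin n) ℂ) *
      (U : Matrix (Fin n) (Fin n) ℂ) = 1 := by
  have : (((U⁻¹ * U : unitaryGroup (Fin n) ℂ)) : Matrix (Fin n) (Fin n) ℂ) = 1 := by
    rw [inv_mul_cancel]; rfl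
  exact this

theorem mul_inv_coe (U : unitaryGroup (Fin n) ℂ) :
    (U : Matrix (Fin n) (Fin n) ℂ) *
    ((U⁻¹ : unitaryGroup (Fin n) ℂ) : Matrix (Fin n) (Fin n) ℂ) = 1 := by
  have : (((U * U⁻¹ : unitaryGroup (Fin n) ℂ)) : Matrix (Fin n) (Fin n) ℂ) = 1 := by
    rw [mul_inv_cancel]; rfl
  exact this

theorem dd_hl (U W : unitaryGroup (Fin n) ℂ) :
    dd hl U W = fr ((U : Matrix (Fin n) (Fin n) ℂ) - (W : Matrix (Fin n) (Fin n) ℂ)) := by
  unfold dd hl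
  rw [← fr_right W]
  congr 1
  have : ((U * W⁻¹ : unitaryGroup (Fin n) ℂ) : Matrix (Fin n) (Fin n) ℂ) =
    (U : Matrix (Fin n) (Fin n) ℂ) *
      ((W⁻¹ : unitaryGroup (Fin n) ℂ) : Matrix (Fin n) (Fin n) ℂ) := rfl
  rw [this, Matrix.sub_mul, Matrix.mul_assoc, inv_coe_mul, Matrix.mul_one, Matrix.one_mul]

theorem invLen_hl : InvLen (hl (n := n)) where
  one := by
    unfold hl
    have : (((1 : unitaryGroup (Fin n) ℂ)) : Matrix (Fin n) (Fin n) ℂ) = 1 := rfl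
    rw [this, sub_self]
    unfold fr
    have : vec' (0 : Matrix (Fin n) (Fin n) ℂ) = 0 := rfl
    rw [this, norm_zero]
  inv U := by
    unfold hl
    rw [← fr_right U, Matrix.sub_mul, inv_coe_mul, Matrix.one_mul, ← fr_neg, neg_sub]
  mul_le U W := by
    unfold hl
    have h1 : ((U * W : unitaryGroup (Fin n) ℂ) : Matrix (Fin n) (Fin n) ℂ) - 1 =
      ((U : Matrix (Fin n) (Fin n) ℂ) - 1) * (W : Matrix (Fin n) (Fin n) ℂ) +
        ((W : Matrix (Fin n) (Fin n) ℂ) - 1) := by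
      have : ((U * W : unitaryGroup (Fin n) ℂ) : Matrix (Fin n) (Fin n) ℂ) =
        (U : Matrix (Fin n) (Fin n) ℂ) * (W : Matrix (Fin n) (Fin n) ℂ) := rfl
      rw [this, Matrix.sub_mul, Matrix.one_mul]
      abel
    rw [h1]
    refine (fr_add_le _ _).trans ?_
    rw [fr_right]
  conj U W := by
    unfold hl
    have h1 : ((W * U * W⁻¹ : unitaryGroup (Fin n) ℂ) : Matrix (Fin n) (Fin n) ℂ) - 1 =
      (W : Matrix (Fin n) (Fin n) ℂ) * ((U : Matrix (Fin n) (Fin n) ℂ) - 1) *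
        ((W⁻¹ : unitaryGroup (Fin n) ℂ) : Matrix (Fin n) (Fin n) ℂ) := by
      have : ((W * U * W⁻¹ : unitaryGroup (Fin n) ℂ) : Matrix (Fin n) (Fin n) ℂ) =
        (W : Matrix (Fin n) (Fin n) ℂ) * (U : Matrix (Fin n) (Fin n) ℂ) *
          ((W⁻¹ : unitaryGroup (Fin n) ℂ) : Matrix (Fin n) (Fin n) ℂ) := rfl
      rw [this, Matrix.mul_sub, Matrix.sub_mul, Matrix.mul_one, mul_inv_coe]
    rw [h1, fr_right, fr_left]

/-- matrix multiplication as a bilinear map -/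
noncomputable def mm (n : ℕ) : EM n →ₗ[ℝ] EM n →ₗ[ℝ] EM n :=
  LinearMap.mk₂ ℝ (fun a b => vec' (mat' a * mat' b))
    (fun a b c => by rw [mat_add, Matrix.add_mul, vec_add])
    (fun c a b => by rw [mat_smul, Matrix.smul_mul, vec_smul])
    (fun a b c => by rw [mat_add, Matrix.mul_add, vec_add])
    (fun c a b => by rw [mat_smul, Matrix.mul_smul, vec_smul])

theorem mm_apply (a b : EM n) : mm n a b = vec' (mat' a * mat' b) := rfl

theorem mm_le (a b : EM n) : ‖mm n a b‖ ≤ ‖a‖ * ‖b‖ := fr_mul_le (mat' a) (mat' b)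

/-- the core estimate for unitary matrices -/
theorem core_unitary {I : Type*} [Fintype I] [DecidableEq I] (hn : 0 < n) (δ ρ : ℝ) (hδρ : δ ≤ ρ)
    (Φ : Heis (I → ZMod 2) → unitaryGroup (Fin n) ℂ)
    (hmul : ∀ g h, dd hl (Φ g * Φ h) (Φ (g * h)) ≤ δ * Real.sqrt n)
    (hmv : ∀ i, ρ * Real.sqrt n ≤ hl (Φ (Heis.Z (Pi.single i 1))))
    (L : ℕ) (hL : 4 * n ≤ 2 ^ L) :
    (Fintype.card I : ℝ) * ((ρ - δ) ^ 2 / 4 - δ ^ 2) ≤ L := by
  have hn' : (0 : ℝ) < n := by exact_mod_cast hn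
  refine core_heis (mm n) mm_le (Real.sqrt n) δ ρ (Real.sqrt_pos.2 hn') hδρ
    (fun g => vec' (Φ g : Matrix (Fin n) (Fin n) ℂ)) ?_ ?_ ?_ ?_ ?_ L ?_
  · intro g; exact fr_unitary (Φ g)
  · intro g a
    rw [mm_apply]
    exact le_of_eq (fr_left (Φ g) (mat' a))
  · intro g h
    exact fr_unitary (Φ g * Φ h)
  · intro g h
    have := hmul g h
    rw [dd_hl] at this
    exact this
  · intro g i
    refine (hmv i).trans (le_of_eq ?_)
    unfold hl
    rw [← fr_left (Φ g), Matrix.mul_sub, Matrix.mul_one]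
    rfl
  · rw [Real.sq_sqrt hn'.le]; exact_mod_cast hL

end Mat

end Pool.Agent.H27R2.VP.HL
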