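import Pool.Agent.H27R2.VP.HL5
import Pool.Agent.H27R2.VP.Abstract

set_option autoImplicit false
set_option linter.unusedSectionVars false

namespace Pool.Agent.H27R2.VP

open Finset Matrix HL

/-- the function `f` of Heisenberg elements as an element of the Heisenberg group of functions -/
def unH {I : Type*} (g : Heis (I → ZMod 2)) : I → Heis (ZMod 2) := fun i => ⟨g.x i, g.y i, g.z i⟩

theorem unH_mul {I : Type*} (g h : Heis (I → ZMod 2)) : unH (g * h) = unH g * unH h := rfl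

theorem unH_Z {I : Type*} [DecidableEq I] (i : I) :
    unH (Heis.Z (Pi.single i 1)) = Pi.mulSingle i (⟨0, 0, 1⟩ : Heis (ZMod 2)) := by
  funext j
  by_cases h : j = i
  · subst h
    rw [Pi.mulSingle_eq_same]
    simp [unH, Heis.Z]
  · rw [Pi.mulSingle_eq_of_ne h]
    simp only [unH, Heis.Z, Pi.zero_apply]
    rw [Pi.single_eq_of_ne h]
    rfl

def hx : Heis (ZMod 2) := ⟨1, 0, 0⟩
def hy : Heis (ZMod 2) := ⟨0, 1, 0⟩
def hz : Heis (ZMod 2) := ⟨0, 0, 1⟩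

theorem hz_mul : hz * (hy * hx) = hx * hy := by
  ext
  · rfl
  · rfl
  · change (1 : ZMod 2) + (0 + 0 + 1 * 1) + 0 * (0 + 1) = 0 + 0 + 0 * 0
    decide

variable {G : Type*} [Group G] [DecidableEq G]

/-- level `k` estimate for unitary groups -/
theorem level_HL (D : Data G (Heis (ZMod 2))) : ∃ E : Finset G, ∃ C : ℝ, 0 < C ∧
    ∀ (n : ℕ) (ε ρ : ℝ) (φ : G → unitaryGroup (Fin n) ℂ), 0 < n → 0 ≤ ε →
      (∀ g ∈ E, ∀ h ∈ E, dd hl (φ g * φ h) (φ (g * h)) ≤ ε * Real.sqrt n) →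
      ρ * Real.sqrt n ≤ hl (φ (D.w0 hx hy)) →
      ∀ k : ℕ, 36 ^ k * C * ε ≤ ρ → ∀ L : ℕ, 4 * n ≤ 2 ^ L → 2 ^ k * ρ ^ 2 / 6 ≤ L := by
  obtain ⟨E, C, hC, H⟩ := D.exists_model hx hy
  refine ⟨E, 30 * C, by positivity, ?_⟩
  intro n ε ρ φ hn hε hE hρ k hk L hL
  have hn' : (0 : ℝ) < n := by exact_mod_cast hn
  set r := Real.sqrt n with hr
  have hr0 : 0 < r := Real.sqrt_pos.2 hn'
  obtain ⟨M, hm⟩ := H _ hl φ (ε * r) invLen_hl (by positivity) hE
  set π := FreeGroup.lift (fun z => φ (D.ev z)) with hπ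
  set e := C * (ε * r) with he
  have he0 : 0 ≤ e := by positivity
  have hm' : ∀ j, ρ * r - e ≤ dd hl (π (Data.τ _ j (Data.wS (hx * hy))))
      (π (Data.τ _ j (Data.wS (hy * hx)))) := by
    intro j
    have := hm j
    linarith
  have h3 : (3 : ℝ) ^ k ≤ 36 ^ k := by gcongr; norm_num
  have h1 : (1 : ℝ) ≤ 36 ^ k := one_le_pow₀ (by norm_num)
  -- the map on the power
  set Φ0 : ((Fin k → Bool) → Heis (ZMod 2)) → unitaryGroup (Fin n) ℂ :=
    fun f => π (Data.τ _ false (W (Data.τ _) Data.wS k f)) with hΦ0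
  have huni : ∀ f g, dd hl (Φ0 f * Φ0 g) (Φ0 (f * g)) ≤ 36 ^ k * e := M.uniform k false
  set δ := 36 ^ k * (C * ε) with hδ
  have hδe : 36 ^ k * e = δ * r := by rw [hδ, he]; ring
  have hδ0 : 0 ≤ δ := by positivity
  have hδρ : 30 * δ ≤ ρ := by
    have : 36 ^ k * (30 * C) * ε = 30 * δ := by rw [hδ]; ring
    linarith
  -- displacement of the central elements
  have hdisp : ∀ i : Fin k → Bool, (ρ - 3 * δ) * r ≤ hl (Φ0 (Pi.mulSingle i hz)) := by
    intro i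
    have a1 := M.moved (ρ * r - e) (Data.wS (hx * hy)) (Data.wS (hy * hx)) (M.wn _) (M.wn _) hm'
        k i false
    rw [← M.W_single, ← M.W_single] at a1
    have a2 := huni (Pi.mulSingle i hz) (Pi.mulSingle i (hy * hx))
    rw [← Pi.mulSingle_mul, hz_mul] at a2
    have a3 := invLen_hl.dd_tri (Φ0 (Pi.mulSingle i (hx * hy)))
      (Φ0 (Pi.mulSingle i hz) * Φ0 (Pi.mulSingle i (hy * hx))) (Φ0 (Pi.mulSingle i (hy * hx)))
    have a4 : dd hl (Φ0 (Pi.mulSingle i hz) * Φ0 (Pi.mulSingle i (hy * hx)))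
        (Φ0 (Pi.mulSingle i (hy * hx))) = hl (Φ0 (Pi.mulSingle i hz)) := by
      unfold dd
      rw [mul_inv_cancel_right]
    rw [a4] at a3
    rw [invLen_hl.dd_comm] at a2
    have a5 : e + 3 ^ k * e + 36 ^ k * e ≤ 3 * (36 ^ k * e) := by nlinarith
    have a6 : ρ * r - e - 3 ^ k * e ≤ dd hl (Φ0 (Pi.mulSingle i (hx * hy)))
      (Φ0 (Pi.mulSingle i (hy * hx))) := a1
    rw [hδe] at a5 a2
    nlinarith
  have hcore := core_unitary (I := Fin k → Bool) hn δ (ρ - 3 * δ) (by linarith)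
    (fun g => Φ0 (unH g)) (fun g h => by
      rw [← hδe, unH_mul]; exact huni _ _) (fun i => by
      rw [unH_Z]; exact hdisp i) L hL
  have hcard : (Fintype.card (Fin k → Bool) : ℝ) = 2 ^ k := by simp
  rw [hcard] at hcore
  refine le_trans ?_ hcore
  have hρ0 : 0 ≤ ρ := by linarith
  have hk2 : (0 : ℝ) < 2 ^ k := by positivity
  have : ρ ^ 2 / 6 ≤ (ρ - 3 * δ - δ) ^ 2 / 4 - δ ^ 2 := by nlinarith
  calc 2 ^ k * ρ ^ 2 / 6 = 2 ^ k * (ρ ^ 2 / 6) := by ring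
    _ ≤ _ := by gcongr

/-- level `k` estimate for arbitrary finite groups with an invariant length -/
theorem level_WS {S : Type*} [Group S] [DecidableEq S] [Fintype S] (D : Data G S) (s t : S) :
    ∃ E : Finset G, ∃ C : ℝ, 0 < C ∧
    ∀ (T : Type) [Group T] [Fintype T] (ℓ : T → ℝ) (ε ρ : ℝ) (φ : G → T), InvLen ℓ → 0 ≤ ε →
      (∀ g ∈ E, ∀ h ∈ E, dd ℓ (φ g * φ h) (φ (g * h)) ≤ ε) →
      ρ ≤ ℓ (φ (D.w0 s t)) →
      ∀ k : ℕ, 36 ^ k * C * ε < ρ → 2 ^ (2 ^ k) ≤ Fintype.card T := by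
  classical
  obtain ⟨E, C, hC, H⟩ := D.exists_model s t
  refine ⟨E, 8 * C, by positivity, ?_⟩
  intro T _ _ ℓ ε ρ φ hℓ hε hE hρ k hk
  obtain ⟨M, hm⟩ := H _ ℓ φ ε hℓ hε hE
  set π := FreeGroup.lift (fun z => φ (D.ev z)) with hπ
  set e := C * ε with he
  have he0 : 0 ≤ e := by positivity
  have hm' : ∀ j, ρ - e ≤ dd ℓ (π (Data.τ _ j (Data.wS (s * t))))
      (π (Data.τ _ j (Data.wS (t * s)))) := by
    intro j
    have := hm j
    linarith
  have h3 : (3 : ℝ) ^ k ≤ 36 ^ k := by gcongr; norm_num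
  have h1 : (1 : ℝ) ≤ 36 ^ k := one_le_pow₀ (by norm_num)
  set Φ : ((Fin k → Bool) → S) → T :=
    fun f => π (Data.τ _ false (W (Data.τ _) Data.wS k f)) with hΦ
  have huni : ∀ f g, dd ℓ (Φ f * Φ g) (Φ (f * g)) ≤ 36 ^ k * e := M.uniform k false
  set δ := 36 ^ k * e with hδ
  have hδ0 : 0 ≤ δ := by positivity
  have hδρ : 8 * δ < ρ := by
    have : 36 ^ k * (8 * C) * ε = 8 * δ := by rw [hδ, he]; ring
    linarith
  -- the elements a_P
  set aP : Finset (Fin k → Bool) → ((Fin k → Bool) → S) := fun P i => if i ∈ P then s else 1 with haP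
  have key : ∀ P Q : Finset (Fin k → Bool), ∀ i, i ∈ P → i ∉ Q → Φ (aP P) ≠ Φ (aP Q) := by
    intro P Q i hiP hiQ heq
    set b : (Fin k → Bool) → S := Pi.mulSingle i t with hb
    have c1 : aP Q * b = b * aP Q := by
      funext j
      simp only [Pi.mul_apply, hb]
      by_cases hj : j = i
      · subst hj
        simp [haP, hiQ]
      · rw [Pi.mulSingle_eq_of_ne hj, mul_one, one_mul]
    set a' := aP (P.erase i) with ha'
    have c2 : aP P * b = Pi.mulSingle i (s * t) * a' := by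
      funext j
      simp only [Pi.mul_apply, hb, ha', haP]
      by_cases hj : j = i
      · subst hj; simp [hiP]
      · rw [Pi.mulSingle_eq_of_ne hj, Pi.mulSingle_eq_of_ne hj, mul_one, one_mul]
        simp [hj]
    have c3 : b * aP P = Pi.mulSingle i (t * s) * a' := by
      funext j
      simp only [Pi.mul_apply, hb, ha', haP]
      by_cases hj : j = i
      · subst hj; simp [hiP]
      · rw [Pi.mulSingle_eq_of_ne hj, Pi.mulSingle_eq_of_ne hj, one_mul, one_mul]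
        simp [hj]
    have d1 := huni (aP P) b
    have d2 := huni (aP Q) b
    have d3 := huni b (aP Q)
    have d4 := huni b (aP P)
    rw [← heq] at d2 d3
    rw [c1] at d2
    have f1 := hℓ.dd_tri (Φ (aP P * b)) (Φ (aP P) * Φ b) (Φ (b * aP Q))
    have f2 := hℓ.dd_tri (Φ (aP P * b)) (Φ (b * aP Q)) (Φ b * Φ (aP P))
    have f3 := hℓ.dd_tri (Φ (aP P * b)) (Φ b * Φ (aP P)) (Φ (b * aP P))
    rw [hℓ.dd_comm] at d1 d3
    have f4 : dd ℓ (Φ (aP P * b)) (Φ (b * aP P)) ≤ 4 * δ := by linarith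
    rw [c2, c3] at f4
    have g1 := huni (Pi.mulSingle i (s * t)) a'
    have g2 := huni (Pi.mulSingle i (t * s)) a'
    have g3 := hℓ.dd_tri (Φ (Pi.mulSingle i (s * t)) * Φ a') (Φ (Pi.mulSingle i (s * t) * a'))
      (Φ (Pi.mulSingle i (t * s)) * Φ a')
    have g4 := hℓ.dd_tri (Φ (Pi.mulSingle i (s * t) * a')) (Φ (Pi.mulSingle i (t * s) * a'))
      (Φ (Pi.mulSingle i (t * s)) * Φ a')
    rw [hℓ.dd_comm] at g2
    rw [hℓ.dd_mul_right] at g3
    have a1 := M.moved (ρ - e) (Data.wS (s * t)) (Data.wS (t * s)) (M.wn _) (M.wn _) hm'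
        k i false
    rw [← M.W_single, ← M.W_single] at a1
    have a6 : ρ - e - 3 ^ k * e ≤ dd ℓ (Φ (Pi.mulSingle i (s * t)))
      (Φ (Pi.mulSingle i (t * s))) := a1
    have a5 : e + 3 ^ k * e ≤ 2 * δ := by nlinarith
    linarith
  have hinj : Function.Injective (fun P : Finset (Fin k → Bool) => Φ (aP P)) := by
    intro P Q hPQ
    by_contra hne
    have : (∃ i, i ∈ P ∧ i ∉ Q) ∨ (∃ i, i ∈ Q ∧ i ∉ P) := by
      by_contra hcon
      push Not at hcon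
      exact hne (Finset.Subset.antisymm hcon.1 hcon.2)
    rcases this with ⟨i, h1, h2⟩ | ⟨i, h1, h2⟩
    · exact key P Q i h1 h2 hPQ
    · exact key Q P i h1 h2 hPQ.symm
  have := Fintype.card_le_of_injective _ hinj
  rw [Fintype.card_finset] at this
  simpa using this

/-- numerics -/
theorem choose_k {A b ε X : ℝ} (hA : 0 < A) (hb : 0 < b) (hε : 0 < ε) (hAε : A * ε ≤ 1)
    (h : ∀ k : ℕ, 36 ^ k * (A * ε) ≤ 1 → b * 2 ^ k ≤ X) :
    b / 2 * A ^ (-(1 / 6) : ℝ) * ε ^ (-(1 / 6) : ℝ) ≤ X := by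
  have hx : 1 ≤ 1 / (A * ε) := by
    rw [le_div_iff₀ (by positivity)]; linarith
  obtain ⟨k, hk1, hk2⟩ := exists_nat_pow_near hx (show (1 : ℝ) < 64 by norm_num)
  have hk3 : 36 ^ k * (A * ε) ≤ 1 := by
    have a1 : (64 : ℝ) ^ k * (A * ε) ≤ 1 := by
      rwa [le_div_iff₀ (by positivity)] at hk1
    have a2 : (36 : ℝ) ^ k ≤ 64 ^ k := by gcongr; norm_num
    exact le_trans (by gcongr) a1
  have hb' := h k hk3
  have hk4 : (1 / (A * ε)) ^ ((1 / 6 : ℝ)) ≤ 2 * 2 ^ k := by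
    have b1 : (1 / (A * ε)) ^ ((1 / 6 : ℝ)) ≤ ((64 : ℝ) ^ (k + 1)) ^ ((1 / 6 : ℝ)) := by
      apply Real.rpow_le_rpow (by positivity) hk2.le (by norm_num)
    have b2 : ((64 : ℝ) ^ (k + 1)) ^ ((1 / 6 : ℝ)) = 2 ^ (k + 1) := by
      have : (64 : ℝ) ^ (k + 1) = ((2 : ℝ) ^ (k + 1)) ^ (6 : ℕ) := by
        rw [← pow_mul, mul_comm (k + 1) 6, pow_mul]; norm_num
      rw [this, ← Real.rpow_natCast, ← Real.rpow_mul (by positivity)]
      norm_num
    rw [b2, pow_succ] at b1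
    linarith
  have hk5 : (1 / (A * ε)) ^ ((1 / 6 : ℝ)) = A ^ (-(1 / 6) : ℝ) * ε ^ (-(1 / 6) : ℝ) := by
    rw [one_div, Real.inv_rpow (by positivity), Real.mul_rpow hA.le hε.le, mul_inv,
      Real.rpow_neg hA.le, Real.rpow_neg hε.le]
  rw [hk5] at hk4
  calc b / 2 * A ^ (-(1 / 6) : ℝ) * ε ^ (-(1 / 6) : ℝ)
      = b / 2 * (A ^ (-(1 / 6) : ℝ) * ε ^ (-(1 / 6) : ℝ)) := by ring
    _ ≤ b / 2 * (2 * 2 ^ k) := by gcongr
    _ = b * 2 ^ k := by ring
    _ ≤ X := hb'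

end Pool.Agent.H27R2.VP
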