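import Pool.Agent.H27R2.VP.HL6
import Pool.Agent.H27R2.VP.FinalS

set_option autoImplicit false
set_option linter.unusedSectionVars false

namespace Pool.Agent.H27R2.VP

open Finset Matrix HL Pool.Agent.Helper283.ThV

/-- the Heisenberg group acting on the plane -/
def hP (g : Heis (ZMod 2)) : Equiv.Perm (ZMod 2 × ZMod 2) where
  toFun p := (p.1 + g.x, p.2 + g.y * p.1 + g.z)
  invFun p := (p.1 + -g.x, p.2 + -g.y * p.1 + (-g.z + g.y * g.x))
  left_inv p := by
    refine Prod.ext ?_ ?_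
    · change p.1 + g.x + -g.x = p.1
      ring
    · change p.2 + g.y * p.1 + g.z + -g.y * (p.1 + g.x) + (-g.z + g.y * g.x) = p.2
      ring
  right_inv p := by
    refine Prod.ext ?_ ?_
    · change p.1 + -g.x + g.x = p.1
      ring
    · change p.2 + -g.y * p.1 + (-g.z + g.y * g.x) + g.y * (p.1 + -g.x) + g.z = p.2
      ring

def hPhom : Heis (ZMod 2) →* Equiv.Perm (ZMod 2 × ZMod 2) where
  toFun := hP
  map_one' := by
    apply Equiv.ext
    intro p
    refine Prod.ext ?_ ?_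
    · change p.1 + 0 = p.1
      ring
    · change p.2 + 0 * p.1 + 0 = p.2
      ring
  map_mul' g h := by
    apply Equiv.ext
    intro p
    refine Prod.ext ?_ ?_
    · change p.1 + (g.x + h.x) = p.1 + h.x + g.x
      ring
    · change p.2 + (g.y + h.y) * p.1 + (g.z + h.z + g.y * h.x) =
        p.2 + h.y * p.1 + h.z + g.y * (p.1 + h.x) + g.z
      ring

theorem hP_z : hPhom hz ≠ 1 := by
  intro h
  have := congrArg (fun σ : Equiv.Perm (ZMod 2 × ZMod 2) => (σ (0, 0)).2) h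
  change (0 : ZMod 2) + 0 * 0 + 1 = 0 at this
  revert this
  decide

def e22 : ZMod 2 × ZMod 2 ≃ Bool × Bool := Equiv.prodCongr finTwoEquiv finTwoEquiv

def hS : Heis (ZMod 2) →* S4 := (Equiv.permCongrHom e22).toMonoidHom.comp hPhom

theorem hS_z : hS hz ≠ 1 := by
  intro h
  apply hP_z
  have h1 : (Equiv.permCongrHom e22) (hPhom hz) = (Equiv.permCongrHom e22) 1 := by
    rw [map_one]; exact h
  exact (Equiv.permCongrHom e22).injective h1

/-- the data for Thompson's group `V`, with the Heisenberg group -/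
def dataH : Data V (Heis (ZMod 2)) where
  ι := iV
  lam := lV
  θ := tV
  jS := sV.comp hS
  comm := iV_comm
  conj := lV_conj
  th := tV_conj

theorem w0H_ne : dataH.w0 hx hy ≠ 1 := by
  intro h
  have h0 : hx * hy * (hy * hx)⁻¹ = hz := by
    rw [mul_inv_eq_iff_eq_mul]; exact hz_mul.symm
  have h1 : iV false (sV (hS (hx * hy * (hy * hx)⁻¹))) = iV false (sV 1) := by
    rw [map_one, map_one]; exact h
  have h2 := sV_injective (iV_injective false h1)
  rw [h0] at h2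
  exact hS_z h2

open Classical in
theorem Q_allH (w : V) : Q (dataH.w0 hx hy) w := by
  have h := eq_top_of_mem (QS_normal (dataH.w0 hx hy)) (mem_QS _) w0H_ne
  have h2 : w ∈ QS (dataH.w0 hx hy) := by rw [h]; trivial
  exact h2

open Classical in
/-- lower bound for almost representations of `V` by unitary matrices -/
theorem finalH (w : V) : ∃ E : Finset V, ∀ ρ : ℝ, 0 < ρ → ∃ c : ℝ, 0 < c ∧ ∃ ε₀ : ℝ, 0 < ε₀ ∧
    ∀ (n : ℕ) (ε : ℝ) (φ : V → unitaryGroup (Fin n) ℂ), 0 < n → 0 < ε → ε ≤ ε₀ →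
      (∀ g ∈ E, ∀ h ∈ E, dd hl (φ g * φ h) (φ (g * h)) ≤ ε * Real.sqrt n) →
      ρ * Real.sqrt n ≤ hl (φ w) →
      Real.exp (c * ε ^ (-(1 / 6) : ℝ)) ≤ n := by
  obtain ⟨E1, C1, hC1, H1⟩ := level_HL dataH
  obtain ⟨E2, R, C, hR, hC, H2⟩ := Q_allH w
  refine ⟨E1 ∪ E2, fun ρ hρ => ?_⟩
  set ρ1 : ℝ := ρ / (2 * (R + 1)) with hρ1
  have hρ1p : 0 < ρ1 := by positivity
  set A : ℝ := C1 / ρ1 + 2 * (C + 1) / ρ with hA
  have hA1 : 0 < C1 / ρ1 := by positivity
  have hA2 : 0 < 2 * (C + 1) / ρ := by positivity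
  have hAp : 0 < A := by positivity
  set b : ℝ := ρ1 ^ 2 / 6 with hb
  have hbp : 0 < b := by positivity
  have hlog2 : 0 < Real.log 2 := Real.log_pos (by norm_num)
  set c0 : ℝ := b / 2 * A ^ (-(1 / 6) : ℝ) with hc0
  have hc0p : 0 < c0 := by
    have := Real.rpow_pos_of_pos hAp (-(1 / 6) : ℝ)
    positivity
  refine ⟨c0 * Real.log 2 / 2, by positivity, min (1 / A) ((c0 / 6) ^ 6), by positivity, ?_⟩
  intro n ε φ hn hε hε0 hE hmv
  have hn' : (0 : ℝ) < n := by exact_mod_cast hn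
  have hr0 : 0 < Real.sqrt n := Real.sqrt_pos.2 hn'
  have hAε : A * ε ≤ 1 := by
    have : ε ≤ 1 / A := hε0.trans (min_le_left _ _)
    rw [le_div_iff₀ hAp] at this
    linarith
  have hAε1 : C1 / ρ1 * ε ≤ A * ε := by
    apply mul_le_mul_of_nonneg_right _ hε.le
    linarith
  have hAε2 : 2 * (C + 1) / ρ * ε ≤ 1 := by
    refine le_trans ?_ hAε
    apply mul_le_mul_of_nonneg_right _ hε.le
    linarith
  have hq := H2 _ hl φ (ε * Real.sqrt n) invLen_hl (by positivity)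
    (fun g hg h hh => hE g (mem_union_right _ hg) h (mem_union_right _ hh))
  have h1 : C * ε ≤ ρ / 2 := by
    have : 2 * (C + 1) / ρ * ε = (2 * ((C + 1) * ε)) / ρ := by ring
    rw [this, div_le_one hρ] at hAε2
    nlinarith
  have h2 : ρ1 * Real.sqrt n ≤ hl (φ (dataH.w0 hx hy)) := by
    have e3 : 0 ≤ hl (φ (dataH.w0 hx hy)) := invLen_hl.nonneg _
    have e4 : ρ / 2 * Real.sqrt n ≤ (R + 1) * hl (φ (dataH.w0 hx hy)) := by
      have : C * (ε * Real.sqrt n) ≤ ρ / 2 * Real.sqrt n := by nlinarith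
      nlinarith
    have e5 : ρ1 * Real.sqrt n = (ρ / 2 * Real.sqrt n) / (R + 1) := by
      rw [hρ1]; field_simp
    rw [e5, div_le_iff₀ (by positivity)]
    linarith
  set L := Nat.clog 2 (4 * n) with hL
  have hL1 : 4 * n ≤ 2 ^ L := Nat.le_pow_clog (by norm_num) _
  have hL2 : (L : ℝ) ≤ 3 + Real.log n / Real.log 2 := by
    have d1 : 2 ^ (L - 1) < 4 * n := by
      apply Nat.pow_pred_clog_lt_self (by norm_num)
      omega
    have hL0 : 1 ≤ L := by
      by_contra hcon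
      have : L = 0 := by omega
      rw [this] at hL1
      omega
    have d2 : (2 : ℝ) ^ (L - 1) ≤ 4 * n := by exact_mod_cast d1.le
    have d3 : (2 : ℝ) ^ L ≤ 8 * n := by
      have : (2 : ℝ) ^ L = 2 ^ (L - 1) * 2 := by
        rw [← pow_succ]; congr 1; omega
      rw [this]; linarith
    have d4 := Real.log_le_log (by positivity) d3
    rw [Real.log_pow, Real.log_mul (by norm_num) hn'.ne'] at d4
    have d5 : Real.log 8 = 3 * Real.log 2 := by
      rw [show (8 : ℝ) = 2 ^ 3 by norm_num, Real.log_pow]; norm_num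
    rw [d5] at d4
    have d6 : 3 + Real.log n / Real.log 2 = (3 * Real.log 2 + Real.log n) / Real.log 2 := by
      field_simp
    rw [d6, le_div_iff₀ hlog2]
    exact d4
  have h3 := choose_k (A := A) (b := b) (ε := ε) (X := 3 + Real.log n / Real.log 2) hAp hbp hε hAε
    (fun k hk => by
      have := H1 n ε ρ1 φ hn hε.le
        (fun g hg h hh => hE g (mem_union_left _ hg) h (mem_union_left _ hh)) h2 k (by
          have p1 : (36 : ℝ) ^ k * (C1 / ρ1 * ε) ≤ 1 := le_trans (by gcongr) hk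
          have p2 : (36 : ℝ) ^ k * (C1 / ρ1 * ε) = (36 ^ k * C1 * ε) / ρ1 := by ring
          rw [p2, div_le_one hρ1p] at p1
          exact p1) L hL1
      refine le_trans (le_of_eq ?_) (this.trans hL2)
      rw [hb]; ring)
  rw [← hc0] at h3
  -- absorb the constant
  have h4 : 6 ≤ c0 * ε ^ (-(1 / 6) : ℝ) := by
    have p1 : ε ≤ (c0 / 6) ^ 6 := hε0.trans (min_le_right _ _)
    have p2 : ε ^ ((1 / 6 : ℝ)) ≤ c0 / 6 := by
      have := Real.rpow_le_rpow hε.le p1 (show (0 : ℝ) ≤ 1 / 6 by norm_num)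
      refine this.trans (le_of_eq ?_)
      rw [← Real.rpow_natCast, ← Real.rpow_mul (by positivity)]
      norm_num
    have p3 : 0 < ε ^ ((1 / 6 : ℝ)) := Real.rpow_pos_of_pos hε _
    rw [Real.rpow_neg hε.le, ← div_eq_mul_inv, le_div_iff₀ p3]
    linarith
  rw [← Real.le_log_iff_exp_le hn']
  have h5 : c0 * ε ^ (-(1 / 6) : ℝ) / 2 ≤ Real.log n / Real.log 2 := by linarith
  rw [le_div_iff₀ hlog2] at h5
  calc c0 * Real.log 2 / 2 * ε ^ (-(1 / 6) : ℝ) = c0 * ε ^ (-(1 / 6) : ℝ) / 2 * Real.log 2 := by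
        ring
    _ ≤ _ := h5

open Classical in
/-- lower bound for almost homomorphisms of `V` to finite groups with an invariant length -/
theorem finalW (w : V) : ∃ E : Finset V, ∀ ρ : ℝ, 0 < ρ → ∃ c : ℝ, 0 < c ∧ ∃ ε₀ : ℝ, 0 < ε₀ ∧
    ∀ (T : Type) [Group T] [Fintype T] (ℓ : T → ℝ) (ε : ℝ) (φ : V → T), InvLen ℓ → 0 < ε →
      ε ≤ ε₀ →
      (∀ g ∈ E, ∀ h ∈ E, dd ℓ (φ g * φ h) (φ (g * h)) ≤ ε) →
      ρ ≤ ℓ (φ w) →
      Real.exp (c * ε ^ (-(1 / 6) : ℝ)) ≤ Fintype.card T := by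
  obtain ⟨E1, C1, hC1, H1⟩ := level_WS dataH hx hy
  obtain ⟨E2, R, C, hR, hC, H2⟩ := Q_allH w
  refine ⟨E1 ∪ E2, fun ρ hρ => ?_⟩
  set ρ1 : ℝ := ρ / (2 * (R + 1)) with hρ1
  have hρ1p : 0 < ρ1 := by positivity
  set A : ℝ := 2 * C1 / ρ1 + 2 * (C + 1) / ρ with hA
  have hA1 : 0 < 2 * C1 / ρ1 := by positivity
  have hA2 : 0 < 2 * (C + 1) / ρ := by positivity
  have hAp : 0 < A := by positivity
  have hlog2 : 0 < Real.log 2 := Real.log_pos (by norm_num)
  refine ⟨Real.log 2 / 2 * A ^ (-(1 / 6) : ℝ), by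
    have := Real.rpow_pos_of_pos hAp (-(1 / 6) : ℝ)
    positivity, 1 / A, by positivity, ?_⟩
  intro T _ _ ℓ ε φ hℓ hε hε0 hE hmv
  have hT : (0 : ℝ) < Fintype.card T := by
    exact_mod_cast Fintype.card_pos_iff.2 ⟨1⟩
  have hAε : A * ε ≤ 1 := by
    rw [le_div_iff₀ hAp] at hε0
    linarith
  have hAε1 : 2 * C1 / ρ1 * ε ≤ A * ε := by
    apply mul_le_mul_of_nonneg_right _ hε.le
    linarith
  have hAε2 : 2 * (C + 1) / ρ * ε ≤ 1 := by
    refine le_trans ?_ hAε
    apply mul_le_mul_of_nonneg_right _ hε.le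
    linarith
  have hq := H2 _ ℓ φ ε hℓ hε.le
    (fun g hg h hh => hE g (mem_union_right _ hg) h (mem_union_right _ hh))
  have h1 : C * ε ≤ ρ / 2 := by
    have : 2 * (C + 1) / ρ * ε = (2 * ((C + 1) * ε)) / ρ := by ring
    rw [this, div_le_one hρ] at hAε2
    nlinarith
  have h2 : ρ1 ≤ ℓ (φ (dataH.w0 hx hy)) := by
    have e3 : 0 ≤ ℓ (φ (dataH.w0 hx hy)) := hℓ.nonneg _
    have e4 : ρ / 2 ≤ (R + 1) * ℓ (φ (dataH.w0 hx hy)) := by nlinarith
    have e5 : ρ1 = (ρ / 2) / (R + 1) := by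
      rw [hρ1]; field_simp
    rw [e5, div_le_iff₀ (by positivity)]
    linarith
  have h3 := choose_k (A := A) (b := Real.log 2) (ε := ε) (X := Real.log (Fintype.card T))
    hAp hlog2 hε hAε (fun k hk => by
      have := H1 T ℓ ε ρ1 φ hℓ hε.le
        (fun g hg h hh => hE g (mem_union_left _ hg) h (mem_union_left _ hh)) h2 k (by
          have p1 : (36 : ℝ) ^ k * (2 * C1 / ρ1 * ε) ≤ 1 := le_trans (by gcongr) hk
          have p2 : (36 : ℝ) ^ k * (2 * C1 / ρ1 * ε) = (2 * (36 ^ k * C1 * ε)) / ρ1 := by ring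
          rw [p2, div_le_one hρ1p] at p1
          have p3 : 0 < (36 : ℝ) ^ k * C1 * ε := by positivity
          linarith)
      have q1 : ((2 : ℝ) ^ (2 ^ k)) ≤ Fintype.card T := by exact_mod_cast this
      have q2 := Real.log_le_log (by positivity) q1
      rw [Real.log_pow] at q2
      push_cast at q2
      linarith)
  rw [← Real.le_log_iff_exp_le hT]
  exact h3

end Pool.Agent.H27R2.VP
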