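import Pool.Agent.H27R2.VP.Abstract

set_option autoImplicit false
set_option linter.unusedSectionVars false

namespace Pool.Agent.H27R2.VP

open Finset

section PermLen

variable {X : Type*} [Fintype X] [DecidableEq X]

/-- number of moved points -/
def mv (σ : Equiv.Perm X) : ℝ := ((univ.filter (fun x => σ x ≠ x)).card : ℝ)

theorem dd_mv (a b : Equiv.Perm X) :
    dd mv a b = ((univ.filter (fun x => a x ≠ b x)).card : ℝ) := by
  unfold dd mv
  norm_cast
  refine Finset.card_bij (fun x _ => b⁻¹ x) ?_ ?_ ?_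
  · intro x hx
    rw [mem_filter] at hx ⊢
    refine ⟨mem_univ _, ?_⟩
    have e : b (b⁻¹ x) = x := b.apply_symm_apply x
    rw [e]
    exact hx.2
  · intro x _ y _ h; exact (b⁻¹).injective h
  · intro y hy
    refine ⟨b y, ?_, by simp⟩
    rw [mem_filter] at hy ⊢
    refine ⟨mem_univ _, ?_⟩
    have e : b⁻¹ (b y) = y := b.symm_apply_apply y
    rw [Equiv.Perm.mul_apply, e]
    exact hy.2

theorem invLen_mv : InvLen (mv (X := X)) where
  one := by simp [mv]
  inv σ := by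
    have h := dd_mv (1 : Equiv.Perm X) σ
    have h2 := dd_mv σ (1 : Equiv.Perm X)
    unfold dd at h h2
    rw [one_mul] at h
    rw [inv_one, mul_one] at h2
    rw [h, h2]
    congr 2
    ext x
    rw [mem_filter, mem_filter]
    simp [eq_comm]
  mul_le σ τ := by
    unfold mv
    norm_cast
    refine (card_le_card ?_).trans (card_union_le _ _)
    intro x hx
    rw [mem_filter] at hx
    rw [mem_union, mem_filter, mem_filter]
    by_contra hcon
    push Not at hcon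
    apply hx.2
    rw [Equiv.Perm.mul_apply, hcon.2 (mem_univ _), hcon.1 (mem_univ _)]
  conj σ h := by
    unfold mv
    norm_cast
    refine Finset.card_bij (fun x _ => h⁻¹ x) ?_ ?_ ?_
    · intro x hx
      rw [mem_filter] at hx ⊢
      refine ⟨mem_univ _, fun e => hx.2 ?_⟩
      rw [Equiv.Perm.mul_apply, Equiv.Perm.mul_apply, e]
      exact h.apply_symm_apply x
    · intro x _ y _ e; exact (h⁻¹).injective e
    · intro y hy
      refine ⟨h y, ?_, by simp⟩
      rw [mem_filter] at hy ⊢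
      refine ⟨mem_univ _, fun e => hy.2 ?_⟩
      have e' : h⁻¹ (h y) = y := h.symm_apply_apply y
      rw [Equiv.Perm.mul_apply, Equiv.Perm.mul_apply, e'] at e
      exact h.injective e

end PermLen

variable {G S : Type*} [Group G] [Group S] [DecidableEq G] [DecidableEq S] [Fintype S]

theorem level_bound (D : Data G S) (s t : S) : ∃ E : Finset G, ∃ C : ℝ, 0 < C ∧
    ∀ (n : ℕ) (ε ρ : ℝ) (φ : G → Equiv.Perm (Fin n)), 0 < n → 0 ≤ ε →
      (∀ g ∈ E, ∀ h ∈ E,
        ((univ.filter (fun x => φ g (φ h x) ≠ φ (g * h) x)).card : ℝ) ≤ ε * n) →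
      ρ * n ≤ ((univ.filter (fun x => φ (D.w0 s t) x ≠ x)).card : ℝ) →
      ∀ k : ℕ, 48 * 36 ^ k * C * ε ≤ ρ → 2 ^ k * ρ / 4 ≤ Nat.log 2 (2 * n) := by
  obtain ⟨E, C, hC, H⟩ := D.exists_model s t
  refine ⟨E, C, hC, ?_⟩
  intro n ε ρ φ hn hε hE hρ k hk
  have hn' : (0 : ℝ) < n := by exact_mod_cast hn
  have hN : Near mv φ E (ε * n) := by
    intro g hg h hh
    rw [dd_mv]
    exact hE g hg h hh
  obtain ⟨M, hm⟩ := H _ mv φ (ε * n) invLen_mv (by positivity) hN
  set π := FreeGroup.lift (fun z => φ (D.ev z)) with hπ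
  set e := C * (ε * n) with he
  have he0 : 0 ≤ e := by positivity
  have hm' : ∀ j, ρ * n - e ≤ dd mv (π (Data.τ S j (Data.wS (s * t))))
      (π (Data.τ S j (Data.wS (t * s)))) := by
    intro j
    have := hm j
    have h2 : ρ * n ≤ mv (φ (D.w0 s t)) := hρ
    linarith
  let Φ : ((Fin k → Bool) → S) → Equiv.Perm (Fin n) :=
    fun f => π (Data.τ S false (W (Data.τ S) Data.wS k f))
  have hcore := core Φ (36 ^ k * e) (fun f g => by
      have := M.uniform k false f g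
      rw [dd_mv] at this
      exact this) s t (ρ * n - e - 3 ^ k * e) (fun γ => by
      have := M.moved (ρ * n - e) (Data.wS (s * t)) (Data.wS (t * s)) (M.wn _) (M.wn _) hm'
        k γ false
      rw [dd_mv] at this
      simp only [Φ]
      rw [M.W_single, M.W_single]
      exact this)
  have hcard : Fintype.card (Fin k → Bool) = 2 ^ k := by simp
  rw [hcard, Fintype.card_fin] at hcore
  push_cast at hcore
  have h3 : (3 : ℝ) ^ k ≤ 36 ^ k := by gcongr; norm_num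
  have h1 : (1 : ℝ) ≤ 36 ^ k := one_le_pow₀ (by norm_num)
  have h2 : (0 : ℝ) < 2 ^ k := by positivity
  have e1 : e + 3 ^ k * e + 22 * (36 ^ k * e) ≤ 24 * 36 ^ k * e := by nlinarith
  have e2 : 24 * 36 ^ k * e ≤ ρ * n / 2 := by
    rw [he]
    have : 48 * 36 ^ k * C * ε * n ≤ ρ * n := by gcongr
    linarith
  have e3 : (2 : ℝ) ^ k * (ρ * n / 2) ≤ 2 * n * Nat.log 2 (2 * n) := by
    have : (2 : ℝ) ^ k * (ρ * n - e - 3 ^ k * e) - 22 * 2 ^ k * (36 ^ k * e) =
      2 ^ k * (ρ * n - (e + 3 ^ k * e + 22 * (36 ^ k * e))) := by ring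
    have h4 : (2 : ℝ) ^ k * (ρ * n / 2) ≤
      2 ^ k * (ρ * n - (e + 3 ^ k * e + 22 * (36 ^ k * e))) := by
      apply mul_le_mul_of_nonneg_left _ h2.le
      linarith
    linarith
  have e4 : (2 ^ k * ρ / 4) * (2 * n) ≤ (Nat.log 2 (2 * n) : ℝ) * (2 * n) := by
    calc (2 ^ k * ρ / 4) * (2 * n) = (2 : ℝ) ^ k * (ρ * n / 2) := by ring
      _ ≤ 2 * n * Nat.log 2 (2 * n) := e3
      _ = _ := by ring
  exact le_of_mul_le_mul_right e4 (by positivity)

theorem sofic_bound (D : Data G S) (s t : S) : ∃ E : Finset G, ∀ ρ : ℝ, 0 < ρ → ∃ c : ℝ, 0 < c ∧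
    ∀ (n : ℕ) (ε : ℝ) (φ : G → Equiv.Perm (Fin n)), 0 < n → 0 < ε →
      (∀ g ∈ E, ∀ h ∈ E,
        ((univ.filter (fun x => φ g (φ h x) ≠ φ (g * h) x)).card : ℝ) ≤ ε * n) →
      ρ * n ≤ ((univ.filter (fun x => φ (D.w0 s t) x ≠ x)).card : ℝ) →
      Real.exp (c * ε ^ (-(1 / 6) : ℝ)) ≤ n := by
  obtain ⟨E, C, hC, H⟩ := level_bound D s t
  refine ⟨E, fun ρ hρ => ?_⟩
  set A : ℝ := 48 * C / ρ with hA
  have hApos : 0 < A := by positivity
  have hlog2 : 0 < Real.log 2 := Real.log_pos (by norm_num)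
  set c1 : ℝ := Real.log 2 * ρ / 16 * A ^ (-(1 / 6) : ℝ) with hc1
  set c2 : ℝ := Real.log 2 * A ^ (-(1 / 6) : ℝ) with hc2
  have hAp : 0 < A ^ (-(1 / 6) : ℝ) := Real.rpow_pos_of_pos hApos _
  have hc1p : 0 < c1 := by positivity
  have hc2p : 0 < c2 := by positivity
  refine ⟨min c1 c2, lt_min hc1p hc2p, ?_⟩
  intro n ε φ hn hε hE hmv
  have hn' : (0 : ℝ) < n := by exact_mod_cast hn
  -- n is at least two
  have hn2 : 2 ≤ n := by
    by_contra hcon
    have h1 : n = 1 := by omega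
    subst h1
    have : (univ.filter (fun x => φ (D.w0 s t) x ≠ x)) = ∅ := by
      rw [filter_eq_empty_iff]
      intro x _ hx
      exact hx (Subsingleton.elim _ _)
    rw [this] at hmv
    simp at hmv
    linarith
  have hn2' : (2 : ℝ) ≤ n := by exact_mod_cast hn2
  have hεp : 0 < ε ^ (-(1 / 6) : ℝ) := Real.rpow_pos_of_pos hε _
  rw [← Real.le_log_iff_exp_le hn']
  by_cases hcase : A * ε ≤ 1
  · have hx : 1 ≤ 1 / (A * ε) := by
      rw [le_div_iff₀ (by positivity)]; linarith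
    obtain ⟨k, hk1, hk2⟩ := exists_nat_pow_near hx (show (1 : ℝ) < 64 by norm_num)
    have hk3 : 48 * 36 ^ k * C * ε ≤ ρ := by
      have a1 : (64 : ℝ) ^ k * (A * ε) ≤ 1 := by
        rwa [le_div_iff₀ (by positivity)] at hk1
      have a2 : (36 : ℝ) ^ k ≤ 64 ^ k := by gcongr; norm_num
      have a3 : (36 : ℝ) ^ k * (A * ε) ≤ 1 := le_trans (by gcongr) a1
      have a4 : 48 * 36 ^ k * C * ε = (36 ^ k * (A * ε)) * ρ := by
        rw [hA]; field_simp
      rw [a4]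
      calc (36 ^ k * (A * ε)) * ρ ≤ 1 * ρ := by gcongr
        _ = ρ := one_mul _
    have hb := H n ε ρ φ hn hε.le hE hmv k hk3
    -- lower bound for 2^k
    have hk4 : (1 / (A * ε)) ^ ((1 / 6 : ℝ)) ≤ 2 * 2 ^ k := by
      have b1 : (1 / (A * ε)) ^ ((1 / 6 : ℝ)) ≤ ((64 : ℝ) ^ (k + 1)) ^ ((1 / 6 : ℝ)) := by
        apply Real.rpow_le_rpow (by positivity) hk2.le (by norm_num)
      have b2 : ((64 : ℝ) ^ (k + 1)) ^ ((1 / 6 : ℝ)) = 2 ^ (k + 1) := by
        have : (64 : ℝ) ^ (k + 1) = ((2 : ℝ) ^ (k + 1)) ^ (6 : ℕ) := by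
          rw [← pow_mul, mul_comm (k + 1) 6, pow_mul]; norm_num
        rw [this, ← Real.rpow_natCast, ← Real.rpow_mul (by positivity)]
        norm_num
      rw [b2, pow_succ] at b1
      linarith
    have hk5 : (1 / (A * ε)) ^ ((1 / 6 : ℝ)) = A ^ (-(1 / 6) : ℝ) * ε ^ (-(1 / 6) : ℝ) := by
      rw [one_div, Real.inv_rpow (by positivity), Real.mul_rpow hApos.le hε.le, mul_inv,
        Real.rpow_neg hApos.le, Real.rpow_neg hε.le]
    have hk6 : (Nat.log 2 (2 * n) : ℝ) ≤ 2 * Real.log n / Real.log 2 := by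
      have d1 : ((2 : ℕ) ^ Nat.log 2 (2 * n) : ℕ) ≤ 2 * n := Nat.pow_log_le_self 2 (by omega)
      have d2 : (2 : ℝ) ^ Nat.log 2 (2 * n) ≤ (n : ℝ) * n := by
        have : ((2 : ℕ) ^ Nat.log 2 (2 * n) : ℕ) ≤ n * n := by nlinarith
        exact_mod_cast this
      have d3 := Real.log_le_log (by positivity) d2
      rw [Real.log_pow, Real.log_mul hn'.ne' hn'.ne'] at d3
      rw [le_div_iff₀ hlog2]
      linarith
    have hfin : c1 * ε ^ (-(1 / 6) : ℝ) ≤ Real.log n := by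
      have f1 : ρ / 8 * (A ^ (-(1 / 6) : ℝ) * ε ^ (-(1 / 6) : ℝ)) ≤
          2 * Real.log n / Real.log 2 := by
        rw [← hk5]
        calc ρ / 8 * (1 / (A * ε)) ^ ((1 / 6 : ℝ)) ≤ ρ / 8 * (2 * 2 ^ k) := by gcongr
          _ = 2 ^ k * ρ / 4 := by ring
          _ ≤ _ := hb
          _ ≤ _ := hk6
      rw [le_div_iff₀ hlog2] at f1
      have f2 : c1 * ε ^ (-(1 / 6) : ℝ) =
        (ρ / 8 * (A ^ (-(1 / 6) : ℝ) * ε ^ (-(1 / 6) : ℝ)) * Real.log 2) / 2 := by
        rw [hc1]; ring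
      rw [f2]; linarith
    calc min c1 c2 * ε ^ (-(1 / 6) : ℝ) ≤ c1 * ε ^ (-(1 / 6) : ℝ) := by
          gcongr; exact min_le_left _ _
      _ ≤ _ := hfin
  · push Not at hcase
    have g1 : A ^ (-(1 / 6) : ℝ) * ε ^ (-(1 / 6) : ℝ) ≤ 1 := by
      rw [← Real.mul_rpow hApos.le hε.le]
      exact Real.rpow_le_one_of_one_le_of_nonpos hcase.le (by norm_num)
    calc min c1 c2 * ε ^ (-(1 / 6) : ℝ) ≤ c2 * ε ^ (-(1 / 6) : ℝ) := by
          gcongr; exact min_le_right _ _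
      _ = Real.log 2 * (A ^ (-(1 / 6) : ℝ) * ε ^ (-(1 / 6) : ℝ)) := by rw [hc2]; ring
      _ ≤ Real.log 2 * 1 := by gcongr
      _ ≤ Real.log n := by
        rw [mul_one]; exact Real.log_le_log (by norm_num) hn2'

end Pool.Agent.H27R2.VP
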