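import Pool.Agent.H27R2.VP.Basic

set_option autoImplicit false
set_option linter.unusedSectionVars false

namespace Pool.Agent.H27R2.VP

variable {Z : Type*} [DecidableEq Z] {P : Type*} [Group P] {ℓ : P → ℝ}
variable {S : Type*} [Group S]

/-- the word representing an element of `S^(2^k)` -/
def W (τ : Bool → (FreeGroup Z →* FreeGroup Z)) (w : S → FreeGroup Z) :
    (k : ℕ) → ((Fin k → Bool) → S) → FreeGroup Z
  | 0, f => w (f Fin.elim0)
  | k + 1, f => τ false (W τ w k (fun v => f (Fin.cons false v))) *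
      τ true (W τ w k (fun v => f (Fin.cons true v)))

/-- iterated substitution along an address -/
def lf (τ : Bool → (FreeGroup Z →* FreeGroup Z)) :
    (k : ℕ) → (Fin k → Bool) → FreeGroup Z → FreeGroup Z
  | 0, _, u => u
  | k + 1, γ, u => τ (γ 0) (lf τ k (Fin.tail γ) u)

/-- the data of an approximate model: `τ` the two substitutions, `lam` the conjugating words,
`w` words for a group `S`, and all the needed relations hold up to an error `e`. -/
structure Model (ℓ : P → ℝ) (τ : Bool → (FreeGroup Z →* FreeGroup Z))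
    (lam : Bool → Bool → FreeGroup Z) (w : S → FreeGroup Z)
    (π : FreeGroup Z →* P) (e : ℝ) : Prop where
  inv : InvLen ℓ
  e0 : 0 ≤ e
  wn : ∀ s, (w s).norm ≤ 1
  w1 : w 1 = 1
  τn : ∀ j z, (τ j (FreeGroup.of z)).norm ≤ 3
  h1 : ∀ i j z, dd ℓ (π (τ i (τ j (FreeGroup.of z))))
    (π (lam i j * τ j (FreeGroup.of z) * (lam i j)⁻¹)) ≤ e
  h2 : ∀ i z z', dd ℓ (π (τ i (τ false (FreeGroup.of z))) * π (τ i (τ true (FreeGroup.of z'))))
    (π (τ i (τ true (FreeGroup.of z'))) * π (τ i (τ false (FreeGroup.of z)))) ≤ e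
  h3 : ∀ j s t, dd ℓ (π (τ j (w s)) * π (τ j (w t))) (π (τ j (w (s * t)))) ≤ e

variable {τ : Bool → (FreeGroup Z →* FreeGroup Z)} {lam : Bool → Bool → FreeGroup Z}
  {w : S → FreeGroup Z} {π : FreeGroup Z →* P} {e : ℝ}

namespace Model

theorem norm_τ (M : Model ℓ τ lam w π e) (j : Bool) (u : FreeGroup Z) :
    (τ j u).norm ≤ 3 * u.norm := norm_hom (τ j) 3 (M.τn j) u

theorem norm_W (M : Model ℓ τ lam w π e) : ∀ (k : ℕ) (f : (Fin k → Bool) → S),
    (W τ w k f).norm ≤ 6 ^ k
  | 0, f => by simpa [W] using M.wn _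
  | k + 1, f => by
    have h1 := M.norm_W k (fun v => f (Fin.cons false v))
    have h2 := M.norm_W k (fun v => f (Fin.cons true v))
    have h3 := M.norm_τ false (W τ w k (fun v => f (Fin.cons false v)))
    have h4 := M.norm_τ true (W τ w k (fun v => f (Fin.cons true v)))
    have h5 := FreeGroup.norm_mul_le (τ false (W τ w k (fun v => f (Fin.cons false v))))
      (τ true (W τ w k (fun v => f (Fin.cons true v))))
    have h6 : W τ w (k + 1) f = τ false (W τ w k (fun v => f (Fin.cons false v))) *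
      τ true (W τ w k (fun v => f (Fin.cons true v))) := rfl
    rw [h6, pow_succ]
    omega

theorem shift (M : Model ℓ τ lam w π e) (i j : Bool) (u : FreeGroup Z) :
    dd ℓ (π (τ i (τ j u))) (π (lam i j) * π (τ j u) * (π (lam i j))⁻¹) ≤ u.norm * e := by
  have h := dd_free M.inv ((π.comp (τ i)).comp (τ j))
    ((MulAut.conj (π (lam i j))).toMonoidHom.comp (π.comp (τ j))) e (fun z => by
      simp only [MonoidHom.comp_apply, MulEquiv.coe_toMonoidHom, MulAut.conj_apply]
      have := M.h1 i j z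
      simpa only [map_mul, map_inv] using this) u
  simpa only [MonoidHom.comp_apply, MulEquiv.coe_toMonoidHom, MulAut.conj_apply] using h

theorem shift2 (M : Model ℓ τ lam w π e) (i j : Bool) (u v : FreeGroup Z) :
    dd ℓ (π (τ i (τ j u))) (π (τ i (τ j v))) ≤
      dd ℓ (π (τ j u)) (π (τ j v)) + (u.norm + v.norm) * e := by
  have H := M.inv
  have h1 := M.shift i j u
  have h2 := M.shift i j v
  have h3 := H.dd_tri (π (τ i (τ j u))) (π (lam i j) * π (τ j u) * (π (lam i j))⁻¹)
    (π (τ i (τ j v)))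
  have h4 := H.dd_tri (π (lam i j) * π (τ j u) * (π (lam i j))⁻¹)
    (π (lam i j) * π (τ j v) * (π (lam i j))⁻¹) (π (τ i (τ j v)))
  rw [H.dd_conj] at h4
  rw [H.dd_comm] at h2
  linarith

theorem shift3 (M : Model ℓ τ lam w π e) (i j : Bool) (u v : FreeGroup Z) :
    dd ℓ (π (τ j u)) (π (τ j v)) ≤
      dd ℓ (π (τ i (τ j u))) (π (τ i (τ j v))) + (u.norm + v.norm) * e := by
  have H := M.inv
  have h1 := M.shift i j u
  have h2 := M.shift i j v
  have h3 := H.dd_tri (π (lam i j) * π (τ j u) * (π (lam i j))⁻¹) (π (τ i (τ j u)))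
    (π (lam i j) * π (τ j v) * (π (lam i j))⁻¹)
  have h4 := H.dd_tri (π (τ i (τ j u))) (π (τ i (τ j v)))
    (π (lam i j) * π (τ j v) * (π (lam i j))⁻¹)
  rw [H.dd_conj] at h3
  rw [H.dd_comm] at h1
  linarith

theorem comm (M : Model ℓ τ lam w π e) (i : Bool) (u v : FreeGroup Z) :
    dd ℓ (π (τ i (τ false u)) * π (τ i (τ true v))) (π (τ i (τ true v)) * π (τ i (τ false u)))
      ≤ u.norm * (v.norm * e) := by
  have h := dd_comm2 M.inv ((π.comp (τ i)).comp (τ false)) ((π.comp (τ i)).comp (τ true)) e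
    (fun z z' => by
      simpa only [MonoidHom.comp_apply] using M.h2 i z z') u v
  simpa only [MonoidHom.comp_apply] using h

/-- the uniform estimate -/
theorem uniform (M : Model ℓ τ lam w π e) : ∀ (k : ℕ) (j : Bool) (f g : (Fin k → Bool) → S),
    dd ℓ (π (τ j (W τ w k f)) * π (τ j (W τ w k g))) (π (τ j (W τ w k (f * g)))) ≤ 36 ^ k * e
  | 0, j, f, g => by
    have := M.h3 j (f Fin.elim0) (g Fin.elim0)
    simpa [W] using this
  | k + 1, j, f, g => by
    have H := M.inv
    have he := M.e0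
    set f0 := fun v => f (Fin.cons false v) with hf0
    set f1 := fun v => f (Fin.cons true v) with hf1
    set g0 := fun v => g (Fin.cons false v) with hg0
    set g1 := fun v => g (Fin.cons true v) with hg1
    have e1 : W τ w (k + 1) f = τ false (W τ w k f0) * τ true (W τ w k f1) := rfl
    have e2 : W τ w (k + 1) g = τ false (W τ w k g0) * τ true (W τ w k g1) := rfl
    have e3 : W τ w (k + 1) (f * g) =
      τ false (W τ w k (f0 * g0)) * τ true (W τ w k (f1 * g1)) := rfl
    rw [e1, e2, e3]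
    simp only [map_mul]
    set a := W τ w k f0 with ha
    set b := W τ w k f1 with hb
    set a' := W τ w k g0 with ha'
    set b' := W τ w k g1 with hb'
    set a'' := W τ w k (f0 * g0) with ha''
    set b'' := W τ w k (f1 * g1) with hb''
    have n1 : (a.norm : ℝ) ≤ 6 ^ k := by exact_mod_cast M.norm_W k f0
    have n2 : (b.norm : ℝ) ≤ 6 ^ k := by exact_mod_cast M.norm_W k f1
    have n3 : (a'.norm : ℝ) ≤ 6 ^ k := by exact_mod_cast M.norm_W k g0
    have n4 : (b'.norm : ℝ) ≤ 6 ^ k := by exact_mod_cast M.norm_W k g1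
    have n5 : (a''.norm : ℝ) ≤ 6 ^ k := by exact_mod_cast M.norm_W k (f0 * g0)
    have n6 : (b''.norm : ℝ) ≤ 6 ^ k := by exact_mod_cast M.norm_W k (f1 * g1)
    have n7 : ((a * a').norm : ℝ) ≤ 2 * 6 ^ k := by
      have : ((a * a').norm : ℝ) ≤ (a.norm : ℝ) + a'.norm := by
        exact_mod_cast FreeGroup.norm_mul_le a a'
      linarith
    have n8 : ((b * b').norm : ℝ) ≤ 2 * 6 ^ k := by
      have : ((b * b').norm : ℝ) ≤ (b.norm : ℝ) + b'.norm := by
        exact_mod_cast FreeGroup.norm_mul_le b b'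
      linarith
    -- swap
    have s1 : dd ℓ (π (τ j (τ true b)) * π (τ j (τ false a')))
        (π (τ j (τ false a')) * π (τ j (τ true b))) ≤ 36 ^ k * e := by
      have := M.comm j a' b
      rw [H.dd_comm] at this
      refine this.trans ?_
      have p1 : (0 : ℝ) ≤ a'.norm := Nat.cast_nonneg _
      have p2 : (0 : ℝ) ≤ b.norm := Nat.cast_nonneg _
      have : (36 : ℝ) ^ k = 6 ^ k * 6 ^ k := by rw [← mul_pow]; norm_num
      rw [this]
      have q1 : (b.norm : ℝ) * e ≤ 6 ^ k * e := by gcongr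
      have q2 : (a'.norm : ℝ) * ((b.norm : ℝ) * e) ≤ 6 ^ k * (6 ^ k * e) := by gcongr
      linarith
    have s2 : dd ℓ (π (τ j (τ false a)) * π (τ j (τ true b)) *
        (π (τ j (τ false a')) * π (τ j (τ true b'))))
        (π (τ j (τ false (a * a'))) * π (τ j (τ true (b * b')))) ≤ 36 ^ k * e := by
      have q : dd ℓ (π (τ j (τ false a)) * π (τ j (τ true b)) *
        (π (τ j (τ false a')) * π (τ j (τ true b'))))
        (π (τ j (τ false (a * a'))) * π (τ j (τ true (b * b')))) =
        dd ℓ (π (τ j (τ true b)) * π (τ j (τ false a')))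
        (π (τ j (τ false a')) * π (τ j (τ true b))) := by
        have c1 : π (τ j (τ false a)) * π (τ j (τ true b)) *
            (π (τ j (τ false a')) * π (τ j (τ true b'))) =
            π (τ j (τ false a)) * (π (τ j (τ true b)) * π (τ j (τ false a'))) *
              π (τ j (τ true b')) := by simp only [mul_assoc]
        have c2 : π (τ j (τ false (a * a'))) * π (τ j (τ true (b * b'))) =
            π (τ j (τ false a)) * (π (τ j (τ false a')) * π (τ j (τ true b))) *
              π (τ j (τ true b')) := by simp only [map_mul, mul_assoc]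
        rw [c1, c2, H.dd_mul_right, H.dd_mul_left]
      rw [q]; exact s1
    have s3 := M.shift2 j false (a * a') a''
    have s4 := M.shift2 j true (b * b') b''
    have ih0 := M.uniform k false f0 g0
    have ih1 := M.uniform k true f1 g1
    rw [← ha, ← ha', ← ha'', ← map_mul, ← map_mul] at ih0
    rw [← hb, ← hb', ← hb'', ← map_mul, ← map_mul] at ih1
    have s5 := H.dd_mul (π (τ j (τ false (a * a')))) (π (τ j (τ true (b * b'))))
      (π (τ j (τ false a''))) (π (τ j (τ true b'')))
    have s6 := H.dd_tri (π (τ j (τ false a)) * π (τ j (τ true b)) *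
        (π (τ j (τ false a')) * π (τ j (τ true b'))))
        (π (τ j (τ false (a * a'))) * π (τ j (τ true (b * b'))))
        (π (τ j (τ false a'')) * π (τ j (τ true b'')))
    have r1 : (((a * a').norm : ℝ) + a''.norm) * e ≤ 3 * 6 ^ k * e := by
      have : ((a * a').norm : ℝ) + a''.norm ≤ 3 * 6 ^ k := by linarith
      gcongr
    have r2 : (((b * b').norm : ℝ) + b''.norm) * e ≤ 3 * 6 ^ k * e := by
      have : ((b * b').norm : ℝ) + b''.norm ≤ 3 * 6 ^ k := by linarith
      gcongr
    have r3 : (6 : ℝ) ^ k * e ≤ 36 ^ k * e := by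
      have : (6 : ℝ) ^ k ≤ 36 ^ k := by gcongr; norm_num
      gcongr
    have r4 : (36 : ℝ) ^ (k + 1) * e = 36 * (36 ^ k * e) := by ring
    have r5 : 0 ≤ (36 : ℝ) ^ k * e := by positivity
    rw [r4]
    linarith

theorem norm_lf (M : Model ℓ τ lam w π e) : ∀ (k : ℕ) (γ : Fin k → Bool) (u : FreeGroup Z),
    (lf τ k γ u).norm ≤ 3 ^ k * u.norm
  | 0, _, u => by simp [lf]
  | k + 1, γ, u => by
    have h1 := M.norm_lf k (Fin.tail γ) u
    have h2 := M.norm_τ (γ 0) (lf τ k (Fin.tail γ) u)
    have h3 : lf τ (k + 1) γ u = τ (γ 0) (lf τ k (Fin.tail γ) u) := rfl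
    rw [h3, pow_succ]
    nlinarith

theorem W_one (M : Model ℓ τ lam w π e) : ∀ (k : ℕ), W τ w k (fun _ => (1 : S)) = 1
  | 0 => by simp [W, M.w1]
  | k + 1 => by
    have h := M.W_one k
    simp only [W]
    rw [h]; simp

theorem W_single (M : Model ℓ τ lam w π e) [DecidableEq S] : ∀ (k : ℕ) (γ : Fin k → Bool) (s : S),
    W τ w k (Pi.mulSingle γ s) = lf τ k γ (w s)
  | 0, γ, s => by
    have : γ = Fin.elim0 := Subsingleton.elim _ _
    subst this
    simp only [W, lf]
    rw [Pi.mulSingle_eq_same]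
  | k + 1, γ, s => by
    have h := M.W_single k (Fin.tail γ) s
    have key : ∀ b : Bool, (fun v => (Pi.mulSingle γ s : (Fin (k + 1) → Bool) → S)
        (Fin.cons b v)) = if b = γ 0 then Pi.mulSingle (Fin.tail γ) s else fun _ => 1 := by
      intro b
      funext v
      by_cases hb : b = γ 0
      · rw [if_pos hb]
        by_cases hv : v = Fin.tail γ
        · subst hv
          rw [Pi.mulSingle_eq_same]
          have : (Fin.cons b (Fin.tail γ) : Fin (k + 1) → Bool) = γ := by
            rw [hb]; exact Fin.cons_self_tail γ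
          rw [this, Pi.mulSingle_eq_same]
        · rw [Pi.mulSingle_eq_of_ne hv, Pi.mulSingle_eq_of_ne]
          intro hc
          apply hv
          rw [← hc]; rfl
      · rw [if_neg hb]
        rw [Pi.mulSingle_eq_of_ne]
        intro hc
        apply hb
        rw [← hc]; rfl
    simp only [W, lf]
    rw [key false, key true]
    cases hγ : γ 0 with
    | false => simp [h, M.W_one k]
    | true => simp [h, M.W_one k]

/-- the moved part does not shrink -/
theorem moved (M : Model ℓ τ lam w π e) (m : ℝ) (u v : FreeGroup Z) (hu : u.norm ≤ 1)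
    (hv : v.norm ≤ 1) (hm : ∀ j, m ≤ dd ℓ (π (τ j u)) (π (τ j v))) :
    ∀ (k : ℕ) (γ : Fin k → Bool) (j : Bool),
      m - 3 ^ k * e ≤ dd ℓ (π (τ j (lf τ k γ u))) (π (τ j (lf τ k γ v)))
  | 0, γ, j => by
    have := hm j
    have he := M.e0
    simp only [lf, pow_zero, one_mul]
    linarith
  | k + 1, γ, j => by
    have he := M.e0
    have ih := M.moved m u v hu hv hm k (Fin.tail γ) (γ 0)
    have h1 := M.shift3 j (γ 0) (lf τ k (Fin.tail γ) u) (lf τ k (Fin.tail γ) v)
    have n1 : ((lf τ k (Fin.tail γ) u).norm : ℝ) ≤ 3 ^ k := by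
      have a := M.norm_lf k (Fin.tail γ) u
      have : (lf τ k (Fin.tail γ) u).norm ≤ 3 ^ k := a.trans (by nlinarith [pow_pos (show 0 < 3 by norm_num) k])
      exact_mod_cast this
    have n2 : ((lf τ k (Fin.tail γ) v).norm : ℝ) ≤ 3 ^ k := by
      have a := M.norm_lf k (Fin.tail γ) v
      have : (lf τ k (Fin.tail γ) v).norm ≤ 3 ^ k := a.trans (by nlinarith [pow_pos (show 0 < 3 by norm_num) k])
      exact_mod_cast this
    have h2 : (((lf τ k (Fin.tail γ) u).norm : ℝ) + (lf τ k (Fin.tail γ) v).norm) * e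
        ≤ (2 * 3 ^ k) * e := by
      have : ((lf τ k (Fin.tail γ) u).norm : ℝ) + (lf τ k (Fin.tail γ) v).norm ≤ 2 * 3 ^ k := by
        linarith
      gcongr
    have h3 : (3 : ℝ) ^ (k + 1) * e = 3 ^ k * e + 2 * 3 ^ k * e := by ring
    have h4 : lf τ (k + 1) γ u = τ (γ 0) (lf τ k (Fin.tail γ) u) := rfl
    have h5 : lf τ (k + 1) γ v = τ (γ 0) (lf τ k (Fin.tail γ) v) := rfl
    rw [h3, h4, h5]
    linarith

end Model

end Pool.Agent.H27R2.VP
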